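import Pool.Agent.H572.ST.Fac

/-!
# The local structure of a completed L-function in terms of its zeros, with an error `ε log T`
-/

set_option autoImplicit false

open Filter Topology Set Metric
open Pool.Agent.H572.OB (sq sq_mul sq_diff)
open H370.Loc (Pf Pf_zero Pf_cons Pf_diff Pf_ne_zero extract logDeriv_zero_free)

namespace Pool.Agent.H572.ST

/-- the local data: `F(z)` is the completed L-function at `1/2 + it + z`, divided by a constant, and `L` the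
logarithm of the analytic conductor -/
structure Loc (δ A C₁ W L : ℝ) (F : ℂ → ℂ) : Prop where
  L1 : 1 ≤ L
  C1 : 1 ≤ C₁
  A1 : 1 ≤ A
  an : AnalyticOnNhd ℂ F (closedBall 2 (2 * W))
  sym : ∃ w : ℂ, ‖w‖ = 1 ∧ ∀ z : ℂ, |z.re| ≤ 2 → |z.im| ≤ W → rf F z = w * F z
  zero : ∀ z ∈ closedBall (2 : ℂ) (2 * W), F z = 0 → |z.re| ≤ 1 / 2
  side : ∀ z : ℂ, 1 / 2 + δ / 4 ≤ |z.re| → |z.re| ≤ 2 → |z.im| ≤ W → |Real.log ‖F z‖ - |z.re| / 2 * L| ≤ C₁
  mid : ∀ z : ℂ, |z.re| ≤ 1 → |z.im| ≤ W → ‖F z‖ ≤ Real.exp (A * L + C₁)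
  big : ∀ z ∈ closedBall (2 : ℂ) (2 * W), ‖F z‖ ≤ Real.exp (A * (1 + W) * L + C₁)

lemma in_ball {z : ℂ} {W r : ℝ} (h : |z.re| + 2 + |z.im| ≤ r) : z ∈ closedBall (2 : ℂ) r := by
  rw [mem_closedBall, dist_eq_norm]
  have h1 := Complex.norm_le_abs_re_add_abs_im (z - 2)
  simp only [Complex.sub_re, Complex.re_ofNat, Complex.sub_im, Complex.im_ofNat, sub_zero] at h1
  have h2 : |z.re - 2| ≤ |z.re| + 2 := by
    have := abs_sub z.re 2
    have e : |(2 : ℝ)| = 2 := abs_of_pos (by norm_num)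
    calc |z.re - 2| ≤ |z.re| + |2| := abs_sub z.re 2
      _ = _ := by rw [e]
  linarith

variable {δ A C₁ W L : ℝ} {F : ℂ → ℂ}

lemma Loc.norm_sym (h : Loc δ A C₁ W L F) {z : ℂ} (h1 : |z.re| ≤ 2) (h2 : |z.im| ≤ W) :
    ‖F (-(starRingEnd ℂ) z)‖ = ‖F z‖ := by
  obtain ⟨w, hw, hs⟩ := h.sym
  rw [← rf_norm, hs z h1 h2, norm_mul, hw, one_mul]

/-- the zeros in a large disc and the zero free part -/
structure Zer (W n : ℝ) (F : ℂ → ℂ) (s : Multiset ℂ) (g : ℂ → ℂ) : Prop where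
  mem : ∀ ρ ∈ s, ρ ∈ closedBall (2 : ℂ) (W - 1) ∧ F ρ = 0
  an : AnalyticOnNhd ℂ g (closedBall 2 (2 * W))
  eq : ∀ z, F z = Pf s z * g z
  ne : ∀ z ∈ closedBall (2 : ℂ) (W - 1), g z ≠ 0
  card : (Multiset.card s : ℝ) ≤ n

lemma Loc.exists_zer (h : Loc δ A C₁ W L F) (hδ : 0 < δ) (hδ1 : δ ≤ 1 / 8) (hW : 16 ≤ W) :
    ∃ (s : Multiset ℂ) (g : ℂ → ℂ), Zer W (2 * A * (1 + W) * L + 4 * C₁) F s g := by
  have hL := h.L1
  have hC := h.C1
  have hA := h.A1
  have h2 : |Real.log ‖F 2‖ - |(2 : ℂ).re| / 2 * L| ≤ C₁ := by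
    apply h.side
    · simp; linarith
    · simp
    · simp; linarith
  have e2 : |(2 : ℂ).re| = 2 := by simp
  rw [e2] at h2
  have h2' := (abs_le.1 h2).1
  have hne : F 2 ≠ 0 := by
    intro h0
    have := h.zero 2 (mem_closedBall_self (by linarith)) h0
    rw [e2] at this
    linarith
  have hM : 1 ≤ Real.exp (A * (1 + W) * L + C₁) := Real.one_le_exp (by positivity)
  obtain ⟨s, g, h3, h4, h5, h6, h7⟩ := extract (c := 2) (r := W - 1) (R := 2 * W) (by linarith) (by linarith) hM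
    h.an hne h.big
  refine ⟨s, g, ⟨h3, h4, h5, h6, h7.trans ?_⟩⟩
  have hF2 : 0 < ‖F 2‖ := norm_pos_iff.2 hne
  rw [Real.log_div (Real.exp_pos _).ne' hF2.ne', Real.log_exp]
  have hlog : 1 / 2 ≤ Real.log (2 * W / (W - 1)) := by
    have h8 : (2 : ℝ) ≤ 2 * W / (W - 1) := by
      rw [le_div_iff₀ (by linarith)]
      linarith
    have h9 := Real.log_le_log (by norm_num) h8
    have := Real.log_two_gt_d9
    linarith
  rw [div_le_iff₀ (by linarith)]
  have h10 : 0 ≤ 2 * A * (1 + W) * L + 4 * C₁ := by positivity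
  calc A * (1 + W) * L + C₁ - Real.log ‖F 2‖ ≤ (2 * A * (1 + W) * L + 4 * C₁) * (1 / 2) := by linarith
    _ ≤ _ := by gcongr

section
variable {s : Multiset ℂ} {g : ℂ → ℂ} {n c a : ℝ}

/-- `F ∏ cot` -/
noncomputable def H1 (c : ℝ) (s : Multiset ℂ) (g : ℂ → ℂ) (z : ℂ) : ℂ := g z * BP c s z

/-- the symmetric product -/
noncomputable def H2 (c : ℝ) (s : Multiset ℂ) (g : ℂ → ℂ) (z : ℂ) : ℂ := H1 c s g z * rf (H1 c s g) z

/-- everything that is used in the strip -/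
structure Str (δ A C₁ W L c a n : ℝ) (F : ℂ → ℂ) (s : Multiset ℂ) (g : ℂ → ℂ) : Prop where
  loc : Loc δ A C₁ W L F
  zer : Zer W n F s g
  δ0 : 0 < δ
  δ1 : δ ≤ 1 / 8
  W16 : 16 ≤ W
  ae : a = 1 / 2 + δ
  c1 : 1 ≤ c
  ca : 2 * c * (2 * a) = Real.pi

lemma Str.ρ_re (h : Str δ A C₁ W L c a n F s g) {ρ : ℂ} (hρ : ρ ∈ s) : |ρ.re| ≤ 1 / 2 :=
  h.loc.zero ρ (closedBall_subset_closedBall (by linarith [h.W16]) (h.zer.mem ρ hρ).1) (h.zer.mem ρ hρ).2

lemma Str.near (h : Str δ A C₁ W L c a n F s g) {z : ℂ} (hz : |z.re| ≤ a) :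
    ∀ ρ ∈ s, |z.re - ρ.re| < 2 * a := by
  intro ρ hρ
  have h1 := h.ρ_re hρ
  have h2 := abs_sub z.re ρ.re
  have h3 := h.ae
  have h4 := h.δ0
  linarith

lemma Str.c0 (h : Str δ A C₁ W L c a n F s g) : 0 < c := by linarith [h.c1]

lemma Str.a_le (h : Str δ A C₁ W L c a n F s g) : a ≤ 1 := by rw [h.ae]; linarith [h.δ1]
lemma Str.a_pos (h : Str δ A C₁ W L c a n F s g) : 0 < a := by rw [h.ae]; linarith [h.δ0]

lemma Str.H1_an (h : Str δ A C₁ W L c a n F s g) {z : ℂ} (hz : |z.re| ≤ a) (hz2 : |z.im| ≤ W) :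
    AnalyticAt ℂ (H1 c s g) z := by
  have h1 : z ∈ closedBall (2 : ℂ) (2 * W) := in_ball (W := W) (by linarith [h.a_le, h.W16])
  exact (h.zer.an z h1).mul (BP_an h.c0 h.ca (h.near hz))

lemma abs_rf (z : ℂ) : |(-(starRingEnd ℂ) z).re| = |z.re| ∧ |(-(starRingEnd ℂ) z).im| = |z.im| := by
  simp

lemma Str.H2_an (h : Str δ A C₁ W L c a n F s g) {z : ℂ} (hz : |z.re| ≤ a) (hz2 : |z.im| ≤ W) :
    AnalyticAt ℂ (H2 c s g) z := by
  have h1 := abs_rf z
  exact (h.H1_an hz hz2).mul (rf_analytic (h.H1_an (by rw [h1.1]; exact hz) (by rw [h1.2]; exact hz2)))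

lemma Str.log_H1 (h : Str δ A C₁ W L c a n F s g) {z : ℂ} (hz : |z.re| ≤ a) (hF : F z ≠ 0) :
    H1 c s g z ≠ 0 ∧ Real.log ‖H1 c s g z‖ = Real.log ‖F z‖ + (s.map fun ρ => lt c ρ z).sum := by
  have hne : ∀ ρ ∈ s, z ≠ ρ := by
    intro ρ hρ h0
    apply hF
    rw [h0]
    exact (h.zer.mem ρ hρ).2
  have hg : g z ≠ 0 := by
    intro h0
    apply hF
    rw [h.zer.eq, h0, mul_zero]
  have hB := BP_ne h.c0 h.ca (h.near hz)
  refine ⟨mul_ne_zero hg hB, ?_⟩
  unfold H1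
  rw [norm_mul, Real.log_mul (norm_ne_zero_iff.2 hg) (norm_ne_zero_iff.2 hB), log_BP h.c0 h.ca (h.near hz) hne,
    h.zer.eq z, norm_mul, Real.log_mul (norm_ne_zero_iff.2 (Pf_ne_zero hne)) (norm_ne_zero_iff.2 hg)]
  ring

lemma sum_map_add' (s : Multiset ℂ) (f₁ f₂ : ℂ → ℝ) :
    (s.map f₁).sum + (s.map f₂).sum = (s.map fun ρ => f₁ ρ + f₂ ρ).sum :=
  (Multiset.sum_map_add).symm

lemma Str.log_H2 (h : Str δ A C₁ W L c a n F s g) {z : ℂ} (hz : |z.re| ≤ a) (hz2 : |z.im| ≤ W) (hF : F z ≠ 0) :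
    H2 c s g z ≠ 0 ∧ Real.log ‖H2 c s g z‖ = 2 * Real.log ‖F z‖ +
      (s.map fun ρ => lt c ρ z + lt c ρ (-(starRingEnd ℂ) z)).sum := by
  have h1 := abs_rf z
  have hn := h.loc.norm_sym (by linarith [h.a_le]) hz2
  have hF' : F (-(starRingEnd ℂ) z) ≠ 0 := by
    rw [← norm_ne_zero_iff, hn]
    exact norm_ne_zero_iff.2 hF
  obtain ⟨a1, a2⟩ := h.log_H1 hz hF
  obtain ⟨b1, b2⟩ := h.log_H1 (z := -(starRingEnd ℂ) z) (by rw [h1.1]; exact hz) hF'
  have b3 : rf (H1 c s g) z ≠ 0 := by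
    rw [← norm_ne_zero_iff, rf_norm]
    exact norm_ne_zero_iff.2 b1
  refine ⟨mul_ne_zero a1 b3, ?_⟩
  unfold H2
  rw [norm_mul, Real.log_mul (norm_ne_zero_iff.2 a1) (norm_ne_zero_iff.2 b3), rf_norm, a2, b2, hn,
    ← sum_map_add']
  ring

lemma sum_const_zero (s : Multiset ℂ) (f : ℂ → ℝ) (hf : ∀ ρ ∈ s, f ρ = 0) : (s.map f).sum = 0 := by
  rw [Multiset.map_congr rfl hf]
  simp

lemma sum_nonneg' (s : Multiset ℂ) (f : ℂ → ℝ) (hf : ∀ ρ ∈ s, 0 ≤ f ρ) : 0 ≤ (s.map f).sum := by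
  apply Multiset.sum_nonneg
  intro x hx
  obtain ⟨ρ, hρ, rfl⟩ := Multiset.mem_map.1 hx
  exact hf ρ hρ

lemma sum_le_card (s : Multiset ℂ) (f : ℂ → ℝ) (k : ℝ) (hf : ∀ ρ ∈ s, f ρ ≤ k) :
    (s.map f).sum ≤ Multiset.card s * k := by
  induction s using Multiset.induction_on with
  | empty => simp
  | cons ρ s ih =>
    rw [Multiset.map_cons, Multiset.sum_cons, Multiset.card_cons]
    have h1 := hf ρ (Multiset.mem_cons_self ρ s)
    have h2 := ih fun ρ' h' => hf ρ' (Multiset.mem_cons_of_mem h')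
    push_cast
    linarith

/-- the vertical edges -/
lemma Str.edge (h : Str δ A C₁ W L c a n F s g) {z : ℂ} (hz : |z.re| = a) (hz2 : |z.im| ≤ W) :
    H2 c s g z ≠ 0 ∧ |Real.log ‖H2 c s g z‖ - a * L| ≤ 2 * C₁ := by
  have hδ := h.δ0
  have ha := h.ae
  have hF : F z ≠ 0 := by
    intro h0
    have := h.loc.zero z (in_ball (W := W) (by linarith [h.a_le, h.W16])) h0
    linarith
  obtain ⟨h1, h2⟩ := h.log_H2 hz.le hz2 hF
  refine ⟨h1, ?_⟩
  rw [h2, sum_const_zero s _ (fun ρ _ => lt_pair_edge h.ca hz), add_zero]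
  have h3 := h.loc.side z (by rw [hz]; linarith) (by linarith [h.a_le]) hz2
  rw [hz] at h3
  have h4 := abs_le.1 h3
  rw [abs_le]
  constructor <;> linarith [h4.1, h4.2]

/-- the horizontal edges -/
lemma Str.hor (h : Str δ A C₁ W L c a n F s g) {z : ℂ} (hz : |z.re| ≤ a) (hz2 : |z.im| = W) :
    ‖H2 c s g z‖ ≤ Real.exp (2 * A * L + 2 * C₁ + 2 * n) := by
  have hfar : ∀ ρ ∈ s, 1 ≤ |z.im - ρ.im| := by
    intro ρ hρ
    have h1 := (h.zer.mem ρ hρ).1
    rw [mem_closedBall, dist_eq_norm] at h1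
    have h2 := (Complex.abs_im_le_norm (ρ - 2)).trans h1
    simp only [Complex.sub_im, Complex.im_ofNat, sub_zero] at h2
    have h3 := abs_sub_abs_le_abs_sub z.im ρ.im
    linarith
  by_cases hF : F z = 0
  · have hne : ∀ ρ ∈ s, z ≠ ρ := by
      intro ρ hρ h0
      have := hfar ρ hρ
      rw [h0, sub_self, abs_zero] at this
      linarith
    have hg : g z = 0 := by
      have := h.zer.eq z
      rw [hF] at this
      rcases mul_eq_zero.1 this.symm with h1 | h1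
      · exact absurd h1 (Pf_ne_zero hne)
      · exact h1
    have : H2 c s g z = 0 := by
      unfold H2 H1
      rw [hg, zero_mul, zero_mul]
    rw [this, norm_zero]
    exact (Real.exp_pos _).le
  · obtain ⟨h1, h2⟩ := h.log_H2 hz hz2.le hF
    have hpos : 0 < ‖H2 c s g z‖ := norm_pos_iff.2 h1
    rw [← Real.log_le_iff_le_exp hpos, h2]
    have hm := h.loc.mid z (by linarith [h.a_le]) hz2.le
    have hm' : Real.log ‖F z‖ ≤ A * L + C₁ := by
      rw [Real.log_le_iff_le_exp (norm_pos_iff.2 hF)]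
      exact hm
    have hs := sum_le_card s (fun ρ => lt c ρ z + lt c ρ (-(starRingEnd ℂ) z)) 2 (by
      intro ρ hρ
      have k1 := lt_far h.c1 (hfar ρ hρ)
      have k2 := lt_far h.c1 (ρ := ρ) (z := -(starRingEnd ℂ) z) (by
        have : (-(starRingEnd ℂ) z).im = z.im := by simp
        rw [this]
        exact hfar ρ hρ)
      linarith)
    have hc := h.zer.card
    linarith

/-- the interior: no zeros -/
lemma Str.H2_ne (h : Str δ A C₁ W L c a n F s g) {z : ℂ} (hz : |z.re| ≤ a) (hz2 : |z.im| ≤ W / 2) :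
    H2 c s g z ≠ 0 := by
  have h1 := abs_rf z
  have key : ∀ w : ℂ, |w.re| ≤ a → |w.im| ≤ W / 2 → H1 c s g w ≠ 0 := by
    intro w hw hw2
    refine mul_ne_zero (h.zer.ne w (in_ball (W := W) ?_)) (BP_ne h.c0 h.ca (h.near hw))
    linarith [h.a_le, h.W16]
  refine mul_ne_zero (key z hz hz2) ?_
  rw [← norm_ne_zero_iff, rf_norm]
  exact norm_ne_zero_iff.2 (key _ (by rw [h1.1]; exact hz) (by rw [h1.2]; exact hz2))

/-- **Upper bound.** -/
lemma Str.upper (h : Str δ A C₁ W L c a n F s g) (hn : n = 2 * A * (1 + W) * L + 4 * C₁) {z : ℂ}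
    (hz : |z.re| ≤ a) (hz2 : |z.im| ≤ W / 2) :
    Real.log ‖H2 c s g z‖ ≤ a * L + 24 * A * (1 + W) * Real.exp (-(W / 2)) * L + 3 * C₁ := by
  have hL := h.loc.L1
  have hC := h.loc.C1
  have hA := h.loc.A1
  have hW := h.W16
  have ha := h.a_pos
  have h1 := rect_max (f := H2 c s g) (a := a) (W := W) (M₁ := a * L + 2 * C₁)
    (M₂ := 6 * A * (1 + W) * L + 8 * C₁) ha h.a_le (by linarith) (by positivity)
    (fun w hw hw2 => h.H2_an hw hw2)
    (fun w hw hw2 => by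
      obtain ⟨k1, k2⟩ := h.edge hw hw2
      rw [← Real.log_le_iff_le_exp (norm_pos_iff.2 k1)]
      linarith [(abs_le.1 k2).2])
    (fun w hw hw2 => by
      refine (h.hor hw hw2).trans (Real.exp_le_exp.2 ?_)
      rw [hn]
      have : A * L ≤ A * (1 + W) * L := by
        have : A * L * 1 ≤ A * L * (1 + W) := by
          apply mul_le_mul_of_nonneg_left _ (by positivity)
          linarith
        nlinarith
      have : 0 ≤ a * L := by positivity
      nlinarith) hz hz2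
  have hpos : 0 < ‖H2 c s g z‖ := norm_pos_iff.2 (h.H2_ne hz hz2)
  rw [← Real.log_le_iff_le_exp hpos] at h1
  have h2 : Real.exp (-(W / 2)) ≤ 1 / 32 := by
    have h3 : Real.exp (-(W / 2)) ≤ Real.exp (-8) := Real.exp_le_exp.2 (by linarith)
    have h4 : Real.exp (-8) ≤ 1 / 32 := by
      rw [Real.exp_neg, one_div]
      apply inv_anti₀ (by norm_num)
      have h5 := Real.add_one_le_exp (4 : ℝ)
      have h6 : Real.exp 8 = Real.exp 4 * Real.exp 4 := by rw [← Real.exp_add]; norm_num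
      have h7 := Real.add_one_le_exp (2 : ℝ)
      have h8 : Real.exp 4 = Real.exp 2 * Real.exp 2 := by rw [← Real.exp_add]; norm_num
      have h9 : 9 ≤ Real.exp 4 := by rw [h8]; nlinarith
      rw [h6]
      nlinarith
    linarith
  have h0 := Real.exp_pos (-(W / 2))
  nlinarith

/-- close to the edges -/
lemma Str.near_edge (h : Str δ A C₁ W L c a n F s g) {z : ℂ} (hz0 : 1 / 2 + δ / 4 ≤ |z.re|) (hz : |z.re| ≤ a)
    (hz2 : |z.im| ≤ W) : L / 2 - 2 * C₁ ≤ Real.log ‖H2 c s g z‖ := by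
  have hδ := h.δ0
  have ha := h.ae
  have hL := h.loc.L1
  have hF : F z ≠ 0 := by
    intro h0
    have := h.loc.zero z (in_ball (W := W) (by linarith [h.a_le, h.W16])) h0
    linarith
  obtain ⟨h1, h2⟩ := h.log_H2 hz hz2 hF
  have h3 := h.loc.side z hz0 (by linarith [h.a_le]) hz2
  have h4 := (abs_le.1 h3).1
  have hr := abs_rf z
  have hne : ∀ ρ ∈ s, ∀ w : ℂ, |w.re| = |z.re| → w ≠ ρ := by
    intro ρ hρ w hw h0
    have h5 := h.ρ_re hρ
    rw [← h0, hw] at h5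
    linarith
  have hs := sum_nonneg' s (fun ρ => lt c ρ z + lt c ρ (-(starRingEnd ℂ) z)) (by
    intro ρ hρ
    have h5 := h.ρ_re hρ
    refine lt_pair_nonneg h.c0 h.ca hz (by linarith) ?_ ?_
    · exact sin_ne h.c0 h.ca (h.near hz ρ hρ) (hne ρ hρ z rfl)
    · exact sin_ne h.c0 h.ca (h.near (z := -(starRingEnd ℂ) z) (by rw [hr.1]; exact hz) ρ hρ)
        (hne ρ hρ _ hr.1))
  rw [h2]
  have h6 : 1 / 2 * L ≤ |z.re| * L := by
    apply mul_le_mul_of_nonneg_right _ (by linarith)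
    linarith
  linarith

/-- the chain of discs -/
lemma Str.chain (h : Str δ A C₁ W L c a n F s g) {M : ℝ}
    (hM : ∀ z : ℂ, |z.re| ≤ a → |z.im| ≤ W / 2 → Real.log ‖H2 c s g z‖ ≤ M) (k : ℕ) :
    ∀ z : ℂ, |z.re| ≤ 1 / 2 + δ / 2 → |z.im| ≤ W / 2 - 1 → 1 / 2 + δ / 2 - z.re ≤ k * (δ / 4) →
      M - Real.log ‖H2 c s g z‖ + 1 ≤ 3 ^ k * (M - (L / 2 - 2 * C₁) + 1) := by
  have hδ := h.δ0
  have ha := h.ae
  have hW := h.W16
  induction k with
  | zero =>
    intro z hz hz2 hk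
    have h1 : 1 / 2 + δ / 2 ≤ |z.re| := by
      have := le_abs_self z.re
      simp only [Nat.cast_zero, zero_mul] at hk
      linarith
    have h2 := h.near_edge (z := z) (by linarith) (by linarith) (by linarith)
    simp only [pow_zero, one_mul]
    linarith
  | succ k ih =>
    intro z hz hz2 hk
    obtain ⟨u, hu⟩ : ∃ u : ℝ, u = min (z.re + δ / 4) (1 / 2 + δ / 2) := ⟨_, rfl⟩
    obtain ⟨w, hw⟩ : ∃ w : ℂ, w = ⟨u, z.im⟩ := ⟨_, rfl⟩
    have hwr : w.re = u := by rw [hw]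
    have hwi : w.im = z.im := by rw [hw]
    have hz' := abs_le.1 hz
    have hu1 : z.re ≤ u := by
      rw [hu]
      exact le_min (by linarith) hz'.2
    have hu2 : u ≤ z.re + δ / 4 := by rw [hu]; exact min_le_left _ _
    have hu3 : u ≤ 1 / 2 + δ / 2 := by rw [hu]; exact min_le_right _ _
    have hu4 : 1 / 2 + δ / 2 - u ≤ k * (δ / 4) := by
      rw [hu]
      push_cast at hk
      rcases min_choice (z.re + δ / 4) (1 / 2 + δ / 2) with h1 | h1
      · rw [h1]; linarith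
      · rw [h1, sub_self]
        positivity
    have hih := ih w (by rw [hwr, abs_le]; constructor <;> linarith [hz'.1]) (by rw [hwi]; exact hz2)
      (by rw [hwr]; exact hu4)
    have hsub : ∀ v ∈ closedBall w (δ / 2), |v.re| ≤ a ∧ |v.im| ≤ W / 2 := by
      intro v hv
      rw [mem_closedBall, dist_eq_norm] at hv
      have h1 := (Complex.abs_re_le_norm (v - w)).trans hv
      have h2 := (Complex.abs_im_le_norm (v - w)).trans hv
      rw [Complex.sub_re, hwr] at h1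
      rw [Complex.sub_im, hwi] at h2
      have h1' := abs_le.1 h1
      have h2' := abs_le.1 h2
      have h3' := abs_le.1 hz2
      have hδ1 := h.δ1
      constructor
      · rw [abs_le, ha]; constructor <;> linarith [hz'.1]
      · rw [abs_le]; constructor <;> linarith [h2'.1, h2'.2, h3'.1, h3'.2]
    have hzw : ‖z - w‖ ≤ δ / 2 / 2 := by
      have e : z - w = ((z.re - u : ℝ) : ℂ) := by
        apply Complex.ext
        · simp [hwr]
        · simp [hwi]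
      rw [e, Complex.norm_real, Real.norm_eq_abs, abs_of_nonpos (by linarith)]
      linarith
    have hH := harnack (f := H2 c s g) (c := w) (r := δ / 2) (M := M) (by linarith)
      (fun v hv => h.H2_an (hsub v hv).1 (by linarith [(hsub v hv).2]))
      (fun v hv => h.H2_ne (hsub v hv).1 (hsub v hv).2)
      (fun v hv => hM v (hsub v hv).1 (hsub v hv).2) hzw
    calc M - Real.log ‖H2 c s g z‖ + 1 ≤ 3 * (M - Real.log ‖H2 c s g w‖ + 1) := hH
      _ ≤ 3 * (3 ^ k * (M - (L / 2 - 2 * C₁) + 1)) := by gcongr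
      _ = _ := by rw [pow_succ]; ring

end

end Pool.Agent.H572.ST
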