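import Pool.Agent.H572.ST.Core

/-!
# The local structure of a completed L-function in terms of its zeros: the two-sided estimate
-/

set_option autoImplicit false

open Filter Topology Set Metric
open Pool.Agent.H572.OB (sq sq_mul sq_diff)
open H370.Loc (Pf Pf_zero Pf_cons Pf_diff Pf_ne_zero extract logDeriv_zero_free)

namespace Pool.Agent.H572.ST

variable {δ A C₁ W L c a n ε₁ : ℝ} {F g : ℂ → ℂ} {s : Multiset ℂ}

/-- the number of discs in the chain -/
noncomputable def Nd (δ : ℝ) : ℕ := ⌈8 / δ⌉₊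

/-- `W` is large -/
structure Big (δ A W ε₁ : ℝ) : Prop where
  e0 : 0 < ε₁
  e1 : ε₁ ≤ 1
  η : 24 * A * (1 + W) * Real.exp (-(W / 2)) ≤ ε₁ / 2
  N : 8 * 3 ^ Nd δ * Real.exp (-((W / 2 - 1) / 2)) ≤ ε₁ / 2

lemma exists_big (δ A : ℝ) (hε : 0 < ε₁) (hε1 : ε₁ ≤ 1) : ∃ W : ℝ, 16 ≤ W ∧ Big δ A W ε₁ := by
  have h1 : Tendsto (fun W : ℝ => 24 * A * (1 + W) * Real.exp (-(W / 2))) atTop (𝓝 0) := by
    have e1 : Tendsto (fun W : ℝ => W / 2) atTop atTop := tendsto_id.atTop_div_const (by norm_num)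
    have k0 : Tendsto (fun x : ℝ => Real.exp (-x)) atTop (𝓝 0) := Real.tendsto_exp_neg_atTop_nhds_zero
    have k1 : Tendsto (fun x : ℝ => x ^ 1 * Real.exp (-x)) atTop (𝓝 0) := Real.tendsto_pow_mul_exp_neg_atTop_nhds_zero 1
    have k2 := ((k0.comp e1).const_mul (24 * A)).add ((k1.comp e1).const_mul (48 * A))
    rw [mul_zero, mul_zero, add_zero] at k2
    refine k2.congr fun W => ?_
    simp only [Function.comp_apply, pow_one]
    ring
  have h2 : Tendsto (fun W : ℝ => 8 * 3 ^ Nd δ * Real.exp (-((W / 2 - 1) / 2))) atTop (𝓝 0) := by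
    have e1 : Tendsto (fun W : ℝ => (W / 2 - 1) / 2) atTop atTop := by
      apply Tendsto.atTop_div_const (by norm_num)
      apply tendsto_atTop_add_const_right
      exact tendsto_id.atTop_div_const (by norm_num)
    have k0 : Tendsto (fun x : ℝ => Real.exp (-x)) atTop (𝓝 0) := Real.tendsto_exp_neg_atTop_nhds_zero
    have k2 := (k0.comp e1).const_mul (8 * 3 ^ Nd δ)
    rw [mul_zero] at k2
    exact k2
  have h3 := (h1.eventually (gt_mem_nhds (by positivity : (0 : ℝ) < ε₁ / 2))).and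
    ((h2.eventually (gt_mem_nhds (by positivity : (0 : ℝ) < ε₁ / 2))).and (eventually_ge_atTop (16 : ℝ)))
  obtain ⟨W, h4, h5, h6⟩ := h3.exists
  exact ⟨W, h6, ⟨hε, hε1, h4.le, h5.le⟩⟩

/-- first lower bound -/
lemma Str.drop (h : Str δ A C₁ W L c a n F s g) (hn : n = 2 * A * (1 + W) * L + 4 * C₁) (hb : Big δ A W ε₁) {z : ℂ}
    (hz : |z.re| ≤ a) (hz2 : |z.im| ≤ W / 2 - 1) :
    a * L - Real.log ‖H2 c s g z‖ ≤ 3 ^ Nd δ * (L + 6 * C₁) := by
  have hL := h.loc.L1
  have hC := h.loc.C1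
  have ha1 := h.a_le
  have ha0 := h.a_pos
  have hW := h.W16
  have hδ := h.δ0
  have h3N : (1 : ℝ) ≤ 3 ^ Nd δ := one_le_pow₀ (by norm_num)
  have haL : a * L ≤ L := by nlinarith
  have hLC : L + 6 * C₁ ≤ 3 ^ Nd δ * (L + 6 * C₁) := by
    have : 0 ≤ L + 6 * C₁ := by positivity
    nlinarith
  rcases le_total (1 / 2 + δ / 2) |z.re| with h1 | h1
  · have h2 := h.near_edge (z := z) (by linarith) hz (by linarith)
    linarith
  · have hM : ∀ w : ℂ, |w.re| ≤ a → |w.im| ≤ W / 2 → Real.log ‖H2 c s g w‖ ≤ a * L + L / 2 + 3 * C₁ := by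
      intro w hw hw2
      have h2 := h.upper hn hw hw2
      have h3 : 24 * A * (1 + W) * Real.exp (-(W / 2)) * L ≤ 1 / 2 * L := by
        apply mul_le_mul_of_nonneg_right _ (by linarith)
        linarith [hb.η, hb.e1]
      linarith
    have h4 := h.chain hM (Nd δ) z h1 hz2 (by
      have h5 : 8 / δ ≤ Nd δ := Nat.le_ceil _
      have h6 : 2 ≤ Nd δ * (δ / 4) := by
        calc (2 : ℝ) = 8 / δ * (δ / 4) := by field_simp; norm_num
          _ ≤ _ := by gcongr
      have h7 := (abs_le.1 h1).1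
      linarith [h.δ1])
    have h8 : a * L + L / 2 + 3 * C₁ - (L / 2 - 2 * C₁) + 1 ≤ L + 6 * C₁ := by linarith
    have h9 : (3 : ℝ) ^ Nd δ * (a * L + L / 2 + 3 * C₁ - (L / 2 - 2 * C₁) + 1) ≤ 3 ^ Nd δ * (L + 6 * C₁) := by
      gcongr
    linarith

/-- **The two-sided bound.** -/
theorem Str.two (h : Str δ A C₁ W L c a n F s g) (hn : n = 2 * A * (1 + W) * L + 4 * C₁) (hb : Big δ A W ε₁) {z : ℂ}
    (hz : |z.re| ≤ a) (hz2 : |z.im| ≤ 1) :
    |Real.log ‖H2 c s g z‖ - a * L| ≤ ε₁ * L + 5 * C₁ := by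
  have hL := h.loc.L1
  have hC := h.loc.C1
  have ha1 := h.a_le
  have ha0 := h.a_pos
  have hW := h.W16
  have he0 := hb.e0
  have he1 := hb.e1
  rw [abs_le]
  constructor
  · have h1 := rect_max (f := fun z => (H2 c s g z)⁻¹) (a := a) (W := W / 2 - 1) (M₁ := -(a * L) + 2 * C₁)
      (M₂ := 3 ^ Nd δ * (L + 6 * C₁)) ha0 ha1 (by linarith) (by positivity)
      (fun w hw hw2 => (h.H2_an hw (by linarith)).inv (h.H2_ne hw (by linarith)))
      (fun w hw hw2 => by
        obtain ⟨k1, k2⟩ := h.edge hw (by linarith)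
        rw [norm_inv, ← Real.log_le_iff_le_exp (inv_pos.2 (norm_pos_iff.2 k1)), Real.log_inv]
        linarith [(abs_le.1 k2).1])
      (fun w hw hw2 => by
        have k1 := h.H2_ne hw (by linarith)
        have k2 := h.drop hn hb hw hw2.le
        rw [norm_inv, ← Real.log_le_iff_le_exp (inv_pos.2 (norm_pos_iff.2 k1)), Real.log_inv]
        linarith) hz (by linarith)
    have k1 := h.H2_ne hz (by linarith)
    rw [norm_inv, ← Real.log_le_iff_le_exp (inv_pos.2 (norm_pos_iff.2 k1)), Real.log_inv] at h1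
    have h2 : 4 * (3 ^ Nd δ * (L + 6 * C₁)) * Real.exp (-((W / 2 - 1) / 2)) ≤ ε₁ / 4 * (L + 6 * C₁) := by
      calc 4 * (3 ^ Nd δ * (L + 6 * C₁)) * Real.exp (-((W / 2 - 1) / 2))
          = (8 * 3 ^ Nd δ * Real.exp (-((W / 2 - 1) / 2))) / 2 * (L + 6 * C₁) := by ring
        _ ≤ ε₁ / 2 / 2 * (L + 6 * C₁) := by
            have := hb.N
            gcongr
        _ = _ := by ring
    have h3 : ε₁ * C₁ ≤ 1 * C₁ := by gcongr
    nlinarith
  · have h1 := h.upper hn hz (by linarith)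
    have h3 : 24 * A * (1 + W) * Real.exp (-(W / 2)) * L ≤ ε₁ / 2 * L := by
      apply mul_le_mul_of_nonneg_right hb.η (by linarith)
    nlinarith

/-- the main term of the logarithmic derivative -/
lemma Str.logDeriv_H2 (h : Str δ A C₁ W L c a n F s g) {x : ℝ} (hx : |x| ≤ a) (hF : F x ≠ 0) :
    logDeriv (H2 c s g) x = 2 * logDeriv F x -
      (s.map fun ρ => Kc c ρ x - (starRingEnd ℂ) (Kc c ρ (-x : ℝ))).sum := by
  have hW := h.W16
  have ha1 := h.a_le
  have e0 : -(starRingEnd ℂ) (x : ℂ) = ((-x : ℝ) : ℂ) := by simp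
  obtain ⟨w, hw, hs⟩ := h.loc.sym
  have hw0 : w ≠ 0 := by
    intro h0
    rw [h0, norm_zero] at hw
    linarith
  have hxre : ∀ y : ℝ, |y| = |x| → |((y : ℝ) : ℂ).re| ≤ a ∧ |((y : ℝ) : ℂ).im| ≤ W ∧ F y ≠ 0 := by
    intro y hy
    refine ⟨by simp [hy, hx], by simp; linarith, ?_⟩
    have hn := h.loc.norm_sym (z := (x : ℂ)) (by simp; linarith) (by simp; linarith)
    rw [e0] at hn
    rcases abs_eq_abs.1 hy with h1 | h1
    · rw [h1]; exact hF
    · rw [h1, ← norm_ne_zero_iff, hn]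
      exact norm_ne_zero_iff.2 hF
  -- the logarithmic derivative of H1
  have hH1 : ∀ y : ℝ, |y| = |x| → logDeriv (H1 c s g) y = logDeriv F y - (s.map fun ρ => Kc c ρ y).sum := by
    intro y hy
    obtain ⟨y1, y2, y3⟩ := hxre y hy
    have hne : ∀ ρ ∈ s, (y : ℂ) ≠ ρ := by
      intro ρ hρ h0
      apply y3
      rw [h0]
      exact (h.zer.mem ρ hρ).2
    have hg : g y ≠ 0 := by
      intro h0
      apply y3
      rw [h.zer.eq, h0, mul_zero]
    have hga : AnalyticAt ℂ g y := h.zer.an y (in_ball (W := W) (by linarith))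
    have hBa := BP_an h.c0 h.ca (h.near y1)
    have hB := BP_ne h.c0 h.ca (h.near y1)
    have e1 : logDeriv (H1 c s g) y = logDeriv g y + logDeriv (BP c s) y := by
      have : H1 c s g = fun z => g z * BP c s z := rfl
      rw [this]
      exact logDeriv_mul (y : ℂ) hg hB hga.differentiableAt hBa.differentiableAt
    have e2 : logDeriv F y = logDeriv (Pf s) y + logDeriv g y := by
      have : F = fun z => Pf s z * g z := funext h.zer.eq
      rw [this]
      exact logDeriv_mul (y : ℂ) (Pf_ne_zero hne) hg (Pf_diff s y) hga.differentiableAt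
    rw [e1, e2, logDeriv_BP h.c0 h.ca (h.near y1) hne]
    ring
  -- the symmetric part
  have hx1 := hxre x rfl
  have hx2 := hxre (-x) (abs_neg x)
  have hFa : AnalyticAt ℂ F (((-x : ℝ)) : ℂ) := h.loc.an _ (in_ball (W := W) (by linarith [hx2.1, hx2.2.1]))
  have hsym : -(starRingEnd ℂ) (logDeriv F ((-x : ℝ) : ℂ)) = logDeriv F x := by
    have e1 := rf_logDeriv (h := F) (z := (x : ℂ)) (by rw [e0]; exact hFa.differentiableAt)
    rw [e0] at e1
    rw [← e1]
    have e2 : rf F =ᶠ[𝓝 (x : ℂ)] fun z => w * F z := by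
      have hU : {z : ℂ | |z.re| < 2 ∧ |z.im| < W} ∈ 𝓝 (x : ℂ) := by
        apply IsOpen.mem_nhds
        · apply IsOpen.inter
          · exact isOpen_lt Complex.continuous_re.abs continuous_const
          · exact isOpen_lt Complex.continuous_im.abs continuous_const
        · constructor
          · simp; linarith
          · simp; linarith
      filter_upwards [hU] with z hz
      exact hs z hz.1.le hz.2.le
    rw [logDeriv_apply, e2.deriv_eq, e2.eq_of_nhds, logDeriv_apply]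
    have e3 : deriv (fun z => w * F z) x = w * deriv F x := by
      simp [deriv_const_mul_field]
    rw [e3, mul_div_mul_left _ _ hw0]
  obtain ⟨k1, -⟩ := h.log_H1 (z := (x : ℂ)) hx1.1 hx1.2.2
  obtain ⟨k2, -⟩ := h.log_H1 (z := ((-x : ℝ) : ℂ)) hx2.1 hx2.2.2
  have k2a := h.H1_an hx2.1 hx2.2.1
  have k3 : rf (H1 c s g) x ≠ 0 := by
    rw [← norm_ne_zero_iff, rf_norm, e0]
    exact norm_ne_zero_iff.2 k2
  have e4 : logDeriv (H2 c s g) x = logDeriv (H1 c s g) x + logDeriv (rf (H1 c s g)) x := by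
    have : H2 c s g = fun z => H1 c s g z * rf (H1 c s g) z := rfl
    rw [this]
    exact logDeriv_mul (x : ℂ) k1 k3 (h.H1_an hx1.1 hx1.2.1).differentiableAt
      (rf_diff (by rw [e0]; exact k2a.differentiableAt))
  rw [e4, rf_logDeriv (by rw [e0]; exact k2a.differentiableAt), e0, hH1 x rfl, hH1 (-x) (abs_neg x), map_sub,
    neg_sub, ← neg_add_eq_sub ((starRingEnd ℂ) (logDeriv F ((-x : ℝ) : ℂ))), hsym]
  have e5 : (s.map fun ρ => Kc c ρ x - (starRingEnd ℂ) (Kc c ρ (-x : ℝ))).sum = (s.map fun ρ => Kc c ρ x).sum -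
      (starRingEnd ℂ) (s.map fun ρ => Kc c ρ (-x : ℝ)).sum := by
    rw [Multiset.sum_map_sub, map_multiset_sum, Multiset.map_map]
    rfl
  rw [e5]
  ring

/-- the error term -/
noncomputable def Er (ε₁ δ L C₁ : ℝ) : ℝ := 32 * ε₁ / δ * L + 176 * C₁ / δ

/-- **The logarithmic derivative is a sum over zeros.** -/
theorem Str.main (h : Str δ A C₁ W L c a n F s g) (hn : n = 2 * A * (1 + W) * L + 4 * C₁) (hb : Big δ A W ε₁)
    {x : ℝ} (hx : |x| ≤ 1 / 2 + δ / 2) (hF : F x ≠ 0) :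
    ‖2 * logDeriv F x - (s.map fun ρ => Kc c ρ x - (starRingEnd ℂ) (Kc c ρ (-x : ℝ))).sum‖ ≤ Er ε₁ δ L C₁ := by
  have hδ := h.δ0
  have hδ1 := h.δ1
  have ha := h.ae
  have hL := h.loc.L1
  have hC := h.loc.C1
  have he0 := hb.e0
  have hW := h.W16
  rw [← h.logDeriv_H2 (by linarith) hF]
  have hsub : ∀ z ∈ closedBall (x : ℂ) (δ / 2), |z.re| ≤ a ∧ |z.im| ≤ 1 := by
    intro z hz
    rw [mem_closedBall, dist_eq_norm] at hz
    have h1 := (Complex.abs_re_le_norm (z - x)).trans hz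
    have h2 := (Complex.abs_im_le_norm (z - x)).trans hz
    simp only [Complex.sub_re, Complex.ofReal_re, Complex.sub_im, Complex.ofReal_im, sub_zero] at h1 h2
    have h1' := abs_le.1 h1
    have hx' := abs_le.1 hx
    constructor
    · rw [abs_le, ha]; constructor <;> linarith
    · linarith
  have hB : 0 ≤ 2 * (ε₁ * L + 5 * C₁) := by positivity
  have hcc := hsub x (mem_closedBall_self (by positivity))
  have k0 := h.two hn hb hcc.1 hcc.2
  have hlg := logDeriv_zero_free (g := H2 c s g) (c := (x : ℂ)) (r := δ / 2) (r1 := δ / 4) (r2 := δ / 8)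
    (B := 2 * (ε₁ * L + 5 * C₁)) (by positivity) (by linarith) (by linarith) hB
    (fun z hz => h.H2_an (hsub z hz).1 (by linarith [(hsub z hz).2]))
    (fun z hz => h.H2_ne (hsub z hz).1 (by linarith [(hsub z hz).2]))
    (fun z hz => by
      have k1 := h.two hn hb (hsub z hz).1 (hsub z hz).2
      have k2 : H2 c s g z ≠ 0 := h.H2_ne (hsub z hz).1 (by linarith [(hsub z hz).2])
      have k3 : H2 c s g x ≠ 0 := h.H2_ne hcc.1 (by linarith [hcc.2])
      have p2 := norm_pos_iff.2 k2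
      have p3 := norm_pos_iff.2 k3
      rw [← Real.log_le_log_iff p2 (by positivity), Real.log_mul (Real.exp_pos _).ne' p3.ne', Real.log_exp]
      linarith [(abs_le.1 k1).2, (abs_le.1 k0).1])
    (z := (x : ℂ)) (mem_closedBall_self (by positivity))
  refine hlg.trans ?_
  have e : 2 * (2 * (ε₁ * L + 5 * C₁) + 1) * (δ / 4) / (δ / 2 - δ / 4) / (δ / 4 - δ / 8) =
      (32 * ε₁ * L + 160 * C₁ + 16) / δ := by
    have : δ / 2 - δ / 4 = δ / 4 := by ring
    rw [this]
    have : δ / 4 - δ / 8 = δ / 8 := by ring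
    rw [this]
    field_simp
    ring
  rw [e]
  unfold Er
  have e2 : 32 * ε₁ / δ * L + 176 * C₁ / δ = (32 * ε₁ * L + 176 * C₁) / δ := by
    field_simp
  rw [e2]
  apply div_le_div_of_nonneg_right _ hδ.le
  linarith

end Pool.Agent.H572.ST
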