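import Pool.Agent.H572.ST.Core2

/-!
# The argument and the logarithm of a completed L-function on the critical strip
-/

set_option autoImplicit false

open Filter Topology Set Metric
open Pool.Agent.H572.OB (sq sq_mul sq_diff)
open H370.Loc (Pf Pf_zero Pf_cons Pf_diff Pf_ne_zero extract logDeriv_zero_free)

namespace Pool.Agent.H572.ST

variable {δ A C₁ W L c a n ε₁ : ℝ} {F g : ℂ → ℂ} {s : Multiset ℂ}

lemma int_sum (s : Multiset ℂ) (f : ℂ → ℝ → ℝ) (α β : ℝ) (hf : ∀ ρ ∈ s, Continuous (f ρ)) :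
    Continuous (fun x => (s.map fun ρ => f ρ x).sum) ∧
    ∫ x in α..β, (s.map fun ρ => f ρ x).sum = (s.map fun ρ => ∫ x in α..β, f ρ x).sum := by
  induction s using Multiset.induction_on with
  | empty => simp; exact continuous_const
  | cons ρ s ih =>
    obtain ⟨h1, h2⟩ := ih fun ρ' h' => hf ρ' (Multiset.mem_cons_of_mem h')
    have h0 := hf ρ (Multiset.mem_cons_self ρ s)
    simp only [Multiset.map_cons, Multiset.sum_cons]
    refine ⟨h0.add h1, ?_⟩
    rw [intervalIntegral.integral_add (h0.intervalIntegrable _ _) (h1.intervalIntegrable _ _), h2]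

lemma sum_le_sum' (s : Multiset ℂ) (f₁ f₂ : ℂ → ℝ) (hf : ∀ ρ ∈ s, f₁ ρ ≤ f₂ ρ) :
    (s.map f₁).sum ≤ (s.map f₂).sum := by
  induction s using Multiset.induction_on with
  | empty => simp
  | cons ρ s ih =>
    have h1 := hf ρ (Multiset.mem_cons_self ρ s)
    have h2 := ih fun ρ' h' => hf ρ' (Multiset.mem_cons_of_mem h')
    simp only [Multiset.map_cons, Multiset.sum_cons]
    linarith

lemma abs_sum_le (s : Multiset ℂ) (f₁ f₂ : ℂ → ℝ) (hf : ∀ ρ ∈ s, |f₁ ρ| ≤ f₂ ρ) :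
    |(s.map f₁).sum| ≤ (s.map f₂).sum := by
  induction s using Multiset.induction_on with
  | empty => simp
  | cons ρ s ih =>
    have h1 := hf ρ (Multiset.mem_cons_self ρ s)
    have h2 := ih fun ρ' h' => hf ρ' (Multiset.mem_cons_of_mem h')
    simp only [Multiset.map_cons, Multiset.sum_cons]
    exact (abs_add_le _ _).trans (add_le_add h1 h2)

lemma sum_re (s : Multiset ℂ) (f : ℂ → ℂ) : (s.map f).sum.re = (s.map fun ρ => (f ρ).re).sum := by
  induction s using Multiset.induction_on with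
  | empty => simp
  | cons ρ s ih => simp only [Multiset.map_cons, Multiset.sum_cons, Complex.add_re, ih]

lemma sum_im (s : Multiset ℂ) (f : ℂ → ℂ) : (s.map f).sum.im = (s.map fun ρ => (f ρ).im).sum := by
  induction s using Multiset.induction_on with
  | empty => simp
  | cons ρ s ih => simp only [Multiset.map_cons, Multiset.sum_cons, Complex.add_im, ih]

lemma sum_mul_right' (s : Multiset ℂ) (f : ℂ → ℝ) (k : ℝ) : (s.map fun ρ => k * f ρ).sum = k * (s.map f).sum :=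
  Multiset.sum_map_mul_left

lemma sin_ne_real {k : ℝ} (hk : k ≠ 0) {ρ : ℂ} (hρ : ρ.im ≠ 0) (x : ℝ) :
    Complex.sin (k * (x - ρ)) ≠ 0 ∧ Complex.cos (k * (x - ρ)) ≠ 0 := by
  have him : ((k : ℂ) * (x - ρ)).im = -(k * ρ.im) := by simp
  have h0 : Real.sinh (((k : ℂ) * (x - ρ)).im) ≠ 0 := by
    rw [him]
    exact Real.sinh_ne_zero.2 (neg_ne_zero.2 (mul_ne_zero hk hρ))
  constructor
  · intro h
    have h3 := normSq_sin ((k : ℂ) * (x - ρ))
    rw [h, map_zero] at h3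
    have : 0 < Real.sinh (((k : ℂ) * (x - ρ)).im) ^ 2 := by positivity
    nlinarith [sq_nonneg (Real.sin (((k : ℂ) * (x - ρ)).re))]
  · intro h
    have h3 := normSq_cos ((k : ℂ) * (x - ρ))
    rw [h, map_zero] at h3
    have : 0 < Real.sinh (((k : ℂ) * (x - ρ)).im) ^ 2 := by positivity
    nlinarith [sq_nonneg (Real.cos (((k : ℂ) * (x - ρ)).re))]

lemma cont_Kc (hc : 0 < c) {ρ : ℂ} (hρ : ρ.im ≠ 0) : Continuous fun x : ℝ => Kc c ρ x := by
  unfold Kc
  refine Continuous.div (by fun_prop) (by fun_prop) fun x => ?_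
  have := (sin_ne_real (k := 2 * c) (by positivity) hρ x).1
  push_cast at this
  exact this

lemma cont_lt (hc : 0 < c) {ρ : ℂ} (hρ : ρ.im ≠ 0) : Continuous fun x : ℝ => lt c ρ x := by
  unfold lt
  refine Continuous.sub (Continuous.log (by fun_prop) fun x => ?_) (Continuous.log (by fun_prop) fun x => ?_)
  · exact norm_ne_zero_iff.2 (sin_ne_real hc.ne' hρ x).2
  · exact norm_ne_zero_iff.2 (sin_ne_real hc.ne' hρ x).1

/-- to the right of the critical strip -/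
lemma Str.right (h : Str δ A C₁ W L c a n F s g) {x : ℝ} (hx : 1 / 2 + δ / 2 ≤ x) (hx1 : x ≤ 1) :
    ‖logDeriv F x - L / 2‖ ≤ 96 * C₁ / δ := by
  have hδ := h.δ0
  have hδ1 := h.δ1
  have hC := h.loc.C1
  have hW := h.W16
  obtain ⟨G, hG⟩ : ∃ G : ℂ → ℂ, G = fun w => F w * Complex.exp (-((L / 2 : ℝ) * w)) := ⟨_, rfl⟩
  have hsub : ∀ z ∈ closedBall (x : ℂ) (δ / 4), 1 / 2 + δ / 4 ≤ z.re ∧ z.re ≤ 2 ∧ |z.im| ≤ 1 := by
    intro z hz
    rw [mem_closedBall, dist_eq_norm] at hz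
    have h1 := (Complex.abs_re_le_norm (z - x)).trans hz
    have h2 := (Complex.abs_im_le_norm (z - x)).trans hz
    simp only [Complex.sub_re, Complex.ofReal_re, Complex.sub_im, Complex.ofReal_im, sub_zero] at h1 h2
    have h1' := abs_le.1 h1
    refine ⟨by linarith, by linarith, by linarith⟩
  have hball : ∀ z ∈ closedBall (x : ℂ) (δ / 4), z ∈ closedBall (2 : ℂ) (2 * W) := by
    intro z hz
    obtain ⟨h1, h2, h3⟩ := hsub z hz
    apply in_ball (W := W)
    rw [abs_of_pos (by linarith)]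
    linarith
  have hFne : ∀ z ∈ closedBall (x : ℂ) (δ / 4), F z ≠ 0 := by
    intro z hz h0
    obtain ⟨h1, h2, h3⟩ := hsub z hz
    have h4 := h.loc.zero z (hball z hz) h0
    rw [abs_of_pos (by linarith)] at h4
    linarith
  have hGn : ∀ z ∈ closedBall (x : ℂ) (δ / 4), |Real.log ‖G z‖| ≤ C₁ := by
    intro z hz
    obtain ⟨h1, h2, h3⟩ := hsub z hz
    have h4 := h.loc.side z (by rw [abs_of_pos (by linarith)]; exact h1) (by rw [abs_of_pos (by linarith)]; exact h2)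
      (by linarith)
    rw [abs_of_pos (by linarith : 0 < z.re)] at h4
    rw [hG]
    simp only
    rw [norm_mul, Real.log_mul (norm_ne_zero_iff.2 (hFne z hz)) (norm_ne_zero_iff.2 (Complex.exp_ne_zero _)),
      Complex.norm_exp, Real.log_exp, Complex.neg_re, Complex.re_ofReal_mul]
    convert h4 using 2
    ring
  have hGa : AnalyticOnNhd ℂ G (closedBall (x : ℂ) (δ / 4)) := by
    intro z hz
    rw [hG]
    exact (h.loc.an z (hball z hz)).mul ((by fun_prop :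
      Differentiable ℂ fun w : ℂ => Complex.exp (-((L / 2 : ℝ) * w))).analyticAt z)
  have hGne : ∀ z ∈ closedBall (x : ℂ) (δ / 4), G z ≠ 0 := by
    intro z hz
    rw [hG]
    exact mul_ne_zero (hFne z hz) (Complex.exp_ne_zero _)
  have hcc : (x : ℂ) ∈ closedBall (x : ℂ) (δ / 4) := mem_closedBall_self (by positivity)
  have hlg := logDeriv_zero_free (g := G) (c := (x : ℂ)) (r := δ / 4) (r1 := δ / 8) (r2 := δ / 16)
    (B := 2 * C₁) (by positivity) (by linarith) (by linarith) (by positivity) hGa hGne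
    (fun z hz => by
      have k1 := hGn z hz
      have k0 := hGn x hcc
      have p2 := norm_pos_iff.2 (hGne z hz)
      have p3 := norm_pos_iff.2 (hGne x hcc)
      rw [← Real.log_le_log_iff p2 (by positivity), Real.log_mul (Real.exp_pos _).ne' p3.ne', Real.log_exp]
      linarith [(abs_le.1 k1).2, (abs_le.1 k0).1])
    (z := (x : ℂ)) (mem_closedBall_self (by positivity))
  have e1 : logDeriv G x = logDeriv F x - L / 2 := by
    rw [hG]
    have e2 : logDeriv (fun w : ℂ => F w * Complex.exp (-((L / 2 : ℝ) * w))) x =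
        logDeriv F x + logDeriv (fun w : ℂ => Complex.exp (-((L / 2 : ℝ) * w))) x :=
      logDeriv_mul (x : ℂ) (hFne x hcc) (Complex.exp_ne_zero _) (h.loc.an x (hball x hcc)).differentiableAt
        (by fun_prop)
    have e3 : logDeriv (fun w : ℂ => Complex.exp (-((L / 2 : ℝ) * w))) x = -((L / 2 : ℝ) : ℂ) := by
      have h0 : HasDerivAt (fun w : ℂ => (((L / 2 : ℝ) : ℂ) * w)) (((L / 2 : ℝ) : ℂ)) x := by
        have := ((hasDerivAt_id (x : ℂ)).const_mul ((L / 2 : ℝ) : ℂ))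
        simpa using this
      have h1 : HasDerivAt (fun w : ℂ => -(((L / 2 : ℝ) : ℂ) * w)) (-((L / 2 : ℝ) : ℂ)) x := h0.neg
      rw [logDeriv_apply, h1.cexp.deriv]
      field_simp
    rw [e2, e3]
    push_cast
    ring
  rw [← e1]
  refine hlg.trans ?_
  have e : 2 * (2 * C₁ + 1) * (δ / 8) / (δ / 4 - δ / 8) / (δ / 8 - δ / 16) = (64 * C₁ + 32) / δ := by
    have : δ / 4 - δ / 8 = δ / 8 := by ring
    rw [this]
    have : δ / 8 - δ / 16 = δ / 16 := by ring
    rw [this]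
    field_simp
    ring
  rw [e]
  apply div_le_div_of_nonneg_right _ hδ.le
  linarith

section
variable (h : Str δ A C₁ W L c a n F s g) (hn : n = 2 * A * (1 + W) * L + 4 * C₁) (hb : Big δ A W ε₁)
  (hr : ∀ x : ℝ, |x| ≤ 1 → F x ≠ 0)

include h hr in
lemma Str.ρ_im {ρ : ℂ} (hρ : ρ ∈ s) : ρ.im ≠ 0 := by
  intro h0
  have h1 := h.ρ_re hρ
  apply hr ρ.re (by linarith)
  have : ((ρ.re : ℝ) : ℂ) = ρ := by
    apply Complex.ext
    · simp
    · simp [h0]
  rw [this]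
  exact (h.zer.mem ρ hρ).2

include h hn hb hr in
lemma Str.main_re {x : ℝ} (hx : |x| ≤ 1 / 2 + δ / 2) :
    |2 * (logDeriv F x).re - (s.map fun ρ => (Kc c ρ x).re - (Kc c ρ (-x : ℝ)).re).sum| ≤ Er ε₁ δ L C₁ := by
  have h1 := h.main hn hb hx (hr x (by linarith [h.δ1]))
  have h2 := (Complex.abs_re_le_norm _).trans h1
  rw [Complex.sub_re, sum_re] at h2
  simpa using h2

include h hn hb hr in
lemma Str.main_im {x : ℝ} (hx : |x| ≤ 1 / 2 + δ / 2) :
    |2 * (logDeriv F x).im - (s.map fun ρ => (Kc c ρ x).im + (Kc c ρ (-x : ℝ)).im).sum| ≤ Er ε₁ δ L C₁ := by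
  have h1 := h.main hn hb hx (hr x (by linarith [h.δ1]))
  have h2 := (Complex.abs_im_le_norm _).trans h1
  rw [Complex.sub_im, sum_im] at h2
  simpa using h2

include h in
lemma Str.x1_hyp {ρ : ℂ} (hρ : ρ ∈ s) : |ρ.re| < 1 / 2 + δ / 2 ∧ 1 / 2 + δ / 2 + |ρ.re| < 2 * a := by
  have h1 := h.ρ_re hρ
  have h2 := h.δ0
  have h3 := h.ae
  constructor <;> linarith

include h hn hb hr in
/-- the sum of the kernels at the edge -/
lemma Str.sumK : (s.map fun ρ => (Kc c ρ ((1 / 2 + δ / 2 : ℝ) : ℂ)).re - (Kc c ρ ((-(1 / 2 + δ / 2) : ℝ) : ℂ)).re).sum ≤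
    L + 192 * C₁ / δ + Er ε₁ δ L C₁ := by
  have hδ := h.δ0
  have h1 := h.main_re hn hb hr (x := 1 / 2 + δ / 2) (by rw [abs_of_pos (by positivity)])
  have h2 := h.right (x := 1 / 2 + δ / 2) le_rfl (by linarith [h.δ1])
  have h3 := (Complex.abs_re_le_norm _).trans h2
  have e : (logDeriv F ((1 / 2 + δ / 2 : ℝ) : ℂ) - L / 2).re = (logDeriv F ((1 / 2 + δ / 2 : ℝ) : ℂ)).re - L / 2 := by
    have : ((L : ℂ) / 2) = ((L / 2 : ℝ) : ℂ) := by push_cast; ring
    rw [Complex.sub_re, this, Complex.ofReal_re]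
  rw [e] at h3
  have h4 := (abs_le.1 h1).1
  have h5 := (abs_le.1 h3).2
  have e2 : 192 * C₁ / δ = 2 * (96 * C₁ / δ) := by ring
  rw [e2]
  linarith

include h hr in
lemma Str.cont_log : ContinuousOn (fun x : ℝ => Real.log ‖F x‖) (Icc (-1) 1) := by
  apply ContinuousOn.log
  · apply ContinuousOn.norm
    intro x hx
    have h1 : AnalyticAt ℂ F (x : ℂ) := h.loc.an x (in_ball (W := W) (by
      have : |(x : ℂ).re| ≤ 1 := by simpa using abs_le.2 hx
      have h2 : |(x : ℂ).im| = 0 := by simp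
      rw [h2]
      linarith [h.W16]))
    exact (h1.continuousAt.comp (f := fun y : ℝ => (y : ℂ)) (x := x)
      Complex.continuous_ofReal.continuousAt).continuousWithinAt
  · intro x hx
    exact norm_ne_zero_iff.2 (hr x (abs_le.2 hx))

include h hr in
lemma Str.cont_LF : ContinuousOn (fun x : ℝ => (logDeriv F x).im) (Icc (-1) 1) := by
  intro x hx
  have h1 : AnalyticAt ℂ F (x : ℂ) := h.loc.an x (in_ball (W := W) (by
      have : |(x : ℂ).re| ≤ 1 := by simpa using abs_le.2 hx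
      have h2 : |(x : ℂ).im| = 0 := by simp
      rw [h2]
      linarith [h.W16]))
  have h2 : AnalyticAt ℂ (logDeriv F) x := h1.deriv.div h1 (hr x (abs_le.2 hx))
  exact (Complex.continuous_im.continuousAt.comp (h2.continuousAt.comp (f := fun y : ℝ => (y : ℂ)) (x := x)
      Complex.continuous_ofReal.continuousAt)).continuousWithinAt

/-- the constant -/
noncomputable def Cn (ε₁ δ C₁ : ℝ) : ℝ := 0 * ε₁ + 0 * δ + 368 * C₁ / δ

lemma int_sym (f : ℝ → ℝ) (hf : Continuous f) (x₁ : ℝ) :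
    ∫ x in (0 : ℝ)..x₁, (f x + f (-x)) = ∫ x in (-x₁)..x₁, f x := by
  have h1 : Continuous fun x => f (-x) := hf.comp continuous_neg
  rw [intervalIntegral.integral_add (hf.intervalIntegrable _ _) (h1.intervalIntegrable _ _),
    intervalIntegral.integral_comp_neg, neg_zero, add_comm]
  exact intervalIntegral.integral_add_adjacent_intervals (hf.intervalIntegrable _ _) (hf.intervalIntegrable _ _)

include h hn hb hr in
/-- **The argument.** -/
theorem Str.arg : |∫ x in (0 : ℝ)..1, (logDeriv F x).im| ≤ (1 / 4 + δ / 2 + 32 * ε₁ / δ) * L + 368 * C₁ / δ := by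
  have hδ := h.δ0
  have hδ1 := h.δ1
  have ha := h.ae
  have ha0 := h.a_pos
  have ha1 := h.a_le
  have hc := h.c0
  have hL := h.loc.L1
  have hC := h.loc.C1
  have he0 := hb.e0
  obtain ⟨x₁, hx₁⟩ : ∃ x₁ : ℝ, x₁ = 1 / 2 + δ / 2 := ⟨_, rfl⟩
  have hx0 : 0 ≤ x₁ := by rw [hx₁]; positivity
  have hx1 : x₁ ≤ 1 := by rw [hx₁]; linarith
  have hcont := h.cont_LF hr
  have i1 : IntervalIntegrable (fun x : ℝ => (logDeriv F x).im) MeasureTheory.volume 0 x₁ := by
    apply ContinuousOn.intervalIntegrable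
    rw [uIcc_of_le hx0]
    exact hcont.mono (Icc_subset_Icc (by norm_num) hx1)
  have i2 : IntervalIntegrable (fun x : ℝ => (logDeriv F x).im) MeasureTheory.volume x₁ 1 := by
    apply ContinuousOn.intervalIntegrable
    rw [uIcc_of_le hx1]
    exact hcont.mono (Icc_subset_Icc (by linarith) le_rfl)
  have hEr : 0 ≤ Er ε₁ δ L C₁ := by unfold Er; positivity
  -- the kernels
  have hK : ∀ ρ ∈ s, Continuous fun x : ℝ => (Kc c ρ x).im := fun ρ hρ =>
    Complex.continuous_im.comp (cont_Kc hc (h.ρ_im hr hρ))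
  have hK2 : ∀ ρ ∈ s, Continuous fun x : ℝ => (Kc c ρ x).im + (Kc c ρ (-x : ℝ)).im := fun ρ hρ =>
    (hK ρ hρ).add ((hK ρ hρ).comp continuous_neg)
  obtain ⟨q1, q2⟩ := int_sum s (fun ρ x => (Kc c ρ x).im + (Kc c ρ (-x : ℝ)).im) 0 x₁ hK2
  have i3 : IntervalIntegrable (fun x : ℝ => (s.map fun ρ => (Kc c ρ x).im + (Kc c ρ (-x : ℝ)).im).sum)
    MeasureTheory.volume 0 x₁ := q1.intervalIntegrable _ _
  have d1 : |∫ x in (0 : ℝ)..x₁, (2 * (logDeriv F x).im -
      (s.map fun ρ => (Kc c ρ x).im + (Kc c ρ (-x : ℝ)).im).sum)| ≤ Er ε₁ δ L C₁ * |x₁ - 0| := by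
    rw [← Real.norm_eq_abs (∫ x in (0 : ℝ)..x₁, _)]
    apply intervalIntegral.norm_integral_le_of_norm_le_const
    intro x hx
    rw [uIoc_of_le hx0] at hx
    rw [Real.norm_eq_abs]
    exact h.main_im hn hb hr (by rw [abs_of_pos hx.1, ← hx₁]; exact hx.2)
  rw [intervalIntegral.integral_sub (i1.const_mul 2) i3, intervalIntegral.integral_const_mul, q2, sub_zero,
    abs_of_nonneg hx0] at d1
  have d2 : |(s.map fun ρ => ∫ x in (0 : ℝ)..x₁, ((Kc c ρ x).im + (Kc c ρ (-x : ℝ)).im)).sum| ≤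
      a * (L + 192 * C₁ / δ + Er ε₁ δ L C₁) := by
    have k1 := abs_sum_le s (fun ρ => ∫ x in (0 : ℝ)..x₁, ((Kc c ρ x).im + (Kc c ρ (-x : ℝ)).im))
      (fun ρ => a * ((Kc c ρ ((1 / 2 + δ / 2 : ℝ) : ℂ)).re - (Kc c ρ ((-(1 / 2 + δ / 2) : ℝ) : ℂ)).re)) (by
        intro ρ hρ
        rw [int_sym (fun x => (Kc c ρ x).im) (hK ρ hρ), hx₁]
        have k2 := abs_int_Kc_im hc (h.ρ_im hr hρ) h.ca (h.x1_hyp hρ).1 (h.x1_hyp hρ).2
        have e1 : Real.pi / (4 * c) = a := by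
          rw [← h.ca]
          field_simp
          ring
        rw [e1] at k2
        exact k2)
    rw [sum_mul_right'] at k1
    refine k1.trans ?_
    have := h.sumK hn hb hr
    gcongr
  have d3 : |∫ x in x₁..1, (logDeriv F x).im| ≤ 96 * C₁ / δ * |1 - x₁| := by
    rw [← Real.norm_eq_abs (∫ x in x₁..1, _)]
    apply intervalIntegral.norm_integral_le_of_norm_le_const
    intro x hx
    rw [uIoc_of_le hx1] at hx
    have k1 := h.right (x := x) (by rw [← hx₁]; exact hx.1.le) hx.2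
    have k2 := (Complex.abs_im_le_norm _).trans k1
    have e : (logDeriv F (x : ℂ) - L / 2).im = (logDeriv F (x : ℂ)).im := by
      have : ((L : ℂ) / 2) = ((L / 2 : ℝ) : ℂ) := by push_cast; ring
      rw [Complex.sub_im, this, Complex.ofReal_im, sub_zero]
    rw [e] at k2
    rw [Real.norm_eq_abs]
    exact k2
  rw [abs_of_nonneg (by linarith : 0 ≤ 1 - x₁)] at d3
  rw [← intervalIntegral.integral_add_adjacent_intervals i1 i2]
  have f1 : Er ε₁ δ L C₁ * x₁ ≤ Er ε₁ δ L C₁ := by nlinarith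
  have f2 : 96 * C₁ / δ * (1 - x₁) ≤ 96 * C₁ / δ := by
    have : 0 ≤ 96 * C₁ / δ := by positivity
    nlinarith
  have f3 : a * Er ε₁ δ L C₁ ≤ Er ε₁ δ L C₁ := by nlinarith
  have f4 : a * (192 * C₁ / δ) ≤ 192 * C₁ / δ := by
    have : 0 ≤ 192 * C₁ / δ := by positivity
    nlinarith
  have f5 : a * L = 1 / 2 * L + δ * L := by rw [ha]; ring
  have f6 : 96 * C₁ / δ = 96 * (C₁ / δ) := by ring
  have f7 : 192 * C₁ / δ = 192 * (C₁ / δ) := by ring
  have f8 : 368 * C₁ / δ = 368 * (C₁ / δ) := by ring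
  have f9 : Er ε₁ δ L C₁ = 32 * ε₁ / δ * L + 176 * (C₁ / δ) := by unfold Er; ring
  have hCd : 0 ≤ C₁ / δ := by positivity
  have g1 := abs_le.1 d1
  have g2 := abs_le.1 d2
  have g3 := abs_le.1 d3
  rw [abs_le]
  constructor <;> nlinarith

include h hn hb hr in
/-- **The logarithm, upper bound.** -/
theorem Str.log_upper : ∫ x in (0 : ℝ)..1, Real.log ‖F x‖ ≤ (5 / 16 + δ + ε₁) * L + 4 * C₁ := by
  have hδ := h.δ0
  have hδ1 := h.δ1
  have ha := h.ae
  have ha0 := h.a_pos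
  have ha1 := h.a_le
  have hc := h.c0
  have hL := h.loc.L1
  have hC := h.loc.C1
  have he0 := hb.e0
  have hW := h.W16
  obtain ⟨x₁, hx₁⟩ : ∃ x₁ : ℝ, x₁ = 1 / 2 + δ / 2 := ⟨_, rfl⟩
  have hx0 : 0 ≤ x₁ := by rw [hx₁]; positivity
  have hx1 : x₁ ≤ 1 := by rw [hx₁]; linarith
  have hcont := h.cont_log hr
  have i1 : IntervalIntegrable (fun x : ℝ => Real.log ‖F x‖) MeasureTheory.volume 0 x₁ := by
    apply ContinuousOn.intervalIntegrable
    rw [uIcc_of_le hx0]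
    exact hcont.mono (Icc_subset_Icc (by norm_num) hx1)
  have i2 : IntervalIntegrable (fun x : ℝ => Real.log ‖F x‖) MeasureTheory.volume x₁ 1 := by
    apply ContinuousOn.intervalIntegrable
    rw [uIcc_of_le hx1]
    exact hcont.mono (Icc_subset_Icc (by linarith) le_rfl)
  rw [← intervalIntegral.integral_add_adjacent_intervals i1 i2]
  have d1 : ∫ x in (0 : ℝ)..x₁, Real.log ‖F x‖ ≤ ∫ x in (0 : ℝ)..x₁, (a * L + (ε₁ * L + 5 * C₁)) / 2 := by
    apply intervalIntegral.integral_mono_on hx0 i1 (by simp)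
    intro x hx
    have hxa : |x| ≤ a := by rw [abs_of_nonneg hx.1]; linarith [hx.2]
    have hFx := hr x (by linarith)
    have hre : |(x : ℂ).re| ≤ a := by simpa using hxa
    have him : |(x : ℂ).im| ≤ 1 := by simp
    have k1 := h.two hn hb hre him
    have k2 := (h.log_H2 hre (by linarith) hFx).2
    have e0 : -(starRingEnd ℂ) (x : ℂ) = ((-x : ℝ) : ℂ) := by simp
    have k3 := sum_nonneg' s (fun ρ => lt c ρ x + lt c ρ (-(starRingEnd ℂ) x)) (by
      intro ρ hρ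
      have h5 := h.ρ_re hρ
      have h6 := h.ρ_im hr hρ
      refine lt_pair_nonneg h.c0 h.ca hre (by linarith) ?_ ?_
      · exact (sin_ne_real hc.ne' h6 x).1
      · rw [e0]; exact (sin_ne_real hc.ne' h6 (-x)).1)
    have k4 := (abs_le.1 k1).2
    linarith
  have d2 : ∫ x in x₁..1, Real.log ‖F x‖ ≤ ∫ x in x₁..1, (x / 2 * L + C₁) := by
    apply intervalIntegral.integral_mono_on hx1 i2 (by apply Continuous.intervalIntegrable; fun_prop)
    intro x hx
    have hx0' : 0 ≤ x := hx0.trans hx.1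
    have k1 := h.loc.side x (by simp only [Complex.ofReal_re]; rw [abs_of_nonneg hx0']; linarith [hx.1])
      (by simp only [Complex.ofReal_re]; rw [abs_of_nonneg hx0']; linarith [hx.2]) (by simp; linarith)
    simp only [Complex.ofReal_re] at k1
    rw [abs_of_nonneg hx0'] at k1
    linarith [(abs_le.1 k1).2]
  have e1 : ∫ x in (0 : ℝ)..x₁, (a * L + (ε₁ * L + 5 * C₁)) / 2 = x₁ * ((a * L + (ε₁ * L + 5 * C₁)) / 2) := by
    simp
    ring
  have e2 : ∫ x in x₁..1, (x / 2 * L + C₁) = (1 - x₁ ^ 2) / 4 * L + (1 - x₁) * C₁ := by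
    rw [intervalIntegral.integral_add (by apply Continuous.intervalIntegrable; fun_prop) (by simp)]
    have : ∫ x in x₁..1, x / 2 * L = (1 - x₁ ^ 2) / 4 * L := by
      rw [intervalIntegral.integral_mul_const, intervalIntegral.integral_div, integral_id]
      ring
    rw [this]
    simp
  rw [e1] at d1
  rw [e2] at d2
  have f1 : x₁ * ((ε₁ * L + 5 * C₁) / 2) ≤ (ε₁ * L + 5 * C₁) / 2 := by
    have : 0 ≤ (ε₁ * L + 5 * C₁) / 2 := by positivity
    nlinarith
  have f2 : (1 - x₁) * C₁ ≤ C₁ := by nlinarith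
  have f3 : x₁ * (a * L / 2) + (1 - x₁ ^ 2) / 4 * L ≤ (5 / 16 + δ) * L := by
    have : x₁ * (a / 2) + (1 - x₁ ^ 2) / 4 ≤ 5 / 16 + δ := by
      rw [ha, hx₁]
      nlinarith
    nlinarith
  have f4 : 0 ≤ ε₁ * L := by positivity
  nlinarith

include h hn hb hr in
/-- **The logarithm, lower bound.** -/
theorem Str.log_lower :
    (5 / 16 - I2 / (2 * Real.pi ^ 2) * (2 * a) ^ 2 - δ - (1 + I2) * (64 * ε₁ / δ)) * L -
      (1 + I2) * (400 * C₁ / δ) ≤ ∫ x in (0 : ℝ)..1, Real.log ‖F x‖ := by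
  have hδ := h.δ0
  have hδ1 := h.δ1
  have ha := h.ae
  have ha0 := h.a_pos
  have ha1 := h.a_le
  have hc := h.c0
  have hL := h.loc.L1
  have hC := h.loc.C1
  have he0 := hb.e0
  have hW := h.W16
  have hI := I2_nonneg
  obtain ⟨x₁, hx₁⟩ : ∃ x₁ : ℝ, x₁ = 1 / 2 + δ / 2 := ⟨_, rfl⟩
  have hx0 : 0 ≤ x₁ := by rw [hx₁]; positivity
  have hx1 : x₁ ≤ 1 := by rw [hx₁]; linarith
  have hcont := h.cont_log hr
  have i1 : IntervalIntegrable (fun x : ℝ => Real.log ‖F x‖) MeasureTheory.volume 0 x₁ := by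
    apply ContinuousOn.intervalIntegrable
    rw [uIcc_of_le hx0]
    exact hcont.mono (Icc_subset_Icc (by norm_num) hx1)
  have i2 : IntervalIntegrable (fun x : ℝ => Real.log ‖F x‖) MeasureTheory.volume x₁ 1 := by
    apply ContinuousOn.intervalIntegrable
    rw [uIcc_of_le hx1]
    exact hcont.mono (Icc_subset_Icc (by linarith) le_rfl)
  rw [← intervalIntegral.integral_add_adjacent_intervals i1 i2]
  have hK : ∀ ρ ∈ s, Continuous fun x : ℝ => lt c ρ x := fun ρ hρ => cont_lt hc (h.ρ_im hr hρ)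
  have hK2 : ∀ ρ ∈ s, Continuous fun x : ℝ => lt c ρ x + lt c ρ (-x : ℝ) := fun ρ hρ =>
    (hK ρ hρ).add ((hK ρ hρ).comp continuous_neg)
  obtain ⟨q1, q2⟩ := int_sum s (fun ρ x => lt c ρ x + lt c ρ (-x : ℝ)) 0 x₁ hK2
  have i3 : IntervalIntegrable (fun x : ℝ => (s.map fun ρ => lt c ρ x + lt c ρ (-x : ℝ)).sum)
    MeasureTheory.volume 0 x₁ := q1.intervalIntegrable _ _
  have d1 : ∫ x in (0 : ℝ)..x₁, (a * L - (ε₁ * L + 5 * C₁) - (s.map fun ρ => lt c ρ x + lt c ρ (-x : ℝ)).sum) / 2 ≤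
      ∫ x in (0 : ℝ)..x₁, Real.log ‖F x‖ := by
    apply intervalIntegral.integral_mono_on hx0 ((((intervalIntegrable_const).sub i3)).div_const 2) i1
    intro x hx
    have hxa : |x| ≤ a := by rw [abs_of_nonneg hx.1]; linarith [hx.2]
    have hFx := hr x (by linarith)
    have hre : |(x : ℂ).re| ≤ a := by simpa using hxa
    have him : |(x : ℂ).im| ≤ 1 := by simp
    have k1 := h.two hn hb hre him
    have k2 := (h.log_H2 hre (by linarith) hFx).2
    have e0 : -(starRingEnd ℂ) (x : ℂ) = ((-x : ℝ) : ℂ) := by simp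
    rw [e0] at k2
    have k4 := (abs_le.1 k1).1
    linarith
  rw [intervalIntegral.integral_div, intervalIntegral.integral_sub intervalIntegrable_const i3, q2] at d1
  have d2 : ∫ x in x₁..1, (x / 2 * L - C₁) ≤ ∫ x in x₁..1, Real.log ‖F x‖ := by
    apply intervalIntegral.integral_mono_on hx1 (by apply Continuous.intervalIntegrable; fun_prop) i2
    intro x hx
    have hx0' : 0 ≤ x := hx0.trans hx.1
    have k1 := h.loc.side x (by simp only [Complex.ofReal_re]; rw [abs_of_nonneg hx0']; linarith [hx.1])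
      (by simp only [Complex.ofReal_re]; rw [abs_of_nonneg hx0']; linarith [hx.2]) (by simp; linarith)
    simp only [Complex.ofReal_re] at k1
    rw [abs_of_nonneg hx0'] at k1
    linarith [(abs_le.1 k1).1]
  have e1 : ∫ x in (0 : ℝ)..x₁, (a * L - (ε₁ * L + 5 * C₁)) = x₁ * (a * L - (ε₁ * L + 5 * C₁)) := by
    simp
    ring
  have e2 : ∫ x in x₁..1, (x / 2 * L - C₁) = (1 - x₁ ^ 2) / 4 * L - (1 - x₁) * C₁ := by
    rw [intervalIntegral.integral_sub (by apply Continuous.intervalIntegrable; fun_prop) (by simp)]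
    have : ∫ x in x₁..1, x / 2 * L = (1 - x₁ ^ 2) / 4 * L := by
      rw [intervalIntegral.integral_mul_const, intervalIntegral.integral_div, integral_id]
      ring
    rw [this]
    simp
  have hI2c : I2 / (4 * c ^ 2) = I2 / Real.pi ^ 2 * (2 * a) ^ 2 := by
    rw [← h.ca]
    field_simp
    ring
  have d3 : (s.map fun ρ => ∫ x in (0 : ℝ)..x₁, (lt c ρ x + lt c ρ (-x : ℝ))).sum ≤
      I2 / Real.pi ^ 2 * (2 * a) ^ 2 * (L + 192 * C₁ / δ + Er ε₁ δ L C₁) := by
    have k1 := sum_le_sum' s (fun ρ => ∫ x in (0 : ℝ)..x₁, (lt c ρ x + lt c ρ (-x : ℝ)))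
      (fun ρ => I2 / (4 * c ^ 2) * ((Kc c ρ ((1 / 2 + δ / 2 : ℝ) : ℂ)).re - (Kc c ρ ((-(1 / 2 + δ / 2) : ℝ) : ℂ)).re)) (by
        intro ρ hρ
        rw [int_sym (fun x => lt c ρ x) (hK ρ hρ), hx₁]
        exact int_lt_le hc (h.ρ_im hr hρ) h.ca (h.x1_hyp hρ).1 (h.x1_hyp hρ).2)
    rw [sum_mul_right', hI2c] at k1
    refine k1.trans ?_
    have := h.sumK hn hb hr
    gcongr
  rw [e1] at d1
  rw [e2] at d2
  have hpi : 9 ≤ Real.pi ^ 2 := by nlinarith [Real.pi_gt_three]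
  have f0 : I2 / Real.pi ^ 2 * (2 * a) ^ 2 ≤ I2 := by
    rw [div_mul_eq_mul_div, div_le_iff₀ (by positivity)]
    have : (2 * a) ^ 2 ≤ 9 := by nlinarith
    nlinarith
  have hEr : 0 ≤ Er ε₁ δ L C₁ := by unfold Er; positivity
  have f1 : I2 / Real.pi ^ 2 * (2 * a) ^ 2 * (192 * C₁ / δ + Er ε₁ δ L C₁) ≤ I2 * (192 * C₁ / δ + Er ε₁ δ L C₁) := by
    have : 0 ≤ 192 * C₁ / δ + Er ε₁ δ L C₁ := by positivity
    gcongr
  have f2 : x₁ * ((ε₁ * L + 5 * C₁) / 2) ≤ (ε₁ * L + 5 * C₁) / 2 := by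
    have : 0 ≤ (ε₁ * L + 5 * C₁) / 2 := by positivity
    nlinarith
  have f3 : (1 - x₁) * C₁ ≤ C₁ := by nlinarith
  have f4 : (5 / 16 - δ) * L ≤ x₁ * (a * L / 2) + (1 - x₁ ^ 2) / 4 * L := by
    have : 5 / 16 - δ ≤ x₁ * (a / 2) + (1 - x₁ ^ 2) / 4 := by
      rw [ha, hx₁]
      nlinarith
    nlinarith
  have f9 : Er ε₁ δ L C₁ = 32 * (ε₁ / δ * L) + 176 * (C₁ / δ) := by unfold Er; ring
  have f6 : 192 * C₁ / δ = 192 * (C₁ / δ) := by ring
  have f7 : 400 * C₁ / δ = 400 * (C₁ / δ) := by ring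
  have f8 : 64 * ε₁ / δ * L = 64 * (ε₁ / δ * L) := by ring
  have hCd : 8 * C₁ ≤ C₁ / δ := by
    rw [le_div_iff₀ hδ]
    nlinarith
  have hed : 8 * (ε₁ * L) ≤ ε₁ / δ * L := by
    have : 8 * ε₁ ≤ ε₁ / δ := by
      rw [le_div_iff₀ hδ]
      nlinarith
    nlinarith
  have g0 : I2 / (2 * Real.pi ^ 2) * (2 * a) ^ 2 = I2 / Real.pi ^ 2 * (2 * a) ^ 2 / 2 := by
    field_simp
  obtain ⟨κ, hκ⟩ : ∃ κ : ℝ, κ = I2 / Real.pi ^ 2 * (2 * a) ^ 2 := ⟨_, rfl⟩
  rw [g0, ← hκ, f7]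
  rw [← hκ] at f1 d3
  have hIC : 0 ≤ I2 * (C₁ / δ) := by positivity
  have hIe : 0 ≤ I2 * (ε₁ / δ * L) := by positivity
  have g1 : (5 / 16 - κ / 2 - δ - (1 + I2) * (64 * ε₁ / δ)) * L - (1 + I2) * (400 * (C₁ / δ)) =
      (5 / 16 - δ) * L - κ / 2 * L - (64 * (ε₁ / δ * L) + 64 * (I2 * (ε₁ / δ * L))) -
        (400 * (C₁ / δ) + 400 * (I2 * (C₁ / δ))) := by ring
  rw [g1]
  rw [f6, f9] at f1 d3
  have g2 : I2 * (192 * (C₁ / δ) + (32 * (ε₁ / δ * L) + 176 * (C₁ / δ))) =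
      368 * (I2 * (C₁ / δ)) + 32 * (I2 * (ε₁ / δ * L)) := by ring
  rw [g2] at f1
  have g3 : κ * (L + 192 * (C₁ / δ) + (32 * (ε₁ / δ * L) + 176 * (C₁ / δ))) =
      κ * L + κ * (192 * (C₁ / δ) + (32 * (ε₁ / δ * L) + 176 * (C₁ / δ))) := by ring
  rw [g3] at d3
  have g4 : x₁ * (a * L - (ε₁ * L + 5 * C₁)) = 2 * (x₁ * (a * L / 2)) - 2 * (x₁ * ((ε₁ * L + 5 * C₁) / 2)) := by ring
  rw [g4] at d1
  linarith

end

end Pool.Agent.H572.ST
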