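import Pool.Agent.H572.ST.Rect
import Pool.Graph.R_seed8.H370R2.Local

/-!
# Products of cotangents: the factors of the zeros in a strip
-/

set_option autoImplicit false

open Filter Topology Set Metric
open Pool.Agent.H572.OB (sq sq_mul sq_diff)
open H370.Loc (Pf Pf_zero Pf_cons Pf_diff Pf_ne_zero)

namespace Pool.Agent.H572.ST

/-- `h ↦ conj (h (-conj z))` -/
noncomputable def rf (h : ℂ → ℂ) (z : ℂ) : ℂ := (starRingEnd ℂ) (h (-(starRingEnd ℂ) z))

lemma rf_hasDeriv {h : ℂ → ℂ} {h' z : ℂ} (hh : HasDerivAt h h' (-(starRingEnd ℂ) z)) :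
    HasDerivAt (rf h) (-(starRingEnd ℂ) h') z := by
  have h1 : HasDerivAt (fun w => h (-w)) (-h') ((starRingEnd ℂ) z) := by
    exact (hh.comp ((starRingEnd ℂ) z) (hasDerivAt_neg ((starRingEnd ℂ) z))).congr_deriv (by ring)
  have h2 := h1.conj_conj
  simp only [map_neg, Complex.conj_conj] at h2
  exact h2

lemma rf_diff {h : ℂ → ℂ} {z : ℂ} (hh : DifferentiableAt ℂ h (-(starRingEnd ℂ) z)) : DifferentiableAt ℂ (rf h) z :=
  (rf_hasDeriv hh.hasDerivAt).differentiableAt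

lemma rf_analytic {h : ℂ → ℂ} {z : ℂ} (hh : AnalyticAt ℂ h (-(starRingEnd ℂ) z)) : AnalyticAt ℂ (rf h) z := by
  rw [Complex.analyticAt_iff_eventually_differentiableAt] at hh ⊢
  have hc : Continuous fun z : ℂ => -(starRingEnd ℂ) z := Complex.continuous_conj.neg
  filter_upwards [hc.continuousAt.eventually hh] with w hw
  exact rf_diff hw

lemma rf_logDeriv {h : ℂ → ℂ} {z : ℂ} (hh : DifferentiableAt ℂ h (-(starRingEnd ℂ) z)) :
    logDeriv (rf h) z = -(starRingEnd ℂ) (logDeriv h (-(starRingEnd ℂ) z)) := by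
  rw [logDeriv_apply, logDeriv_apply, (rf_hasDeriv hh.hasDerivAt).deriv]
  unfold rf
  rw [map_div₀, neg_div]

lemma rf_norm (h : ℂ → ℂ) (z : ℂ) : ‖rf h z‖ = ‖h (-(starRingEnd ℂ) z)‖ := by
  unfold rf
  rw [Complex.norm_conj]

/-- the factor of a zero -/
noncomputable def Bl (c : ℝ) (ρ z : ℂ) : ℂ := Complex.cos (c * (z - ρ)) / sq c (z - ρ)

/-- the product of the factors -/
noncomputable def BP (c : ℝ) (s : Multiset ℂ) (z : ℂ) : ℂ := (s.map fun ρ => Bl c ρ z).prod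

lemma BP_zero (c : ℝ) : BP c 0 = fun _ => 1 := by
  funext z
  simp [BP]

lemma BP_cons (c : ℝ) (ρ : ℂ) (s : Multiset ℂ) : BP c (ρ ::ₘ s) = fun z => Bl c ρ z * BP c s z := by
  funext z
  simp [BP]

/-- `z` is close to `ρ` horizontally -/
lemma sin_cos_ne {c a : ℝ} {w : ℂ} (hc : 0 < c) (hca : 2 * c * (2 * a) = Real.pi) (hw : |w.re| < 2 * a) :
    sq c w ≠ 0 ∧ Complex.cos (c * w) ≠ 0 := by
  have hcw : |c * w.re| < Real.pi / 2 := by
    rw [abs_mul, abs_of_pos hc]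
    have : c * |w.re| < c * (2 * a) := by gcongr
    linarith
  have h1 := abs_lt.1 hcw
  have hre : ((c : ℂ) * w).re = c * w.re := by simp
  have him : ((c : ℂ) * w).im = c * w.im := by simp
  constructor
  · intro h
    rcases eq_or_ne w 0 with h0 | h0
    · rw [h0, Pool.Agent.H572.OB.sq_zero] at h
      exact hc.ne' (by exact_mod_cast h)
    · have h2 := sq_mul c w
      rw [h, mul_zero] at h2
      have h3 := normSq_sin (c * w)
      rw [← h2, map_zero, hre, him] at h3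
      have h4 : Real.sinh (c * w.im) = 0 := by nlinarith [sq_nonneg (Real.sin (c * w.re)), sq_nonneg (Real.sinh (c * w.im))]
      have h5 : Real.sin (c * w.re) = 0 := by nlinarith [sq_nonneg (Real.sin (c * w.re)), sq_nonneg (Real.sinh (c * w.im))]
      rw [Real.sinh_eq_zero] at h4
      have h6 : c * w.re = 0 := (Real.sin_eq_zero_iff_of_lt_of_lt (by linarith [Real.pi_pos]) (by linarith [Real.pi_pos])).1 h5
      apply h0
      apply Complex.ext
      · simpa [hc.ne'] using h6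
      · simpa [hc.ne'] using h4
  · intro h
    have h3 := normSq_cos (c * w)
    rw [h, map_zero, hre, him] at h3
    have h5 : 0 < Real.cos (c * w.re) := Real.cos_pos_of_mem_Ioo ⟨by linarith, by linarith⟩
    nlinarith [sq_nonneg (Real.sinh (c * w.im)), mul_pos h5 h5]

section
variable {c a : ℝ} (hc : 0 < c) (hca : 2 * c * (2 * a) = Real.pi)
include hc hca

lemma Bl_an {ρ z : ℂ} (h : |z.re - ρ.re| < 2 * a) : AnalyticAt ℂ (Bl c ρ) z := by
  have h1 := (sin_cos_ne hc hca (w := z - ρ) (by simpa using h)).1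
  unfold Bl
  refine AnalyticAt.div ?_ ?_ h1
  · exact (Complex.differentiable_cos.comp (by fun_prop : Differentiable ℂ fun z : ℂ => (c : ℂ) * (z - ρ))).analyticAt z
  · exact ((sq_diff c).comp (by fun_prop : Differentiable ℂ fun z : ℂ => z - ρ)).analyticAt z

lemma Bl_ne {ρ z : ℂ} (h : |z.re - ρ.re| < 2 * a) : Bl c ρ z ≠ 0 := by
  have h1 := sin_cos_ne hc hca (w := z - ρ) (by simpa using h)
  exact div_ne_zero h1.2 h1.1

lemma sin_ne {ρ z : ℂ} (h : |z.re - ρ.re| < 2 * a) (hz : z ≠ ρ) : Complex.sin (c * (z - ρ)) ≠ 0 := by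
  rw [← sq_mul]
  exact mul_ne_zero (sub_ne_zero.2 hz) (sin_cos_ne hc hca (w := z - ρ) (by simpa using h)).1

lemma log_Bl {ρ z : ℂ} (h : |z.re - ρ.re| < 2 * a) (hz : z ≠ ρ) :
    Real.log ‖Bl c ρ z‖ = Real.log ‖z - ρ‖ + lt c ρ z := by
  have h1 := sin_cos_ne hc hca (w := z - ρ) (by simpa using h)
  have h2 : sq c (z - ρ) ≠ 0 := h1.1
  have h3 : ‖Complex.sin (c * (z - ρ))‖ = ‖z - ρ‖ * ‖sq c (z - ρ)‖ := by rw [← sq_mul, norm_mul]
  unfold Bl lt
  rw [h3, norm_div, Real.log_div (norm_ne_zero_iff.2 h1.2) (norm_ne_zero_iff.2 h2),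
    Real.log_mul (norm_ne_zero_iff.2 (sub_ne_zero.2 hz)) (norm_ne_zero_iff.2 h2)]
  ring

lemma logDeriv_Bl {ρ z : ℂ} (h : |z.re - ρ.re| < 2 * a) (hz : z ≠ ρ) :
    logDeriv (Bl c ρ) z = 1 / (z - ρ) - Kc c ρ z := by
  have hsin := sin_ne hc hca h hz
  have hcos := (sin_cos_ne hc hca (w := z - ρ) (by simpa using h)).2
  have hev : Bl c ρ =ᶠ[𝓝 z] fun w => (w - ρ) * (Complex.cos (c * (w - ρ)) / Complex.sin (c * (w - ρ))) := by
    filter_upwards [isOpen_ne.mem_nhds hz] with w hw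
    have hw' : w - ρ ≠ 0 := sub_ne_zero.2 hw
    unfold Bl
    rw [← sq_mul]
    field_simp
  have hl : HasDerivAt (fun w : ℂ => (c : ℂ) * (w - ρ)) c z := by
    have := ((hasDerivAt_id z).sub_const ρ).const_mul (c : ℂ)
    simpa using this
  have hd1 : HasDerivAt (fun w => Complex.cos (c * (w - ρ))) (-Complex.sin (c * (z - ρ)) * c) z := hl.ccos
  have hd2 : HasDerivAt (fun w => Complex.sin (c * (w - ρ))) (Complex.cos (c * (z - ρ)) * c) z := hl.csin
  have hd3 := ((hasDerivAt_id z).sub_const ρ).mul (hd1.div hd2 hsin)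
  have hd : HasDerivAt (Bl c ρ) (1 * (Complex.cos (c * (z - ρ)) / Complex.sin (c * (z - ρ))) +
      (z - ρ) * ((-Complex.sin (c * (z - ρ)) * c * Complex.sin (c * (z - ρ)) - Complex.cos (c * (z - ρ)) *
        (Complex.cos (c * (z - ρ)) * c)) / Complex.sin (c * (z - ρ)) ^ 2)) z := by
    refine HasDerivAt.congr_of_eventuallyEq ?_ hev
    exact hd3
  rw [logDeriv_apply, hd.deriv, hev.eq_of_nhds]
  have hz' : z - ρ ≠ 0 := sub_ne_zero.2 hz
  unfold Kc
  have h2 : Complex.sin (2 * c * (z - ρ)) = 2 * Complex.sin (c * (z - ρ)) * Complex.cos (c * (z - ρ)) := by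
    rw [← Complex.sin_two_mul]; congr 1; ring
  rw [h2]
  have h3 := Complex.sin_sq_add_cos_sq (c * (z - ρ))
  obtain ⟨S, hS⟩ : ∃ S : ℂ, S = Complex.sin (c * (z - ρ)) := ⟨_, rfl⟩
  obtain ⟨C, hC⟩ : ∃ C : ℂ, C = Complex.cos (c * (z - ρ)) := ⟨_, rfl⟩
  rw [← hS, ← hC] at h3 ⊢
  rw [← hS] at hsin
  rw [← hC] at hcos
  have h4 : -S * (c : ℂ) * S - C * (C * c) = -c := by linear_combination (-(c : ℂ)) * h3
  rw [h4]
  field_simp
  ring

lemma BP_an {s : Multiset ℂ} {z : ℂ} (h : ∀ ρ ∈ s, |z.re - ρ.re| < 2 * a) : AnalyticAt ℂ (BP c s) z := by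
  induction s using Multiset.induction_on with
  | empty => rw [BP_zero]; exact analyticAt_const
  | cons ρ s ih =>
    rw [BP_cons]
    exact (Bl_an hc hca (h ρ (Multiset.mem_cons_self ρ s))).mul (ih fun ρ' h' => h ρ' (Multiset.mem_cons_of_mem h'))

lemma BP_ne {s : Multiset ℂ} {z : ℂ} (h : ∀ ρ ∈ s, |z.re - ρ.re| < 2 * a) : BP c s z ≠ 0 := by
  induction s using Multiset.induction_on with
  | empty => rw [BP_zero]; exact one_ne_zero
  | cons ρ s ih =>
    rw [BP_cons]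
    exact mul_ne_zero (Bl_ne hc hca (h ρ (Multiset.mem_cons_self ρ s))) (ih fun ρ' h' => h ρ' (Multiset.mem_cons_of_mem h'))

lemma log_BP {s : Multiset ℂ} {z : ℂ} (h : ∀ ρ ∈ s, |z.re - ρ.re| < 2 * a) (hz : ∀ ρ ∈ s, z ≠ ρ) :
    Real.log ‖BP c s z‖ = Real.log ‖Pf s z‖ + (s.map fun ρ => lt c ρ z).sum := by
  induction s using Multiset.induction_on with
  | empty => simp [BP_zero, Pf_zero]
  | cons ρ s ih =>
    have h' : ∀ ρ' ∈ s, |z.re - ρ'.re| < 2 * a := fun ρ' h' => h ρ' (Multiset.mem_cons_of_mem h')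
    have hz' : ∀ ρ' ∈ s, z ≠ ρ' := fun ρ' h' => hz ρ' (Multiset.mem_cons_of_mem h')
    have h1 := h ρ (Multiset.mem_cons_self ρ s)
    have hz1 := hz ρ (Multiset.mem_cons_self ρ s)
    rw [BP_cons, Pf_cons, Multiset.map_cons, Multiset.sum_cons]
    simp only
    rw [norm_mul, norm_mul, Real.log_mul (norm_ne_zero_iff.2 (Bl_ne hc hca h1)) (norm_ne_zero_iff.2 (BP_ne hc hca h')),
      Real.log_mul (norm_ne_zero_iff.2 (sub_ne_zero.2 hz1)) (norm_ne_zero_iff.2 (Pf_ne_zero hz')), ih h' hz',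
      log_Bl hc hca h1 hz1]
    ring

lemma logDeriv_BP {s : Multiset ℂ} {z : ℂ} (h : ∀ ρ ∈ s, |z.re - ρ.re| < 2 * a) (hz : ∀ ρ ∈ s, z ≠ ρ) :
    logDeriv (BP c s) z = logDeriv (Pf s) z - (s.map fun ρ => Kc c ρ z).sum := by
  induction s using Multiset.induction_on with
  | empty =>
    have : Pf 0 = fun _ => (1 : ℂ) := funext Pf_zero
    rw [BP_zero, this]
    simp
  | cons ρ s ih =>
    have h' : ∀ ρ' ∈ s, |z.re - ρ'.re| < 2 * a := fun ρ' h' => h ρ' (Multiset.mem_cons_of_mem h')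
    have hz' : ∀ ρ' ∈ s, z ≠ ρ' := fun ρ' h' => hz ρ' (Multiset.mem_cons_of_mem h')
    have h1 := h ρ (Multiset.mem_cons_self ρ s)
    have hz1 := hz ρ (Multiset.mem_cons_self ρ s)
    have e0 : Pf (ρ ::ₘ s) = fun z => (z - ρ) * Pf s z := funext (Pf_cons ρ s)
    have e1 : logDeriv (fun z => (z - ρ) * Pf s z) z = logDeriv (fun z => z - ρ) z + logDeriv (Pf s) z :=
      logDeriv_mul z (sub_ne_zero.2 hz1) (Pf_ne_zero hz') (differentiableAt_id.sub_const ρ) (Pf_diff s z)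
    have e2 : logDeriv (fun z => z - ρ) z = 1 / (z - ρ) := by
      rw [logDeriv_apply]
      congr 1
      simp
    have e3 : logDeriv (fun z => Bl c ρ z * BP c s z) z = logDeriv (Bl c ρ) z + logDeriv (BP c s) z :=
      logDeriv_mul z (Bl_ne hc hca h1) (BP_ne hc hca h') (Bl_an hc hca h1).differentiableAt
        (BP_an hc hca h').differentiableAt
    rw [BP_cons, e0, e3, e1, e2, Multiset.map_cons, Multiset.sum_cons, ih h' hz', logDeriv_Bl hc hca h1 hz1]
    ring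

end

/-- formula without restriction -/
lemma lt_eq (c : ℝ) (ρ z : ℂ) : lt c ρ z =
    (Real.log (Real.cos (c * (z.re - ρ.re)) ^ 2 + Real.sinh (c * (z.im - ρ.im)) ^ 2) -
      Real.log (Real.sin (c * (z.re - ρ.re)) ^ 2 + Real.sinh (c * (z.im - ρ.im)) ^ 2)) / 2 := by
  unfold lt
  rw [log_norm_eq, log_norm_eq, normSq_cos, normSq_sin]
  have e1 : ((c : ℂ) * (z - ρ)).re = c * (z.re - ρ.re) := by simp
  have e2 : ((c : ℂ) * (z - ρ)).im = c * (z.im - ρ.im) := by simp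
  rw [e1, e2]
  ring

/-- on the edge of the strip the pair has absolute value `1` -/
lemma lt_pair_edge {c a : ℝ} (hca : 2 * c * (2 * a) = Real.pi) {ρ z : ℂ} (hz : |z.re| = a) :
    lt c ρ z + lt c ρ (-(starRingEnd ℂ) z) = 0 := by
  rw [lt_eq, lt_eq]
  simp only [Complex.neg_re, Complex.conj_re, Complex.neg_im, Complex.conj_im, neg_neg]
  have hz1 : z.re = a ∨ z.re = -a := by
    rcases abs_choice z.re with h | h
    · left; rw [← hz, h]
    · right; rw [← hz, h]; ring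
  have h1 : ∀ u : ℝ, u = Real.pi / 2 + c * (-a - ρ.re) → u = c * (a - ρ.re) := by
    intro u hu
    rw [hu]
    linarith
  have e1 : c * (a - ρ.re) = Real.pi / 2 + c * (-a - ρ.re) := by linarith
  have s1 : Real.sin (c * (a - ρ.re)) = Real.cos (c * (-a - ρ.re)) := by
    rw [e1, add_comm, Real.sin_add_pi_div_two]
  have s2 : Real.cos (c * (a - ρ.re)) = -Real.sin (c * (-a - ρ.re)) := by
    rw [e1, add_comm, Real.cos_add_pi_div_two]
  rcases hz1 with h | h
  · rw [h, s1, s2, neg_sq]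
    ring
  · rw [h, neg_neg, s1, s2, neg_sq]
    ring

/-- inside the strip the pair is at most `1` in absolute value -/
lemma lt_pair_nonneg {c a : ℝ} (hc : 0 < c) (hca : 2 * c * (2 * a) = Real.pi) {ρ z : ℂ} (hz : |z.re| ≤ a)
    (hρ : |ρ.re| ≤ a) (h1 : Complex.sin (c * (z - ρ)) ≠ 0)
    (h2 : Complex.sin (c * (-(starRingEnd ℂ) z - ρ)) ≠ 0) :
    0 ≤ lt c ρ z + lt c ρ (-(starRingEnd ℂ) z) := by
  have p1 : 0 < Real.sin (c * (z.re - ρ.re)) ^ 2 + Real.sinh (c * (z.im - ρ.im)) ^ 2 := by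
    have h := Complex.normSq_pos.2 h1
    rw [normSq_sin] at h
    simpa using h
  have p2 : 0 < Real.sin (c * (-z.re - ρ.re)) ^ 2 + Real.sinh (c * (z.im - ρ.im)) ^ 2 := by
    have h := Complex.normSq_pos.2 h2
    rw [normSq_sin] at h
    simpa using h
  rw [lt_eq, lt_eq]
  simp only [Complex.neg_re, Complex.conj_re, Complex.neg_im, Complex.conj_im, neg_neg]
  obtain ⟨α, hα⟩ : ∃ α : ℝ, α = c * (z.re - ρ.re) := ⟨_, rfl⟩
  obtain ⟨β, hβ⟩ : ∃ β : ℝ, β = c * (-z.re - ρ.re) := ⟨_, rfl⟩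
  obtain ⟨S, hS⟩ : ∃ S : ℝ, S = Real.sinh (c * (z.im - ρ.im)) ^ 2 := ⟨_, rfl⟩
  rw [← hα, ← hS] at p1
  rw [← hβ, ← hS] at p2
  rw [← hα, ← hβ, ← hS]
  have hS0 : 0 ≤ S := by rw [hS]; positivity
  have hx : |2 * c * z.re| ≤ Real.pi / 2 := by
    rw [abs_mul, abs_of_pos (by positivity : 0 < 2 * c)]
    have : 2 * c * |z.re| ≤ 2 * c * a := by gcongr
    linarith
  have hy : |2 * c * ρ.re| ≤ Real.pi / 2 := by
    rw [abs_mul, abs_of_pos (by positivity : 0 < 2 * c)]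
    have : 2 * c * |ρ.re| ≤ 2 * c * a := by gcongr
    linarith
  have c1 : 0 ≤ Real.cos (α - β) := by
    have : α - β = 2 * c * z.re := by rw [hα, hβ]; ring
    rw [this]
    exact Real.cos_nonneg_of_mem_Icc ⟨by linarith [(abs_le.1 hx).1], (abs_le.1 hx).2⟩
  have c2 : 0 ≤ Real.cos (α + β) := by
    have : α + β = -(2 * c * ρ.re) := by rw [hα, hβ]; ring
    rw [this, Real.cos_neg]
    exact Real.cos_nonneg_of_mem_Icc ⟨by linarith [(abs_le.1 hy).1], (abs_le.1 hy).2⟩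
  have key : (Real.sin α ^ 2 + S) * (Real.sin β ^ 2 + S) ≤ (Real.cos α ^ 2 + S) * (Real.cos β ^ 2 + S) := by
    have e : (Real.cos α ^ 2 + S) * (Real.cos β ^ 2 + S) - (Real.sin α ^ 2 + S) * (Real.sin β ^ 2 + S) =
        Real.cos (α + β) * Real.cos (α - β) * (1 + 2 * S) := by
      rw [Real.cos_add, Real.cos_sub]
      have f1 := Real.sin_sq_add_cos_sq α
      have f2 := Real.sin_sq_add_cos_sq β
      have g1 : Real.sin α ^ 2 = 1 - Real.cos α ^ 2 := by linarith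
      have g2 : Real.sin β ^ 2 = 1 - Real.cos β ^ 2 := by linarith
      have g3 : (Real.cos α * Real.cos β - Real.sin α * Real.sin β) * (Real.cos α * Real.cos β + Real.sin α * Real.sin β) =
          Real.cos α ^ 2 * Real.cos β ^ 2 - Real.sin α ^ 2 * Real.sin β ^ 2 := by ring
      rw [g3, g1, g2]
      ring
    have : 0 ≤ Real.cos (α + β) * Real.cos (α - β) * (1 + 2 * S) := by positivity
    linarith
  have p3 : 0 < (Real.sin α ^ 2 + S) * (Real.sin β ^ 2 + S) := by positivity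
  have q1 : 0 < Real.cos α ^ 2 + S := by
    by_contra h
    have h0 : Real.cos α ^ 2 + S = 0 := le_antisymm (not_lt.1 h) (by positivity)
    rw [h0, zero_mul] at key
    linarith
  have q2 : 0 < Real.cos β ^ 2 + S := by
    by_contra h
    have h0 : Real.cos β ^ 2 + S = 0 := le_antisymm (not_lt.1 h) (by positivity)
    rw [h0, mul_zero] at key
    linarith
  have hl := Real.log_le_log p3 key
  rw [Real.log_mul p1.ne' p2.ne', Real.log_mul q1.ne' q2.ne'] at hl
  linarith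

/-- far from the zero -/
lemma lt_far {c : ℝ} (hc : 1 ≤ c) {ρ z : ℂ} (h : 1 ≤ |z.im - ρ.im|) : lt c ρ z ≤ 1 := by
  have him : 1 ≤ |((c : ℂ) * (z - ρ)).im| := by
    have : ((c : ℂ) * (z - ρ)).im = c * (z.im - ρ.im) := by simp
    rw [this, abs_mul, abs_of_pos (by linarith)]
    nlinarith
  obtain ⟨w, hw⟩ : ∃ w : ℂ, w = (c : ℂ) * (z - ρ) := ⟨_, rfl⟩
  unfold lt
  rw [← hw] at him ⊢
  have h1 := Pool.Agent.H572.OB.norm_cos_le w
  have h2 := Pool.Agent.H572.OB.norm_sin_ge w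
  have h3 : Real.exp (-|w.im|) ≤ Real.exp |w.im| * Real.exp (-2) := by
    rw [← Real.exp_add]
    apply Real.exp_le_exp.2
    linarith
  have h4 : Real.exp (-2) ≤ 1 / 4 := by
    rw [Real.exp_neg, one_div]
    apply inv_anti₀ (by norm_num)
    have h5 := Real.add_one_le_exp (1 : ℝ)
    have h6 : Real.exp 2 = Real.exp 1 * Real.exp 1 := by rw [← Real.exp_add]; norm_num
    rw [h6]
    nlinarith
  have hpos := Real.exp_pos |w.im|
  have h5 : Real.exp |w.im| * (3 / 8) ≤ ‖Complex.sin w‖ := by nlinarith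
  have hs : 0 < ‖Complex.sin w‖ := lt_of_lt_of_le (by positivity) h5
  rcases eq_or_lt_of_le (norm_nonneg (Complex.cos w)) with h0 | h0
  · rw [← h0, Real.log_zero]
    have h6 : (3 / 8 : ℝ) * Real.exp 1 ≤ ‖Complex.sin w‖ := by
      have : Real.exp 1 ≤ Real.exp |w.im| := Real.exp_le_exp.2 him
      nlinarith
    have h7 : 1 ≤ ‖Complex.sin w‖ := by
      have := Real.exp_one_gt_d9
      linarith
    have := Real.log_nonneg h7
    linarith
  · rw [← Real.log_div h0.ne' hs.ne', Real.log_le_iff_le_exp (by positivity), div_le_iff₀ hs]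
    have h6 := Real.exp_one_gt_d9
    calc ‖Complex.cos w‖ ≤ Real.exp |w.im| := h1
      _ ≤ Real.exp 1 * (Real.exp |w.im| * (3 / 8)) := by nlinarith
      _ ≤ _ := by gcongr

end Pool.Agent.H572.ST
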