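import Pool.Agent.H572.ST.Zeta3
import Pool.Graph.R_seed8.Y815.OJ.AP

/-!
# The final bounds for `S`, its integral, and the counting function of the zeros
-/

set_option autoImplicit false

open Filter Topology Set Metric Complex MeasureTheory
open H370 (zset mult NN Zf)
open Pool.Agent.Y746.OJ (LD pt J0 S0 J S NZ pt_re pt_im LC LC_eq dG GD_cont LD_cont pt_ne_one NZ_two hor_LD hor_GD
  pt_hasDeriv NZ_null main_int)

namespace Pool.Agent.H572.ST

theorem S_bound {ε : ℝ} (hε : 0 < ε) : ∃ T0 : ℝ, 24 ≤ T0 ∧ ∀ t : ℝ, T0 ≤ t → NZ t →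
    |S t| ≤ (1 / (4 * Real.pi) + ε) * Real.log t := by
  obtain ⟨T1, hT1, h1⟩ := S0_bound (half_pos hε)
  obtain ⟨C, hC, h2⟩ := Pool.Agent.Y141.OJ.t_INF
  obtain ⟨T2, hT2, h3⟩ := absorb (κ := 1 / (4 * Real.pi) + ε / 2) (C := C) (half_pos hε)
  refine ⟨max T1 T2, le_max_of_le_left hT1, fun t ht hNZ => ?_⟩
  have ht1 : T1 ≤ t := (le_max_left _ _).trans ht
  have ht2 : T2 ≤ t := (le_max_right _ _).trans ht
  have h4 := h1 t ht1 hNZ
  have h5 := (h2 t (by linarith) hNZ).2
  have h6 := h3 t ht2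
  have h7 : |S t| ≤ |S0 t| + |S t - S0 t| := by
    calc |S t| = |S0 t + (S t - S0 t)| := by ring_nf
      _ ≤ _ := abs_add_le _ _
  have e : (1 / (4 * Real.pi) + ε / 2 + ε / 2) = 1 / (4 * Real.pi) + ε := by ring
  rw [e] at h6
  linarith

theorem J_bound {ε : ℝ} (hε : 0 < ε) : ∃ T0 : ℝ, 24 ≤ T0 ∧ ∀ t : ℝ, T0 ≤ t → NZ t →
    (1 / 16 - Cat / Real.pi ^ 2 - ε) * Real.log t ≤ J t ∧ J t ≤ (1 / 16 + ε) * Real.log t := by
  obtain ⟨T1, hT1, h1⟩ := J0_bound (half_pos hε)
  obtain ⟨C, hC, h2⟩ := Pool.Agent.Y141.OJ.t_INF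
  obtain ⟨T2, hT2, h3⟩ := absorb (κ := 0) (C := C) (half_pos hε)
  refine ⟨max T1 T2, le_max_of_le_left hT1, fun t ht hNZ => ?_⟩
  have ht1 : T1 ≤ t := (le_max_left _ _).trans ht
  have ht2 : T2 ≤ t := (le_max_right _ _).trans ht
  have h4 := h1 t ht1 hNZ
  have h5 := abs_le.1 (h2 t (by linarith) hNZ).1
  have h6 := h3 t ht2
  have e : I2 / (2 * Real.pi ^ 2) = Cat / Real.pi ^ 2 := by
    rw [I2_eq]
    field_simp
  rw [e] at h4
  constructor <;> nlinarith [h4.1, h4.2, h5.1, h5.2]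

lemma exists_NZ {a b : ℝ} (ha : 1 ≤ a) (hab : a < b) : ∃ t : ℝ, a < t ∧ t < b ∧ NZ t := by
  by_contra hc
  push Not at hc
  have h1 : Ioo a b ⊆ {y : ℝ | 1 < y ∧ ¬ NZ y} := fun y hy => ⟨by linarith [hy.1], hc y hy.1 hy.2⟩
  have h2 := measure_mono_null h1 NZ_null
  rw [Real.volume_Ioo] at h2
  have : 0 < ENNReal.ofReal (b - a) := ENNReal.ofReal_pos.2 (by linarith)
  rw [h2] at this
  exact lt_irrefl _ this

lemma one_sixteen : 1 / 16 ≤ Cat / Real.pi ^ 2 := by
  have h1 := I2_ge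
  rw [I2_eq] at h1
  rw [le_div_iff₀ (by positivity)]
  nlinarith [Real.pi_lt_d2, Real.pi_gt_three]

/-- short intervals -/
lemma short {K T0 : ℝ} (hT0 : 1 ≤ T0) (hK : 0 ≤ K) (h : ∀ t : ℝ, T0 ≤ t → NZ t → |S t| ≤ K * Real.log t) {t1 t2 R : ℝ}
    (h1 : T0 ≤ t1) (h12 : t1 ≤ t2) (h2 : t2 ≤ R) : |∫ y in t1..t2, S y| ≤ K * Real.log R * (t2 - t1) := by
  have hae : ∀ᵐ y : ℝ, y ∈ Set.uIoc t1 t2 → ‖S y‖ ≤ K * Real.log R := by
    have h3 : ∀ᵐ y : ℝ, ¬ (1 < y ∧ ¬ NZ y) := by
      rw [ae_iff]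
      simpa only [not_not] using NZ_null
    filter_upwards [h3] with y hy hyI
    rw [uIoc_of_le h12] at hyI
    have hy1 : 1 < y := by linarith [hyI.1]
    have hNZ : NZ y := by
      by_contra hc
      exact hy ⟨hy1, hc⟩
    have h4 := h y (by linarith [hyI.1]) hNZ
    rw [Real.norm_eq_abs]
    refine h4.trans ?_
    apply mul_le_mul_of_nonneg_left _ hK
    exact Real.log_le_log (by linarith) (hyI.2.trans h2)
  have h5 := intervalIntegral.norm_integral_le_of_norm_le_const_ae hae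
  rw [Real.norm_eq_abs, abs_of_nonneg (by linarith : 0 ≤ t2 - t1)] at h5
  exact h5

/-- **The integral of `S`.** -/
theorem intS_bound {ε : ℝ} (hε : 0 < ε) : ∃ T0 : ℝ, 24 ≤ T0 ∧ ∀ t1 t2 : ℝ, T0 ≤ t1 → t1 ≤ t2 →
    |∫ y in t1..t2, S y| ≤ (Cat / Real.pi ^ 3 + ε) * Real.log t2 := by
  obtain ⟨T1, hT1, h1⟩ := J_bound (ε := ε / 4) (by positivity)
  obtain ⟨T2, hT2, h2⟩ := S_bound (ε := 1 / 2) (by norm_num)
  obtain ⟨η, hη⟩ : ∃ η : ℝ, η = ε / 4 := ⟨_, rfl⟩
  have hη0 : 0 < η := by rw [hη]; positivity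
  have hK1 : 1 / (4 * Real.pi) + 1 / 2 ≤ 1 := by
    have : 1 / (4 * Real.pi) ≤ 1 / 2 := by
      apply one_div_le_one_div_of_le (by norm_num)
      linarith [Real.pi_gt_three]
    linarith
  have h2' : ∀ t : ℝ, T2 ≤ t → NZ t → |S t| ≤ 1 * Real.log t := by
    intro t ht hN
    refine (h2 t ht hN).trans ?_
    apply mul_le_mul_of_nonneg_right hK1 (Real.log_nonneg (by linarith))
  have hCat : 0 ≤ Cat / Real.pi ^ 3 := by
    have := I2_nonneg
    rw [I2_eq] at this
    exact div_nonneg (by linarith) (by positivity)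
  refine ⟨max T1 T2, le_max_of_le_left hT1, fun t1 t2 ht1 ht12 => ?_⟩
  have ha : T1 ≤ t1 := (le_max_left _ _).trans ht1
  have hb : T2 ≤ t1 := (le_max_right _ _).trans ht1
  have hlog : 0 ≤ Real.log t2 := Real.log_nonneg (by linarith)
  rcases le_or_gt (t2 - t1) (2 * η) with hs | hs
  · have h3 := short (by linarith) zero_le_one h2' hb ht12 le_rfl
    refine h3.trans ?_
    have : 1 * Real.log t2 * (t2 - t1) ≤ Real.log t2 * (2 * η) := by
      rw [one_mul]
      gcongr
    rw [hη] at this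
    nlinarith
  · obtain ⟨s1, hs1, hs1', hN1⟩ := exists_NZ (a := t1) (b := t1 + η) (by linarith) (by linarith)
    obtain ⟨s2, hs2, hs2', hN2⟩ := exists_NZ (a := t2 - η) (b := t2) (by linarith) (by linarith)
    have h12 : s1 ≤ s2 := by linarith
    have e : ∫ y in t1..t2, S y = (∫ y in t1..s1, S y) + (∫ y in s1..s2, S y) + ∫ y in s2..t2, S y := by
      rw [intervalIntegral.integral_add_adjacent_intervals (S_int (by linarith) hs1.le) (S_int (by linarith) h12),
        intervalIntegral.integral_add_adjacent_intervals (S_int (by linarith) (by linarith))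
          (S_int (by linarith) hs2'.le)]
    have k1 := short (by linarith) zero_le_one h2' hb hs1.le (R := t2) (by linarith)
    have k3 := short (by linarith) zero_le_one h2' (t1 := s2) (t2 := t2) (by linarith) hs2'.le (R := t2) le_rfl
    have k2 := S_integral (by linarith) h12 hN1 hN2
    have j1 := h1 s1 (by linarith) hN1
    have j2 := h1 s2 (by linarith) hN2
    have hl1 : Real.log s1 ≤ Real.log s2 := Real.log_le_log (by linarith) h12
    have hl2 : Real.log s2 ≤ Real.log t2 := Real.log_le_log (by linarith) hs2'.le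
    have hl0 : 0 ≤ Real.log s1 := Real.log_nonneg (by linarith)
    have hc := one_sixteen
    have hJ : |J s2 - J s1| ≤ (Cat / Real.pi ^ 2 + ε / 2) * Real.log t2 := by
      obtain ⟨κ, hκ⟩ : ∃ κ : ℝ, κ = Cat / Real.pi ^ 2 := ⟨_, rfl⟩
      rw [← hκ] at hc j1 j2 ⊢
      have hκL : κ * Real.log s2 ≤ κ * Real.log t2 := by gcongr
      have hκL1 : κ * Real.log s1 ≤ κ * Real.log s2 := by gcongr
      have hεL : ε * Real.log s2 ≤ ε * Real.log t2 := by gcongr
      have hεL1 : ε * Real.log s1 ≤ ε * Real.log s2 := by gcongr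
      have hcL : (κ - 1 / 16) * Real.log s1 ≤ (κ - 1 / 16) * Real.log s2 := by
        apply mul_le_mul_of_nonneg_left hl1 (by linarith)
      rw [abs_le]
      constructor
      · have : 0 ≤ 1 / 16 * (Real.log s2 - Real.log s1) := by
          apply mul_nonneg (by norm_num)
          linarith
        nlinarith [j1.2, j2.1]
      · nlinarith [j1.1, j2.2]
    have hS : |∫ y in s1..s2, S y| ≤ (Cat / Real.pi ^ 3 + ε / 2) * Real.log t2 := by
      rw [k2, abs_mul, abs_of_pos (by positivity)]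
      calc 1 / Real.pi * |J s2 - J s1| ≤ 1 / Real.pi * ((Cat / Real.pi ^ 2 + ε / 2) * Real.log t2) := by gcongr
        _ = (Cat / Real.pi ^ 3 + ε / 2 / Real.pi) * Real.log t2 := by
          field_simp
        _ ≤ _ := by
          have : ε / 2 / Real.pi ≤ ε / 2 := div_le_self (by positivity) (by linarith [Real.pi_gt_three])
          gcongr
    have k1' : |∫ y in t1..s1, S y| ≤ Real.log t2 * η := by
      refine k1.trans ?_
      rw [one_mul]
      gcongr
      linarith
    have k3' : |∫ y in s2..t2, S y| ≤ Real.log t2 * η := by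
      refine k3.trans ?_
      rw [one_mul]
      gcongr
      linarith
    rw [e]
    have k4 := abs_add_le ((∫ y in t1..s1, S y) + (∫ y in s1..s2, S y)) (∫ y in s2..t2, S y)
    have k5 := abs_add_le (∫ y in t1..s1, S y) (∫ y in s1..s2, S y)
    rw [hη] at k1' k3'
    nlinarith

/-- the main term -/
noncomputable def Mn (T : ℝ) : ℝ := T / (2 * Real.pi) * Real.log (T / (2 * Real.pi)) - T / (2 * Real.pi)

/-- all sets of zeros are finite -/
lemma fin_zset (T : ℝ) : (zset riemannZeta 0 T).Finite := by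
  obtain ⟨h, hh⟩ : ∃ h : ℂ → ℂ, h = fun s => s * (1 - s) * completedRiemannZeta₀ s - 1 := ⟨_, rfl⟩
  have hd : Differentiable ℂ h := by
    rw [hh]
    have := differentiable_completedZeta₀
    fun_prop
  have hK : IsCompact (Icc (0 : ℝ) 1 ×ℂ Icc (0 : ℝ) T) := isCompact_Icc.reProdIm isCompact_Icc
  have hsub : zset riemannZeta 0 T ⊆ (Icc (0 : ℝ) 1 ×ℂ Icc (0 : ℝ) T) ∩ {s | h s = 0} := by
    rintro s ⟨h1, h2, h3, h4, h5⟩
    have hs0 : s ≠ 0 := by intro h; rw [h] at h3; simp at h3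
    have hs1 : s ≠ 1 := by intro h; rw [h] at h3; simp at h3
    refine ⟨⟨⟨h1.le, h2.le⟩, ⟨h3.le, h4⟩⟩, ?_⟩
    have h6 : completedRiemannZeta s = 0 := (Pool.Agent.Y815.OJ.Lam_zero_iff h3.ne').2 h5
    rw [completedRiemannZeta_eq] at h6
    show h s = 0
    rw [hh]
    simp only
    have h7 : (1 : ℂ) - s ≠ 0 := sub_ne_zero.2 (Ne.symm hs1)
    have h8 : completedRiemannZeta₀ s = 1 / s + 1 / (1 - s) := by linear_combination h6
    rw [h8]
    field_simp
    ring
  refine Set.Finite.subset ?_ hsub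
  by_contra hinf
  obtain ⟨x, hx, hacc⟩ := Set.Infinite.exists_accPt_of_subset_isCompact hinf hK inter_subset_left
  have hfr : ∃ᶠ z in 𝓝[≠] x, h z = 0 := by
    have := (accPt_iff_frequently_nhdsNE.1 hacc)
    exact this.mono fun z hz => hz.2
  have han : AnalyticOnNhd ℂ h univ := fun z _ => hd.analyticAt z
  have h0 := han.eqOn_zero_of_preconnected_of_frequently_eq_zero isPreconnected_univ (mem_univ x) hfr (mem_univ (0 : ℂ))
  rw [hh] at h0
  simp at h0

lemma NN_add {a b : ℝ} (h0 : 0 ≤ a) (hab : a ≤ b) : NN riemannZeta 0 b = NN riemannZeta 0 a + NN riemannZeta a b := by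
  unfold NN
  have e : zset riemannZeta 0 b = zset riemannZeta 0 a ∪ zset riemannZeta a b := by
    ext s
    constructor
    · rintro ⟨h1, h2, h3, h4, h5⟩
      rcases le_or_gt s.im a with h | h
      · exact Or.inl ⟨h1, h2, h3, h, h5⟩
      · exact Or.inr ⟨h1, h2, h, h4, h5⟩
    · rintro (⟨h1, h2, h3, h4, h5⟩ | ⟨h1, h2, h3, h4, h5⟩)
      · exact ⟨h1, h2, h3, h4.trans hab, h5⟩
      · exact ⟨h1, h2, lt_of_le_of_lt h0 h3, h4, h5⟩
  have hdis : Disjoint (zset riemannZeta 0 a) (zset riemannZeta a b) := by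
    rw [Set.disjoint_left]
    rintro s ⟨_, _, _, h4, _⟩ ⟨_, _, h3, _, _⟩
    linarith
  have hf2 : (zset riemannZeta a b).Finite := (fin_zset b).subset (by rw [e]; exact subset_union_right)
  rw [e]
  exact finsum_mem_union hdis (fin_zset a) hf2

theorem N_bound {ε : ℝ} (hε : 0 < ε) : ∃ T0 : ℝ, 24 ≤ T0 ∧ ∀ T : ℝ, T0 ≤ T →
    |(NN riemannZeta 0 T : ℝ) - Mn T| ≤ (1 / (4 * Real.pi) + ε) * Real.log T := by
  obtain ⟨T1, hT1, h1⟩ := S0_bound (ε := ε / 4) (by positivity)
  obtain ⟨C, hC, h2⟩ := Pool.Agent.Y746.OJ.t_RV Pool.Agent.Y815.OJ.t_AP Pool.Agent.Y37.OJ.t_GA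
  obtain ⟨η, hη⟩ : ∃ η : ℝ, η = min 1 (ε / 4) := ⟨_, rfl⟩
  have hη0 : 0 < η := by rw [hη]; exact lt_min one_pos (by positivity)
  have hη1 : η ≤ 1 := by rw [hη]; exact min_le_left _ _
  have hη2 : η ≤ ε / 4 := by rw [hη]; exact min_le_right _ _
  obtain ⟨T2, hT2, h3⟩ := absorb (κ := 1 / (4 * Real.pi) + ε / 4 + ε / 4)
    (C := (1 / (4 * Real.pi) + ε / 4 + ε / 4) * 1 + (C + NN riemannZeta 0 1)) (half_pos hε)
  -- at heights without zeros
  have key : ∀ t : ℝ, T1 ≤ t → NZ t →
      |(NN riemannZeta 0 t : ℝ) - Mn t| ≤ (1 / (4 * Real.pi) + ε / 4) * Real.log t + (C + NN riemannZeta 0 1) := by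
    intro t ht hN
    have h4 := h1 t ht hN
    have h5 := h2 t (by linarith) hN
    have h6 : (NN riemannZeta 0 t : ℝ) = NN riemannZeta 0 1 + NN riemannZeta 1 t := by
      exact_mod_cast NN_add zero_le_one (by linarith)
    have h7 : (0 : ℝ) ≤ NN riemannZeta 0 1 := Nat.cast_nonneg _
    unfold Mn
    rw [h6]
    have h8 := abs_le.1 h4
    have h9 := abs_le.1 h5
    rw [abs_le]
    constructor <;> linarith [h8.1, h8.2, h9.1, h9.2]
  -- monotonicity
  have hmono : ∀ a b : ℝ, 0 ≤ a → a ≤ b → (NN riemannZeta 0 a : ℝ) ≤ NN riemannZeta 0 b := by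
    intro a b h0 hab
    rw [NN_add h0 hab]
    push_cast
    have : (0 : ℝ) ≤ NN riemannZeta a b := Nat.cast_nonneg _
    linarith
  -- the main term
  have hMn : ∀ a b : ℝ, 24 ≤ a → a ≤ b → Mn b - Mn a ≤ (b - a) * Real.log b := by
    intro a b ha hab
    have h4 := main_int (b := a) (t := b) (by linarith) hab
    have h5 : ∫ y in a..b, Real.log (y / (2 * Real.pi)) / 2 ≤ ∫ y in a..b, Real.log b := by
      apply intervalIntegral.integral_mono_on hab
      · apply ContinuousOn.intervalIntegrable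
        intro y hy
        rw [uIcc_of_le hab] at hy
        have hy0 : y / (2 * Real.pi) ≠ 0 := by
          have : 0 < y := by linarith [hy.1]
          positivity
        exact ((ContinuousAt.log (continuousAt_id.div_const (2 * Real.pi)) hy0).div_const 2).continuousWithinAt
      · simp
      · intro y hy
        have hy0 : 0 < y := by linarith [hy.1]
        have h6 : Real.log (y / (2 * Real.pi)) ≤ Real.log b := by
          apply Real.log_le_log (by positivity)
          rw [div_le_iff₀ (by positivity)]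
          nlinarith [Real.pi_gt_three, hy.2]
        have h7 : 0 ≤ Real.log b := Real.log_nonneg (by linarith)
        linarith
    rw [h4] at h5
    simp only [intervalIntegral.integral_const, smul_eq_mul] at h5
    have h8 : Mn b - Mn a ≤ (b - a) * Real.log b / Real.pi := by
      rw [le_div_iff₀ Real.pi_pos]
      unfold Mn
      linarith
    refine h8.trans ?_
    apply div_le_self
    · exact mul_nonneg (by linarith) (Real.log_nonneg (by linarith))
    · linarith [Real.pi_gt_three]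
  refine ⟨max (T1 + 1) T2, le_max_of_le_right hT2, fun T hT => ?_⟩
  have ha : T1 + 1 ≤ T := (le_max_left _ _).trans hT
  have hb : T2 ≤ T := (le_max_right _ _).trans hT
  have hlogT : 0 ≤ Real.log T := Real.log_nonneg (by linarith)
  have h4 := h3 T hb
  have e0 : (1 / (4 * Real.pi) + ε / 4 + ε / 4 + ε / 2) = 1 / (4 * Real.pi) + ε := by ring
  rw [e0] at h4
  have hpi : 0 < 1 / (4 * Real.pi) := by positivity
  rw [abs_le]
  constructor
  · obtain ⟨s, hs, hs', hN⟩ := exists_NZ (a := T - η) (b := T) (by linarith) (by linarith)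
    have k1 := abs_le.1 (key s (by linarith) hN)
    have k2 := hmono s T (by linarith) hs'.le
    have k3 := hMn s T (by linarith) hs'.le
    have k4 : Real.log s ≤ Real.log T := Real.log_le_log (by linarith) hs'.le
    have k5 : (T - s) * Real.log T ≤ ε / 4 * Real.log T := by
      apply mul_le_mul_of_nonneg_right _ hlogT
      linarith
    have k6 : (1 / (4 * Real.pi) + ε / 4) * Real.log s ≤ (1 / (4 * Real.pi) + ε / 4) * Real.log T := by gcongr
    nlinarith [k1.1]
  · obtain ⟨s, hs, hs', hN⟩ := exists_NZ (a := T) (b := T + η) (by linarith) (by linarith)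
    have k1 := abs_le.1 (key s (by linarith) hN)
    have k2 := hmono T s (by linarith) hs.le
    have k3 := hMn T s (by linarith) hs.le
    have hs0 : 0 < s := by linarith
    have k4 : Real.log s ≤ Real.log T + 1 := by
      rw [← Real.log_exp 1, ← Real.log_mul (by linarith) (Real.exp_pos 1).ne']
      apply Real.log_le_log hs0
      have := Real.add_one_le_exp (1 : ℝ)
      nlinarith
    have k5 : (s - T) * Real.log s ≤ ε / 4 * (Real.log T + 1) := by
      have : 0 ≤ Real.log s := Real.log_nonneg (by linarith)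
      have h5 : s - T ≤ ε / 4 := by linarith
      gcongr
    have k6 : (1 / (4 * Real.pi) + ε / 4) * Real.log s ≤ (1 / (4 * Real.pi) + ε / 4) * (Real.log T + 1) := by gcongr
    nlinarith [k1.2]

end Pool.Agent.H572.ST
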