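import Mathlib

/-!
# From the counting function to the gaps between the `n`-th and the `(n+k)`-th ordinate, `k ≪ log n`
-/

set_option autoImplicit false

open Filter Topology Set

namespace Pool.Agent.H572.ST

/-- `n`-th point of a counting function -/
noncomputable def pnt (N : ℝ → ℕ) (n : ℕ) : ℝ := sInf {T : ℝ | 0 < T ∧ n ≤ N T}

/-- the main term -/
noncomputable def mt (T : ℝ) : ℝ := T / (2 * Real.pi) * Real.log (T / (2 * Real.pi)) - T / (2 * Real.pi)

lemma mt_deriv {x : ℝ} (hx : 0 < x) : HasDerivAt mt (Real.log (x / (2 * Real.pi)) / (2 * Real.pi)) x := by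
  unfold mt
  have hp : (0 : ℝ) < 2 * Real.pi := by positivity
  have h1 : HasDerivAt (fun T : ℝ => T / (2 * Real.pi)) (1 / (2 * Real.pi)) x := (hasDerivAt_id x).div_const _
  have h2 := h1.log (by positivity : x / (2 * Real.pi) ≠ 0)
  have h3 := (h1.mul h2).sub h1
  have e : 1 / (2 * Real.pi) * Real.log (x / (2 * Real.pi)) + x / (2 * Real.pi) * (1 / (2 * Real.pi) / (x / (2 * Real.pi))) -
      1 / (2 * Real.pi) = Real.log (x / (2 * Real.pi)) / (2 * Real.pi) := by
    field_simp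
    ring
  rw [e] at h3
  exact h3

lemma mt_diff {a b : ℝ} (ha : 0 < a) (hab : a ≤ b) :
    (b - a) / (2 * Real.pi) * Real.log (a / (2 * Real.pi)) ≤ mt b - mt a ∧
      mt b - mt a ≤ (b - a) / (2 * Real.pi) * Real.log (b / (2 * Real.pi)) := by
  rcases hab.eq_or_lt with rfl | hlt
  · simp
  obtain ⟨c, hc, h1⟩ := exists_hasDerivAt_eq_slope mt (fun x => Real.log (x / (2 * Real.pi)) / (2 * Real.pi)) hlt
    (fun x hx => (mt_deriv (by linarith [hx.1])).continuousAt.continuousWithinAt)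
    (fun x hx => mt_deriv (by linarith [hx.1]))
  have h2 : mt b - mt a = (b - a) / (2 * Real.pi) * Real.log (c / (2 * Real.pi)) := by
    have hba : b - a ≠ 0 := by linarith
    rw [eq_div_iff hba] at h1
    rw [← h1]; ring
  have hp : (0 : ℝ) < 2 * Real.pi := by positivity
  have h3 : Real.log (a / (2 * Real.pi)) ≤ Real.log (c / (2 * Real.pi)) := by
    apply Real.log_le_log (by positivity)
    gcongr
    exact hc.1.le
  have h4 : Real.log (c / (2 * Real.pi)) ≤ Real.log (b / (2 * Real.pi)) := by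
    apply Real.log_le_log
    · have : 0 < c := by linarith [hc.1]
      positivity
    gcongr
    exact hc.2.le
  have h5 : 0 ≤ (b - a) / (2 * Real.pi) := by
    apply div_nonneg (by linarith) hp.le
  rw [h2]
  exact ⟨mul_le_mul_of_nonneg_left h3 h5, mul_le_mul_of_nonneg_left h4 h5⟩

section Count

variable {N : ℝ → ℕ} {κ : ℝ}

/-- the hypothesis on the counting function -/
def Cnt (N : ℝ → ℕ) (κ : ℝ) : Prop :=
  Monotone N ∧ ∀ ε : ℝ, 0 < ε → ∃ T₀ : ℝ, 1 ≤ T₀ ∧ ∀ T : ℝ, T₀ ≤ T → |(N T : ℝ) - mt T| ≤ (κ + ε) * Real.log T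

lemma Cnt.bounds (h : Cnt N κ) (hκ : 0 ≤ κ) {η : ℝ} (hη : 0 < η) : ∃ T₁ : ℝ, 1 ≤ T₁ ∧ ∀ T : ℝ, T₁ ≤ T →
    T ≤ N T ∧ (N T : ℝ) < T ^ (1 + η) := by
  obtain ⟨T0, h0, h1⟩ := h.2 1 one_pos
  have hp : (0 : ℝ) < 2 * Real.pi := by positivity
  have hlogT : Tendsto Real.log atTop atTop := Real.tendsto_log_atTop
  -- log T / T -> 0
  have a1 : ∀ᶠ T : ℝ in atTop, (κ + 1) * Real.log T ≤ T := by
    have := (Real.isLittleO_log_id_atTop.bound (show (0 : ℝ) < 1 / (κ + 1) by positivity))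
    filter_upwards [this, eventually_ge_atTop 1] with T hT h1
    have hl : 0 ≤ Real.log T := Real.log_nonneg h1
    simp only [id, Real.norm_eq_abs, abs_of_nonneg hl, abs_of_nonneg (by linarith : (0:ℝ) ≤ T)] at hT
    calc (κ + 1) * Real.log T ≤ (κ + 1) * (1 / (κ + 1) * T) := by gcongr
      _ = T := by field_simp
  have a2 : ∀ᶠ T : ℝ in atTop, 4 * Real.pi + 1 + Real.log (2 * Real.pi) ≤ Real.log T := hlogT.eventually_ge_atTop _
  have a3 : ∀ᶠ T : ℝ in atTop, 3 * Real.log T < T ^ η := by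
    have h2 := (isLittleO_log_rpow_atTop hη).bound (show (0 : ℝ) < 1 / 4 by norm_num)
    filter_upwards [h2, eventually_gt_atTop 1] with T hT h1
    have hl : 0 < Real.log T := Real.log_pos h1
    have hp' : 0 < T ^ η := Real.rpow_pos_of_pos (by linarith) _
    simp only [Real.norm_eq_abs, abs_of_nonneg hl.le, abs_of_nonneg hp'.le] at hT
    linarith
  obtain ⟨T1, hT1⟩ := eventually_atTop.1 ((a1.and a2).and a3)
  refine ⟨max 1 (max T0 T1), le_max_left _ _, fun T hT => ?_⟩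
  have hT0 : T0 ≤ T := ((le_max_left _ _).trans (le_max_right _ _)).trans hT
  have hTT : T1 ≤ T := ((le_max_right _ _).trans (le_max_right _ _)).trans hT
  have hT1' : 1 ≤ T := (le_max_left _ _).trans hT
  obtain ⟨⟨b1, b2⟩, b3⟩ := hT1 T hTT
  have h2 := abs_le.1 (h1 T hT0)
  have hTp : 0 < T := by linarith
  have hlog : Real.log (T / (2 * Real.pi)) = Real.log T - Real.log (2 * Real.pi) :=
    Real.log_div hTp.ne' hp.ne'
  have hlp : 0 < Real.log (2 * Real.pi) := Real.log_pos (by linarith [Real.pi_gt_three])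
  have hmt : mt T = T / (2 * Real.pi) * (Real.log T - Real.log (2 * Real.pi) - 1) := by
    unfold mt; rw [hlog]; ring
  have hinv : T / (2 * Real.pi) * (4 * Real.pi) = 2 * T := by field_simp; ring
  have hTpi : 0 < T / (2 * Real.pi) := by positivity
  constructor
  · have : 2 * T ≤ mt T := by
      rw [hmt, ← hinv]
      apply mul_le_mul_of_nonneg_left _ hTpi.le
      linarith
    linarith [h2.1]
  · have hl : 0 ≤ Real.log T := Real.log_nonneg hT1'
    have h3 : mt T ≤ T * Real.log T := by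
      rw [hmt]
      have : T / (2 * Real.pi) ≤ T := by
        apply div_le_self hTp.le
        linarith [Real.pi_gt_three]
      calc T / (2 * Real.pi) * (Real.log T - Real.log (2 * Real.pi) - 1) ≤ T / (2 * Real.pi) * Real.log T := by
            apply mul_le_mul_of_nonneg_left _ hTpi.le
            linarith
        _ ≤ T * Real.log T := by gcongr
    have h4 : (N T : ℝ) ≤ T * Real.log T + T := by linarith [h2.2]
    have hl1 : 1 ≤ Real.log T := by linarith [Real.pi_gt_three]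
    have h5 : T * Real.log T + T < T * T ^ η := by nlinarith
    calc (N T : ℝ) ≤ T * Real.log T + T := h4
      _ < T * T ^ η := h5
      _ = T ^ (1 + η) := by rw [Real.rpow_add hTp, Real.rpow_one]

lemma Cnt.nonempty (h : Cnt N κ) (hκ : 0 ≤ κ) (n : ℕ) : {T : ℝ | 0 < T ∧ n ≤ N T}.Nonempty := by
  obtain ⟨T1, h1, h2⟩ := h.bounds hκ one_pos
  refine ⟨max T1 n, ?_, ?_⟩
  · exact lt_of_lt_of_le (by linarith) (le_max_left _ _)
  · have h3 := (h2 (max T1 n) (le_max_left _ _)).1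
    have h4 : (n : ℝ) ≤ max T1 n := le_max_right _ _
    exact_mod_cast h4.trans h3

lemma Cnt.above (h : Cnt N κ) (hκ : 0 ≤ κ) {n : ℕ} {T : ℝ} (hT : pnt N n < T) : n ≤ N T := by
  obtain ⟨x, hx, hxT⟩ := exists_lt_of_csInf_lt (h.nonempty hκ n) hT
  exact hx.2.trans (h.1 hxT.le)

lemma Cnt.below {n : ℕ} {T : ℝ} (hT0 : 0 < T) (hT : T < pnt N n) : N T < n := by
  by_contra hc
  push Not at hc
  have : pnt N n ≤ T := csInf_le ⟨0, fun x hx => hx.1.le⟩ ⟨hT0, hc⟩
  linarith

lemma pnt_nonneg (n : ℕ) : 0 ≤ pnt N n := Real.sInf_nonneg fun _ hx => hx.1.le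

lemma Cnt.mono (h : Cnt N κ) (hκ : 0 ≤ κ) {m n : ℕ} (hmn : m ≤ n) : pnt N m ≤ pnt N n :=
  csInf_le_csInf ⟨0, fun _ hx => hx.1.le⟩ (h.nonempty hκ n) fun _ hx => ⟨hx.1, hmn.trans hx.2⟩

/-- the size of the `n`-th point -/
lemma Cnt.size (h : Cnt N κ) (hκ : 0 ≤ κ) {η : ℝ} (hη : 0 < η) : ∃ n₁ : ℕ, 2 ≤ n₁ ∧ ∀ n : ℕ, n₁ ≤ n →
    pnt N n ≤ n ∧ (n : ℝ) ^ (1 / (1 + η)) ≤ pnt N n := by
  obtain ⟨T1, h1, h2⟩ := h.bounds hκ hη
  obtain ⟨n1, hn1⟩ := exists_nat_ge (T1 + N T1 + 2)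
  have hN0 : (0 : ℝ) ≤ N T1 := Nat.cast_nonneg _
  refine ⟨n1, ?_, fun n hn => ?_⟩
  · have : (2 : ℝ) ≤ n1 := by linarith
    exact_mod_cast this
  have hn' : T1 + N T1 + 2 ≤ (n : ℝ) := hn1.trans (by exact_mod_cast hn)
  constructor
  · apply csInf_le ⟨0, fun _ hx => hx.1.le⟩
    refine ⟨by linarith, ?_⟩
    have := (h2 n (by linarith)).1
    exact_mod_cast this
  · apply le_csInf (h.nonempty hκ n)
    rintro T ⟨hT0, hT⟩
    by_contra hc
    push Not at hc
    rcases le_or_gt T1 T with hT1 | hT1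
    · have h3 := (h2 T hT1).2
      have h4 : T ^ (1 + η) ≤ ((n : ℝ) ^ (1 / (1 + η))) ^ (1 + η) := by
        apply Real.rpow_le_rpow hT0.le hc.le (by linarith)
      rw [← Real.rpow_mul (Nat.cast_nonneg n), one_div_mul_cancel (by linarith), Real.rpow_one] at h4
      have h5 : (n : ℝ) ≤ N T := by exact_mod_cast hT
      linarith
    · have h3 : N T ≤ N T1 := h.1 hT1.le
      have h4 : (n : ℝ) ≤ N T1 := by exact_mod_cast hT.trans h3
      linarith

lemma Cnt.log_size (h : Cnt N κ) (hκ : 0 ≤ κ) {η : ℝ} (hη : 0 < η) : ∃ n₁ : ℕ, 2 ≤ n₁ ∧ ∀ n : ℕ, n₁ ≤ n →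
    ∀ k : ℕ, k ≤ n → 0 < pnt N n ∧ (1 - η) * Real.log n ≤ Real.log (pnt N n) ∧
      Real.log (pnt N (n + k)) ≤ (1 + η) * Real.log n := by
  obtain ⟨n1, h1, h2⟩ := h.size hκ hη
  obtain ⟨n2, hn2⟩ : ∃ n2 : ℕ, ∀ n : ℕ, n2 ≤ n → Real.log 2 ≤ η * Real.log n := by
    have := ((Real.tendsto_log_atTop.comp tendsto_natCast_atTop_atTop).const_mul_atTop hη).eventually_ge_atTop
      (Real.log 2)
    obtain ⟨n2, h⟩ := eventually_atTop.1 this
    exact ⟨n2, fun n hn => h n hn⟩
  refine ⟨max n1 n2, le_max_of_le_left h1, fun n hn k hk => ?_⟩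
  have hn1 : n1 ≤ n := (le_max_left _ _).trans hn
  obtain ⟨a1, a2⟩ := h2 n hn1
  have hnp : (0 : ℝ) < n := by
    have : 0 < n := by omega
    exact_mod_cast this
  have hlogn : 0 ≤ Real.log n := Real.log_natCast_nonneg n
  have hpos : 0 < (n : ℝ) ^ (1 / (1 + η)) := Real.rpow_pos_of_pos hnp _
  have hpn : 0 < pnt N n := lt_of_lt_of_le hpos a2
  refine ⟨hpn, ?_, ?_⟩
  · have h3 : Real.log ((n : ℝ) ^ (1 / (1 + η))) ≤ Real.log (pnt N n) := Real.log_le_log hpos a2
    rw [Real.log_rpow hnp] at h3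
    refine le_trans ?_ h3
    apply mul_le_mul_of_nonneg_right _ hlogn
    rw [le_div_iff₀ (by linarith)]
    nlinarith [sq_nonneg η]
  · obtain ⟨b1, b2⟩ := h2 (n + k) (by omega)
    have hpk : 0 < pnt N (n + k) := lt_of_lt_of_le hpn (h.mono hκ (by omega))
    have h3 : Real.log (pnt N (n + k)) ≤ Real.log ((n + k : ℕ) : ℝ) := Real.log_le_log hpk b1
    have h4 : Real.log ((n + k : ℕ) : ℝ) ≤ Real.log (2 * n) := by
      apply Real.log_le_log
      · have : 0 < n + k := by omega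
        exact_mod_cast this
      · have : ((n + k : ℕ) : ℝ) ≤ ((2 * n : ℕ) : ℝ) := by
          have : n + k ≤ 2 * n := by omega
          exact_mod_cast this
        push_cast at this ⊢
        exact this
    rw [Real.log_mul (by norm_num) hnp.ne'] at h4
    have h5 := hn2 n ((le_max_right _ _).trans hn)
    linarith

/-- **The gaps.** -/
theorem Cnt.gaps (h : Cnt N κ) (hκ : 0 ≤ κ) (K ε : ℝ) (hε : 0 < ε) : ∃ n₀ : ℕ, 2 ≤ n₀ ∧ ∀ n : ℕ, n₀ ≤ n →
    ∀ k : ℕ, (k : ℝ) ≤ K * Real.log n →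
      |pnt N (n + k) - pnt N n - 2 * Real.pi * k / Real.log n| ≤ 4 * Real.pi * κ + ε := by
  obtain ⟨M, hM⟩ : ∃ M : ℝ, M = max K 0 := ⟨_, rfl⟩
  have hM0 : 0 ≤ M := by rw [hM]; exact le_max_right _ _
  obtain ⟨η, hη⟩ : ∃ η : ℝ, η = min (1 / 8) (ε / (200 * (M + κ + 1))) := ⟨_, rfl⟩
  have hη0 : 0 < η := by rw [hη]; positivity
  have hη8 : η ≤ 1 / 8 := by rw [hη]; exact min_le_left _ _
  have hηs : η * (M + κ + 1) ≤ ε / 200 := by
    have h1 : η ≤ ε / (200 * (M + κ + 1)) := by rw [hη]; exact min_le_right _ _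
    calc η * (M + κ + 1) ≤ ε / (200 * (M + κ + 1)) * (M + κ + 1) := by gcongr
      _ = ε / 200 := by field_simp
  have hηM : 0 ≤ η * M := by positivity
  have hηκ : 0 ≤ η * κ := by positivity
  have hpi := Real.pi_gt_three
  have hpi2 := Real.pi_lt_d2
  obtain ⟨T0, hT0, h1⟩ := h.2 (ε / 100) (by positivity)
  obtain ⟨n1, hn1, h2⟩ := h.log_size hκ hη0
  obtain ⟨n2, hn2⟩ : ∃ n2 : ℕ, ∀ n : ℕ, n2 ≤ n → 1 ≤ Real.log n ∧ Real.log (2 * Real.pi) ≤ η * Real.log n ∧
      Real.log (T0 + 2) ≤ (1 - η) * Real.log n := by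
    have hl := Real.tendsto_log_atTop.comp tendsto_natCast_atTop_atTop
    have c1 := hl.eventually_ge_atTop 1
    have c2 := (hl.const_mul_atTop hη0).eventually_ge_atTop (Real.log (2 * Real.pi))
    have c3 := (hl.const_mul_atTop (show (0 : ℝ) < 1 - η by linarith)).eventually_ge_atTop (Real.log (T0 + 2))
    obtain ⟨n2, h⟩ := eventually_atTop.1 (c1.and (c2.and c3))
    exact ⟨n2, fun n hn => h n hn⟩
  obtain ⟨n3, hn3⟩ : ∃ n3 : ℕ, ∀ n : ℕ, n3 ≤ n → M * Real.log n ≤ n := by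
    have h3 := (Real.isLittleO_log_id_atTop.bound (show (0 : ℝ) < 1 / (M + 1) by positivity))
    have h4 : ∀ᶠ n : ℕ in atTop, ‖Real.log (n : ℝ)‖ ≤ 1 / (M + 1) * ‖(id (n : ℝ) : ℝ)‖ :=
      tendsto_natCast_atTop_atTop.eventually h3
    obtain ⟨n3, h⟩ := eventually_atTop.1 h4
    refine ⟨n3, fun n hn => ?_⟩
    have h5 := h n hn
    have hl : 0 ≤ Real.log (n : ℝ) := Real.log_natCast_nonneg n
    simp only [id, Real.norm_eq_abs, abs_of_nonneg hl, abs_of_nonneg (Nat.cast_nonneg n : (0:ℝ) ≤ n)] at h5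
    calc M * Real.log n ≤ (M + 1) * (1 / (M + 1) * n) := by
          apply mul_le_mul (by linarith) h5 hl (by linarith)
      _ = n := by field_simp
  refine ⟨max n1 (max n2 n3), le_max_of_le_left hn1, fun n hn k hk => ?_⟩
  have hna : n1 ≤ n := (le_max_left _ _).trans hn
  have hnb : n2 ≤ n := ((le_max_left _ _).trans (le_max_right _ _)).trans hn
  have hnc : n3 ≤ n := ((le_max_right _ _).trans (le_max_right _ _)).trans hn
  obtain ⟨hl1, hl2, hl3⟩ := hn2 n hnb
  have hkM : (k : ℝ) ≤ M * Real.log n := hk.trans (by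
    have : K ≤ M := by rw [hM]; exact le_max_left _ _
    gcongr)
  have hkn : k ≤ n := by exact_mod_cast hkM.trans (hn3 n hnc)
  obtain ⟨ha0, ha1, hb1⟩ := h2 n hna k hkn
  have hab : pnt N n ≤ pnt N (n + k) := h.mono hκ (by omega)
  obtain ⟨a, ha⟩ : ∃ a : ℝ, a = pnt N n := ⟨_, rfl⟩
  obtain ⟨b, hb⟩ : ∃ b : ℝ, b = pnt N (n + k) := ⟨_, rfl⟩
  obtain ⟨ℓ, hℓ⟩ : ∃ ℓ : ℝ, ℓ = Real.log n := ⟨_, rfl⟩
  rw [← ha, ← hb] at hab ⊢
  rw [← ha] at ha0 ha1
  rw [← hb] at hb1
  rw [← hℓ] at hl1 hl2 hl3 hkM ha1 hb1 ⊢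
  have hb0 : 0 < b := lt_of_lt_of_le ha0 hab
  have haT : T0 + 2 ≤ a := by
    have := hl3.trans ha1
    exact (Real.log_le_log_iff (by linarith) ha0).1 this
  have hℓ0 : 0 < ℓ := by linarith
  obtain ⟨x, hx⟩ : ∃ x : ℝ, x = 2 * Real.pi * k / ℓ := ⟨_, rfl⟩
  have hxℓ : x * ℓ = 2 * Real.pi * k := by rw [hx]; field_simp
  have hx0 : 0 ≤ x := by rw [hx]; positivity
  have hxM : x ≤ 7 * M := by
    rw [hx, div_le_iff₀ hℓ0]
    calc 2 * Real.pi * k ≤ 2 * Real.pi * (M * ℓ) := by gcongr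
      _ ≤ 7 * (M * ℓ) := by
        have : 0 ≤ M * ℓ := by positivity
        nlinarith
      _ = 7 * M * ℓ := by ring
  have hηx : η * x ≤ 7 * (η * M) := by nlinarith
  have hηx0 : 0 ≤ η * x := by positivity
  have hpη : Real.pi * (η * κ) ≤ 3.15 * (η * κ) := by nlinarith
  have hpη0 : 0 ≤ Real.pi * (η * κ) := by positivity
  have hpε : Real.pi * ε ≤ 3.15 * ε := by nlinarith
  have hηε : η * ε ≤ ε / 8 := by nlinarith
  have hpηε : Real.pi * (η * ε) ≤ 4 * (ε / 8) := by nlinarith [mul_pos hη0 hε]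
  have hp : (0 : ℝ) < 2 * Real.pi := by positivity
  have key : ∀ ν : ℝ, 0 < ν → ν < 1 → |b - a - x| ≤ 4 * Real.pi * κ + ε / 2 + 2 * ν := by
    intro ν hν hν1
    rw [abs_le]
    constructor
    · -- lower bound
      have c1 : N (a - ν) < n := by
        have := Cnt.below (N := N) (n := n) (T := a - ν) (by linarith) (by rw [← ha]; linarith)
        exact this
      have c2 : n + k ≤ N (b + ν) := h.above hκ (by rw [← hb]; linarith)
      have c3 := abs_le.1 (h1 (a - ν) (by linarith))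
      have c4 := abs_le.1 (h1 (b + ν) (by linarith))
      have c5 := (mt_diff (a := a - ν) (b := b + ν) (by linarith) (by linarith)).2
      have c1' : (N (a - ν) : ℝ) ≤ n := by exact_mod_cast c1.le
      have c2' : (n : ℝ) + k ≤ N (b + ν) := by exact_mod_cast c2
      have hlb : Real.log (b + ν) ≤ (1 + 2 * η) * ℓ := by
        have d1 : Real.log (b + ν) ≤ Real.log (2 * Real.pi * b) := by
          apply Real.log_le_log (by linarith)
          nlinarith
        rw [Real.log_mul hp.ne' hb0.ne'] at d1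
        nlinarith
      have hla : Real.log (a - ν) ≤ Real.log (b + ν) := Real.log_le_log (by linarith) (by linarith)
      have hlb2 : Real.log ((b + ν) / (2 * Real.pi)) ≤ Real.log (b + ν) := by
        apply Real.log_le_log (by positivity)
        apply div_le_self (by linarith) (by linarith)
      have hκε : 0 ≤ κ + ε / 100 := by positivity
      have e1 : (k : ℝ) ≤ (b + ν - (a - ν)) / (2 * Real.pi) * ((1 + 2 * η) * ℓ) +
          2 * ((κ + ε / 100) * ((1 + 2 * η) * ℓ)) := by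
        have f1 : (κ + ε / 100) * Real.log (a - ν) ≤ (κ + ε / 100) * ((1 + 2 * η) * ℓ) :=
          mul_le_mul_of_nonneg_left (hla.trans hlb) hκε
        have f2 : (κ + ε / 100) * Real.log (b + ν) ≤ (κ + ε / 100) * ((1 + 2 * η) * ℓ) :=
          mul_le_mul_of_nonneg_left hlb hκε
        have f3 : (b + ν - (a - ν)) / (2 * Real.pi) * Real.log ((b + ν) / (2 * Real.pi)) ≤
            (b + ν - (a - ν)) / (2 * Real.pi) * ((1 + 2 * η) * ℓ) := by
          apply mul_le_mul_of_nonneg_left (hlb2.trans hlb)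
          apply div_nonneg (by linarith) hp.le
        linarith [c3.2, c4.1]
      have e2 : x ≤ (b - a + 2 * ν) * (1 + 2 * η) + 4 * Real.pi * ((κ + ε / 100) * (1 + 2 * η)) := by
        have g1 : x * ℓ ≤ ((b - a + 2 * ν) * (1 + 2 * η) + 4 * Real.pi * ((κ + ε / 100) * (1 + 2 * η))) * ℓ := by
          rw [hxℓ]
          calc 2 * Real.pi * k ≤ 2 * Real.pi * ((b + ν - (a - ν)) / (2 * Real.pi) * ((1 + 2 * η) * ℓ) +
              2 * ((κ + ε / 100) * ((1 + 2 * η) * ℓ))) := by gcongr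
            _ = _ := by field_simp; ring
        exact le_of_mul_le_mul_right g1 hℓ0
      have e3 : x ≤ (b - a + 2 * ν + 4 * Real.pi * (κ + ε / 100)) * (1 + 2 * η) := by linarith
      have e4 : x * (1 - 2 * η) ≤ b - a + 2 * ν + 4 * Real.pi * (κ + ε / 100) := by
        obtain ⟨Y, hY⟩ : ∃ Y : ℝ, Y = b - a + 2 * ν + 4 * Real.pi * (κ + ε / 100) := ⟨_, rfl⟩
        have g0 : 0 ≤ Y := by
          rw [hY]
          have : 0 ≤ 4 * Real.pi * (κ + ε / 100) := by positivity
          linarith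
        rw [← hY] at e3 ⊢
        have g1 : x * (1 - 2 * η) ≤ Y * (1 + 2 * η) * (1 - 2 * η) :=
          mul_le_mul_of_nonneg_right e3 (by linarith)
        have g2 : Y * (1 + 2 * η) * (1 - 2 * η) = Y - 4 * (Y * (η * η)) := by ring
        have g3 : 0 ≤ Y * (η * η) := by positivity
        linarith
      have e5 : x * (1 - 2 * η) = x - 2 * (η * x) := by ring
      have e6 : 4 * Real.pi * (κ + ε / 100) = 4 * Real.pi * κ + (Real.pi * ε) / 25 := by ring
      have e7 : η * (M + κ + 1) = η * M + η * κ + η := by ring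
      rw [e5, e6] at e4
      rw [e7] at hηs
      linarith
    · -- upper bound
      rcases le_or_gt (b - ν) (a + ν) with hc | hc
      · have : 0 ≤ 4 * Real.pi * κ := by positivity
        linarith
      have c1 : n ≤ N (a + ν) := h.above hκ (by rw [← ha]; linarith)
      have c2 : N (b - ν) < n + k := Cnt.below (N := N) (by linarith) (by rw [← hb]; linarith)
      have c3 := abs_le.1 (h1 (a + ν) (by linarith))
      have c4 := abs_le.1 (h1 (b - ν) (by linarith))
      have c5 := (mt_diff (a := a + ν) (b := b - ν) (by linarith) hc.le).1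
      have c1' : (n : ℝ) ≤ N (a + ν) := by exact_mod_cast c1
      have c2' : (N (b - ν) : ℝ) ≤ n + k := by exact_mod_cast c2.le
      have hlb : Real.log (b - ν) ≤ (1 + η) * ℓ := (Real.log_le_log (by linarith) (by linarith)).trans hb1
      have hla : Real.log (a + ν) ≤ Real.log (b - ν) := Real.log_le_log (by linarith) hc.le
      have hla2 : (1 - 2 * η) * ℓ ≤ Real.log ((a + ν) / (2 * Real.pi)) := by
        rw [Real.log_div (by linarith) hp.ne']
        have : Real.log a ≤ Real.log (a + ν) := Real.log_le_log ha0 (by linarith)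
        linarith
      have hκε : 0 ≤ κ + ε / 100 := by positivity
      have e1 : (b - ν - (a + ν)) / (2 * Real.pi) * ((1 - 2 * η) * ℓ) ≤ k + 2 * ((κ + ε / 100) * ((1 + η) * ℓ)) := by
        have f1 : (κ + ε / 100) * Real.log (a + ν) ≤ (κ + ε / 100) * ((1 + η) * ℓ) :=
          mul_le_mul_of_nonneg_left (hla.trans hlb) hκε
        have f2 : (κ + ε / 100) * Real.log (b - ν) ≤ (κ + ε / 100) * ((1 + η) * ℓ) :=
          mul_le_mul_of_nonneg_left hlb hκε
        have f3 : (b - ν - (a + ν)) / (2 * Real.pi) * ((1 - 2 * η) * ℓ) ≤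
            (b - ν - (a + ν)) / (2 * Real.pi) * Real.log ((a + ν) / (2 * Real.pi)) := by
          apply mul_le_mul_of_nonneg_left hla2
          apply div_nonneg (by linarith) hp.le
        linarith [c3.1, c4.2]
      have e2 : (b - a - 2 * ν) * (1 - 2 * η) ≤ x + 4 * Real.pi * ((κ + ε / 100) * (1 + η)) := by
        have g1 : ((b - a - 2 * ν) * (1 - 2 * η)) * ℓ ≤ (x + 4 * Real.pi * ((κ + ε / 100) * (1 + η))) * ℓ := by
          have : (b - a - 2 * ν) * (1 - 2 * η) * ℓ =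
              2 * Real.pi * ((b - ν - (a + ν)) / (2 * Real.pi) * ((1 - 2 * η) * ℓ)) := by field_simp; ring
          rw [this]
          calc 2 * Real.pi * ((b - ν - (a + ν)) / (2 * Real.pi) * ((1 - 2 * η) * ℓ)) ≤
              2 * Real.pi * (k + 2 * ((κ + ε / 100) * ((1 + η) * ℓ))) := by gcongr
            _ = x * ℓ + 4 * Real.pi * ((κ + ε / 100) * (1 + η)) * ℓ := by rw [hxℓ]; ring
            _ = _ := by ring
        exact le_of_mul_le_mul_right g1 hℓ0
      have e3 : (b - a - 2 * ν) * (1 - 2 * η) ≤ (x + 4 * Real.pi * κ + ε / 2) * (1 - 2 * η) := by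
        refine e2.trans ?_
        have e5 : (x + 4 * Real.pi * κ + ε / 2) * (1 - 2 * η) - (x + 4 * Real.pi * ((κ + ε / 100) * (1 + η))) =
            ε / 2 - η * ε - (Real.pi * ε) / 25 - (Real.pi * (η * ε)) / 25 - 2 * (η * x) -
              12 * (Real.pi * (η * κ)) := by ring
        have e7 : η * (M + κ + 1) = η * M + η * κ + η := by ring
        rw [e7] at hηs
        have e8 : 0 ≤ ε / 2 - η * ε - (Real.pi * ε) / 25 - (Real.pi * (η * ε)) / 25 - 2 * (η * x) -
              12 * (Real.pi * (η * κ)) := by linarith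
        linarith
      have e4 := le_of_mul_le_mul_right e3 (by linarith : (0:ℝ) < 1 - 2 * η)
      linarith
  have := key (min (ε / 4) (1 / 2)) (by positivity) (by
    have := min_le_right (ε / 4) (1 / 2 : ℝ)
    linarith)
  have h5 := min_le_left (ε / 4) (1 / 2 : ℝ)
  rw [hx] at this
  linarith

end Count

end Pool.Agent.H572.ST
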