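import Mathlib

/-!
# The kernel of a strip: the contribution of one zero to the argument and to the logarithm
-/

set_option autoImplicit false

open Filter Topology Set MeasureTheory

namespace Pool.Agent.H572.ST

/-- the normal derivative of Green's function of a strip -/
noncomputable def Q (p τ : ℝ) : ℝ := p * Real.cosh τ / (p ^ 2 + Real.sinh τ ^ 2)

lemma Q_abs (p τ : ℝ) : Q p |τ| = Q p τ := by
  unfold Q
  rw [Real.cosh_abs]
  congr 2
  rcases abs_choice τ with h | h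
  · rw [h]
  · rw [h, Real.sinh_neg]; ring

lemma Q_nonneg {p τ : ℝ} (hp : 0 ≤ p) : 0 ≤ Q p τ := by
  unfold Q
  have := Real.cosh_pos τ
  positivity

/-- `P(τ + r) cosh r ≤ P(τ)` -/
lemma Q_step {p τ r : ℝ} (hp : 0 < p) (hp1 : p ≤ 1) (hτ : 0 ≤ τ) (hr : 0 ≤ r) :
    Q p (τ + r) ≤ Q p τ / Real.cosh r := by
  unfold Q
  have hcr := Real.cosh_pos r
  have hcτ := Real.cosh_pos τ
  have hcT := Real.cosh_pos (τ + r)
  have h1 : Real.cosh τ * Real.cosh r ≤ Real.cosh (τ + r) := by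
    rw [Real.cosh_add]
    have h2 := Real.sinh_nonneg_iff.2 hτ
    have h3 := Real.sinh_nonneg_iff.2 hr
    nlinarith
  have hA : 1 ≤ Real.cosh τ := Real.one_le_cosh τ
  have hAB : Real.cosh τ ≤ Real.cosh (τ + r) := by
    rw [Real.cosh_le_cosh, abs_of_nonneg hτ, abs_of_nonneg (by linarith)]
    linarith
  obtain ⟨A, hAe⟩ : ∃ A : ℝ, A = Real.cosh τ := ⟨_, rfl⟩
  obtain ⟨B, hBe⟩ : ∃ B : ℝ, B = Real.cosh (τ + r) := ⟨_, rfl⟩
  obtain ⟨D, hDe⟩ : ∃ D : ℝ, D = Real.cosh r := ⟨_, rfl⟩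
  have e1 : p ^ 2 + Real.sinh τ ^ 2 = A ^ 2 - (1 - p ^ 2) := by
    rw [hAe, Real.cosh_sq]; ring
  have e2 : p ^ 2 + Real.sinh (τ + r) ^ 2 = B ^ 2 - (1 - p ^ 2) := by
    rw [hBe, Real.cosh_sq]; ring
  rw [e1, e2, ← hAe, ← hBe, ← hDe]
  rw [← hAe] at hA h1 hAB
  rw [← hBe] at h1 hAB
  rw [← hDe] at h1 hcr
  have hk0 : 0 ≤ 1 - p ^ 2 := by nlinarith
  have hp2 : 0 < p ^ 2 := by positivity
  have hk1 : 0 < A ^ 2 - (1 - p ^ 2) := by nlinarith
  have hk2 : 0 < B ^ 2 - (1 - p ^ 2) := by nlinarith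
  rw [div_div, div_le_div_iff₀ hk2 (by positivity)]
  have h5 : B * D * (A ^ 2 - (1 - p ^ 2)) ≤ A * (B ^ 2 - (1 - p ^ 2)) := by
    -- `B D A² ≤ A B²` and `A ≤ B D`
    have h6 : A * D ≤ B := h1
    have hA0 : 0 < A := by linarith
    have hB0 : 0 < B := by linarith
    have h7 : B * D * A ^ 2 ≤ A * B ^ 2 := by
      have : A * B * (A * D) ≤ A * B * B := by gcongr
      nlinarith
    have hD1 : 1 ≤ D := by rw [hDe]; exact Real.one_le_cosh r
    have h8 : A ≤ B * D := by nlinarith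
    nlinarith
  nlinarith

lemma tendsto_sinh : Tendsto Real.sinh atTop atTop := by
  refine tendsto_atTop_mono' atTop ?_ tendsto_id
  filter_upwards [eventually_ge_atTop 0] with x hx
  exact Real.self_le_sinh_iff.2 hx

lemma hasDerivAt_arc {p τ r : ℝ} (h : Real.sinh (τ + r) ≠ 0) :
    HasDerivAt (fun r => Real.arctan (p / Real.sinh (τ + r))) (-Q p (τ + r)) r := by
  have h1 : HasDerivAt (fun r : ℝ => Real.sinh (τ + r)) (Real.cosh (τ + r)) r := by
    exact (Real.hasDerivAt_sinh (τ + r)).comp_const_add τ r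
  have h2 : HasDerivAt (fun r => Real.arctan (p / Real.sinh (τ + r)))
      (1 / (1 + (p / Real.sinh (τ + r)) ^ 2) * ((0 * Real.sinh (τ + r) - p * Real.cosh (τ + r)) /
        Real.sinh (τ + r) ^ 2)) r := ((hasDerivAt_const r p).div h1 h).arctan
  refine h2.congr_deriv ?_
  unfold Q
  have h3 : 0 < Real.sinh (τ + r) ^ 2 := by positivity
  have h4 : p ^ 2 + Real.sinh (τ + r) ^ 2 ≠ 0 := by positivity
  have h5 : 1 + (p / Real.sinh (τ + r)) ^ 2 ≠ 0 := by positivity
  field_simp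
  ring

lemma tendsto_arc (p τ : ℝ) : Tendsto (fun r => Real.arctan (p / Real.sinh (τ + r))) atTop (𝓝 0) := by
  have h1 : Tendsto (fun r : ℝ => Real.sinh (τ + r)) atTop atTop :=
    tendsto_sinh.comp (tendsto_atTop_add_const_left atTop τ tendsto_id)
  have h2 : Tendsto (fun r : ℝ => p / Real.sinh (τ + r)) atTop (𝓝 0) := h1.const_div_atTop p
  have h3 := (Real.continuous_arctan.tendsto 0).comp h2
  rwa [Real.arctan_zero] at h3

lemma Q_one_zero (r : ℝ) : Q 1 (0 + r) = 1 / Real.cosh r := by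
  unfold Q
  have := Real.cosh_pos r
  rw [zero_add, one_pow, ← Real.cosh_sq']
  field_simp

/-- **The inequality for one zero.** -/
theorem arc_le {p τ r : ℝ} (hp : 0 < p) (hp1 : p ≤ 1) (hτ : 0 ≤ τ) (hr : 0 < r) :
    Real.arctan (p / Real.sinh (τ + r)) ≤ Q p τ * Real.arctan (1 / Real.sinh r) := by
  obtain ⟨f, hf⟩ : ∃ f : ℝ → ℝ, f = fun r => Q p τ * Real.arctan (1 / Real.sinh (0 + r)) -
      Real.arctan (p / Real.sinh (τ + r)) := ⟨_, rfl⟩
  have hder : ∀ x : ℝ, 0 < x → HasDerivAt f (Q p τ * (-Q 1 (0 + x)) - (-Q p (τ + x))) x := by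
    intro x hx
    rw [hf]
    refine ((hasDerivAt_arc (p := 1) (τ := 0) (r := x) ?_).const_mul _).sub (hasDerivAt_arc ?_)
    · exact (Real.sinh_pos_iff.2 (by linarith)).ne'
    · exact (Real.sinh_pos_iff.2 (by linarith)).ne'
  have hanti : AntitoneOn f (Ioi 0) := by
    apply antitoneOn_of_deriv_nonpos (convex_Ioi 0)
    · intro x hx
      exact (hder x hx).continuousAt.continuousWithinAt
    · rw [interior_Ioi]
      intro x hx
      exact (hder x hx).differentiableAt.differentiableWithinAt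
    · rw [interior_Ioi]
      intro x hx
      rw [(hder x hx).deriv, Q_one_zero]
      have := Q_step hp hp1 hτ (le_of_lt hx)
      have e : Q p τ * -(1 / Real.cosh x) - -Q p (τ + x) = Q p (τ + x) - Q p τ / Real.cosh x := by ring
      rw [e]
      linarith
  have hlim : Tendsto f atTop (𝓝 0) := by
    rw [hf]
    have := ((tendsto_arc 1 0).const_mul (Q p τ)).sub (tendsto_arc p τ)
    simpa using this
  have h0 : 0 ≤ f r := by
    refine le_of_tendsto hlim ?_
    filter_upwards [eventually_gt_atTop r] with x hx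
    exact hanti hr (hr.trans hx) hx.le
  rw [hf] at h0
  simp only [zero_add] at h0
  linarith

/-- the argument of one zero is at most `π / 2` times its share of the conductor -/
theorem arc_le_pi {p τ : ℝ} (hp : 0 < p) (hp1 : p ≤ 1) (hτ : 0 < τ) :
    Real.arctan (p / Real.sinh τ) ≤ Real.pi / 2 * Q p τ := by
  have hs : 0 < Real.sinh τ := Real.sinh_pos_iff.2 hτ
  have hq : 0 < p / Real.sinh τ := by positivity
  have h0 : 0 ≤ Real.arctan (p / Real.sinh τ) := Real.arctan_nonneg.2 hq.le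
  have h1 := Real.mul_le_sin h0 (Real.arctan_lt_pi_div_two _).le
  rw [Real.sin_arctan] at h1
  have h2 : p / Real.sinh τ / √(1 + (p / Real.sinh τ) ^ 2) ≤ Q p τ := by
    unfold Q
    have hc := Real.cosh_pos τ
    have hD : 0 < p ^ 2 + Real.sinh τ ^ 2 := by positivity
    have e1 : √(1 + (p / Real.sinh τ) ^ 2) = √(p ^ 2 + Real.sinh τ ^ 2) / Real.sinh τ := by
      have : 1 + (p / Real.sinh τ) ^ 2 = (p ^ 2 + Real.sinh τ ^ 2) / Real.sinh τ ^ 2 := by
        field_simp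
        ring
      rw [this, Real.sqrt_div' _ (by positivity), Real.sqrt_sq hs.le]
    rw [e1, div_div_div_cancel_right₀ hs.ne', div_le_div_iff₀ (Real.sqrt_pos.2 hD) hD]
    have h3 : √(p ^ 2 + Real.sinh τ ^ 2) ≤ Real.cosh τ := by
      rw [Real.sqrt_le_left hc.le, Real.cosh_sq]
      nlinarith
    have h4 : √(p ^ 2 + Real.sinh τ ^ 2) * √(p ^ 2 + Real.sinh τ ^ 2) = p ^ 2 + Real.sinh τ ^ 2 :=
      Real.mul_self_sqrt hD.le
    have h5 := Real.sqrt_nonneg (p ^ 2 + Real.sinh τ ^ 2)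
    calc p * (p ^ 2 + Real.sinh τ ^ 2) = p * √(p ^ 2 + Real.sinh τ ^ 2) * √(p ^ 2 + Real.sinh τ ^ 2) := by
          rw [mul_assoc, h4]
      _ ≤ p * Real.cosh τ * √(p ^ 2 + Real.sinh τ ^ 2) := by gcongr
  have hpi := Real.pi_pos
  have h3 : 2 / Real.pi * Real.arctan (p / Real.sinh τ) ≤ Q p τ := h1.trans h2
  calc Real.arctan (p / Real.sinh τ) = Real.pi / 2 * (2 / Real.pi * Real.arctan (p / Real.sinh τ)) := by
        field_simp
    _ ≤ _ := by gcongr

/-- both signs -/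
theorem abs_arc_le {p v : ℝ} (hp : 0 < p) (hp1 : p ≤ 1) (hv : v ≠ 0) :
    |Real.arctan (p / Real.sinh v)| ≤ Real.pi / 2 * Q p v := by
  rcases lt_or_gt_of_ne hv with h | h
  · have h1 := arc_le_pi hp hp1 (τ := -v) (by linarith)
    have e1 : Q p (-v) = Q p v := by rw [← Q_abs p (-v), abs_neg, Q_abs]
    rw [Real.sinh_neg, div_neg, Real.arctan_neg, e1] at h1
    have h2 : Real.arctan (p / Real.sinh v) ≤ 0 := by
      rw [← Real.arctan_zero]
      exact Real.arctan_mono (div_nonpos_of_nonneg_of_nonpos hp.le (Real.sinh_nonpos_iff.2 h.le))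
    rw [abs_of_nonpos h2]
    exact h1
  · have h1 := arc_le_pi hp hp1 h
    rw [abs_of_nonneg (Real.arctan_nonneg.2 (div_nonneg hp.le (Real.sinh_nonneg_iff.2 h.le)))]
    exact h1

end Pool.Agent.H572.ST
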