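import Pool.Agent.H572.ST.Ker

/-!
# The logarithmic derivative and the logarithm of `tan (c (z - ρ))` on the real axis
-/

set_option autoImplicit false

open Filter Topology Set MeasureTheory

namespace Pool.Agent.H572.ST

/-- the logarithmic derivative of `tan (c (z - ρ))` -/
noncomputable def Kc (c : ℝ) (ρ z : ℂ) : ℂ := 2 * c / Complex.sin (2 * c * (z - ρ))

lemma sin_re (w : ℂ) : (Complex.sin w).re = Real.sin w.re * Real.cosh w.im := by
  rw [Complex.sin_eq]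
  simp [← Complex.ofReal_sin, ← Complex.ofReal_cos, ← Complex.ofReal_sinh, ← Complex.ofReal_cosh]

lemma sin_im (w : ℂ) : (Complex.sin w).im = Real.cos w.re * Real.sinh w.im := by
  rw [Complex.sin_eq]
  simp [← Complex.ofReal_sin, ← Complex.ofReal_cos, ← Complex.ofReal_sinh, ← Complex.ofReal_cosh]

lemma cos_re (w : ℂ) : (Complex.cos w).re = Real.cos w.re * Real.cosh w.im := by
  rw [Complex.cos_eq]
  simp [← Complex.ofReal_sin, ← Complex.ofReal_cos, ← Complex.ofReal_sinh, ← Complex.ofReal_cosh]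

lemma cos_im (w : ℂ) : (Complex.cos w).im = -(Real.sin w.re * Real.sinh w.im) := by
  rw [Complex.cos_eq]
  simp [← Complex.ofReal_sin, ← Complex.ofReal_cos, ← Complex.ofReal_sinh, ← Complex.ofReal_cosh]

lemma normSq_sin (w : ℂ) : Complex.normSq (Complex.sin w) = Real.sin w.re ^ 2 + Real.sinh w.im ^ 2 := by
  rw [Complex.normSq_apply, sin_re, sin_im]
  have h1 := Real.sin_sq_add_cos_sq w.re
  have h2 := Real.cosh_sq w.im
  have h3 : Real.cos w.re ^ 2 = 1 - Real.sin w.re ^ 2 := by linarith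
  calc Real.sin w.re * Real.cosh w.im * (Real.sin w.re * Real.cosh w.im) +
        Real.cos w.re * Real.sinh w.im * (Real.cos w.re * Real.sinh w.im)
      = Real.sin w.re ^ 2 * Real.cosh w.im ^ 2 + Real.cos w.re ^ 2 * Real.sinh w.im ^ 2 := by ring
    _ = _ := by rw [h2, h3]; ring

lemma normSq_cos (w : ℂ) : Complex.normSq (Complex.cos w) = Real.cos w.re ^ 2 + Real.sinh w.im ^ 2 := by
  rw [Complex.normSq_apply, cos_re, cos_im]
  have h1 := Real.sin_sq_add_cos_sq w.re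
  have h2 := Real.cosh_sq w.im
  have h3 : Real.sin w.re ^ 2 = 1 - Real.cos w.re ^ 2 := by linarith
  calc Real.cos w.re * Real.cosh w.im * (Real.cos w.re * Real.cosh w.im) +
        -(Real.sin w.re * Real.sinh w.im) * -(Real.sin w.re * Real.sinh w.im)
      = Real.cos w.re ^ 2 * Real.cosh w.im ^ 2 + Real.sin w.re ^ 2 * Real.sinh w.im ^ 2 := by ring
    _ = _ := by rw [h2, h3]; ring

section
variable (c x : ℝ) (ρ : ℂ)

lemma arg_re : (2 * (c : ℂ) * ((x : ℂ) - ρ)).re = 2 * c * (x - ρ.re) := by simp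
lemma arg_im : (2 * (c : ℂ) * ((x : ℂ) - ρ)).im = -(2 * c * ρ.im) := by simp

lemma Kc_re : (Kc c ρ x).re = 2 * c * Q (Real.sin (2 * c * (x - ρ.re))) (2 * c * ρ.im) := by
  unfold Kc Q
  have e : (2 * (c : ℂ)) = ((2 * c : ℝ) : ℂ) := by push_cast; ring
  rw [Complex.div_re, normSq_sin, sin_re, sin_im, arg_re, arg_im, Real.cosh_neg, Real.sinh_neg]
  rw [e, Complex.ofReal_re, Complex.ofReal_im]
  ring

lemma Kc_im : (Kc c ρ x).im = 2 * c * (Real.cos (2 * c * (x - ρ.re)) * Real.sinh (2 * c * ρ.im)) /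
    (Real.sin (2 * c * (x - ρ.re)) ^ 2 + Real.sinh (2 * c * ρ.im) ^ 2) := by
  unfold Kc
  have e : (2 * (c : ℂ)) = ((2 * c : ℝ) : ℂ) := by push_cast; ring
  rw [Complex.div_im, normSq_sin, sin_re, sin_im, arg_re, arg_im, Real.cosh_neg, Real.sinh_neg]
  rw [e, Complex.ofReal_re, Complex.ofReal_im]
  ring

end

lemma hasDerivAt_arcsin {c x x₀ v : ℝ} (hv : v ≠ 0) :
    HasDerivAt (fun x => Real.arctan (Real.sin (2 * c * (x - x₀)) / Real.sinh v))
      (2 * c * (Real.cos (2 * c * (x - x₀)) * Real.sinh v) /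
        (Real.sin (2 * c * (x - x₀)) ^ 2 + Real.sinh v ^ 2)) x := by
  have hs : Real.sinh v ≠ 0 := Real.sinh_ne_zero.2 hv
  have h1 : HasDerivAt (fun x : ℝ => 2 * c * (x - x₀)) (2 * c) x := by
    have := ((hasDerivAt_id x).sub_const x₀).const_mul (2 * c)
    simpa using this
  have h2 := (h1.sin.div_const (Real.sinh v)).arctan
  refine h2.congr_deriv ?_
  have h3 : 0 < Real.sinh v ^ 2 := by positivity
  have h4 : Real.sin (2 * c * (x - x₀)) ^ 2 + Real.sinh v ^ 2 ≠ 0 := by positivity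
  have h5 : 1 + (Real.sin (2 * c * (x - x₀)) / Real.sinh v) ^ 2 ≠ 0 := by positivity
  field_simp
  ring

/-- the variation of the argument of one factor -/
theorem int_Kc_im {c x₁ : ℝ} {ρ : ℂ} (hc : 0 < c) (hρ : ρ.im ≠ 0) :
    ∫ x in (-x₁)..x₁, (Kc c ρ x).im =
      Real.arctan (Real.sin (2 * c * (x₁ - ρ.re)) / Real.sinh (2 * c * ρ.im)) +
      Real.arctan (Real.sin (2 * c * (x₁ + ρ.re)) / Real.sinh (2 * c * ρ.im)) := by
  have hv : 2 * c * ρ.im ≠ 0 := by positivity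
  simp only [Kc_im]
  rw [intervalIntegral.integral_eq_sub_of_hasDerivAt
    (f := fun x => Real.arctan (Real.sin (2 * c * (x - ρ.re)) / Real.sinh (2 * c * ρ.im)))
    (fun x _ => hasDerivAt_arcsin hv)]
  · have e : 2 * c * (-x₁ - ρ.re) = -(2 * c * (x₁ + ρ.re)) := by ring
    rw [e, Real.sin_neg, neg_div, Real.arctan_neg]
    ring
  · apply Continuous.intervalIntegrable
    have hs : Real.sinh (2 * c * ρ.im) ≠ 0 := Real.sinh_ne_zero.2 hv
    refine Continuous.div (by fun_prop) (by fun_prop) fun x => ?_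
    positivity

theorem abs_int_Kc_im {c x₁ a : ℝ} {ρ : ℂ} (hc : 0 < c) (hρ : ρ.im ≠ 0) (hca : 2 * c * (2 * a) = Real.pi)
    (hx : |ρ.re| < x₁) (hx2 : x₁ + |ρ.re| < 2 * a) :
    |∫ x in (-x₁)..x₁, (Kc c ρ x).im| ≤ Real.pi / (4 * c) * ((Kc c ρ x₁).re - (Kc c ρ (-x₁ : ℝ)).re) := by
  have hv : 2 * c * ρ.im ≠ 0 := by positivity
  have h1 := abs_lt.1 hx
  have hsp : ∀ u : ℝ, 0 < u → u < 2 * a → 0 < Real.sin (2 * c * u) ∧ Real.sin (2 * c * u) ≤ 1 := by
    intro u hu0 hu1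
    refine ⟨Real.sin_pos_of_pos_of_lt_pi (by positivity) ?_, Real.sin_le_one _⟩
    rw [← hca]
    gcongr
  have hA := hsp (x₁ - ρ.re) (by linarith) (by linarith [neg_abs_le ρ.re])
  have hB := hsp (x₁ + ρ.re) (by linarith) (by linarith [le_abs_self ρ.re])
  rw [int_Kc_im hc hρ]
  refine (abs_add_le _ _).trans ((add_le_add (abs_arc_le hA.1 hA.2 hv) (abs_arc_le hB.1 hB.2 hv)).trans
    (le_of_eq ?_))
  rw [Kc_re, Kc_re]
  have e : 2 * c * ((-x₁) - ρ.re) = -(2 * c * (x₁ + ρ.re)) := by ring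
  rw [e, Real.sin_neg]
  have e2 : ∀ p v : ℝ, Q (-p) v = -Q p v := by
    intro p v
    unfold Q
    rw [neg_sq]; ring
  rw [e2]
  field_simp
  ring

lemma Kc_re_nonneg {c x₁ a : ℝ} {ρ : ℂ} (hc : 0 < c) (hca : 2 * c * (2 * a) = Real.pi)
    (hx : |ρ.re| < x₁) (hx2 : x₁ + |ρ.re| < 2 * a) :
    0 ≤ (Kc c ρ x₁).re ∧ (Kc c ρ (-x₁ : ℝ)).re ≤ 0 := by
  have h1 := abs_lt.1 hx
  have hsp : ∀ u : ℝ, 0 < u → u < 2 * a → 0 < Real.sin (2 * c * u) := by
    intro u hu0 hu1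
    refine Real.sin_pos_of_pos_of_lt_pi (by positivity) ?_
    rw [← hca]
    gcongr
  have hA := hsp (x₁ - ρ.re) (by linarith) (by linarith [neg_abs_le ρ.re])
  have hB := hsp (x₁ + ρ.re) (by linarith) (by linarith [le_abs_self ρ.re])
  rw [Kc_re, Kc_re]
  have e : 2 * c * ((-x₁) - ρ.re) = -(2 * c * (x₁ + ρ.re)) := by ring
  rw [e, Real.sin_neg]
  have e2 : ∀ p v : ℝ, Q (-p) v = -Q p v := by
    intro p v
    unfold Q
    rw [neg_sq]; ring
  rw [e2]
  have := Q_nonneg (τ := 2 * c * ρ.im) hA.le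
  have := Q_nonneg (τ := 2 * c * ρ.im) hB.le
  constructor
  · positivity
  · nlinarith

end Pool.Agent.H572.ST
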