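import Pool.Agent.H572.ST.Ker2

/-!
# The mean of the logarithm of one factor
-/

set_option autoImplicit false

open Filter Topology Set MeasureTheory

namespace Pool.Agent.H572.ST

/-- `- log |tan (c (z - ρ))|` -/
noncomputable def lt (c : ℝ) (ρ z : ℂ) : ℝ :=
  Real.log ‖Complex.cos (c * (z - ρ))‖ - Real.log ‖Complex.sin (c * (z - ρ))‖

/-- twice Catalan's constant -/
noncomputable def I2 : ℝ := ∫ r in Ioi (0 : ℝ), Real.arctan (1 / Real.sinh r)

lemma log_norm_eq (w : ℂ) : Real.log ‖w‖ = Real.log (Complex.normSq w) / 2 := by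
  rw [Complex.normSq_eq_norm_sq, Real.log_pow]
  push_cast
  ring

lemma lt_formula {c : ℝ} {ρ z : ℂ} (h : 2 * c * (z.im - ρ.im) ≠ 0) :
    lt c ρ z = (Real.log (Real.cosh (2 * c * (z.im - ρ.im)) + Real.cos (2 * c * (z.re - ρ.re))) -
      Real.log (Real.cosh (2 * c * (z.im - ρ.im)) - Real.cos (2 * c * (z.re - ρ.re)))) / 2 := by
  unfold lt
  rw [log_norm_eq, log_norm_eq, normSq_cos, normSq_sin]
  have e1 : ((c : ℂ) * (z - ρ)).re = c * (z.re - ρ.re) := by simp
  have e2 : ((c : ℂ) * (z - ρ)).im = c * (z.im - ρ.im) := by simp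
  rw [e1, e2]
  obtain ⟨α, hα⟩ : ∃ α : ℝ, α = c * (z.re - ρ.re) := ⟨_, rfl⟩
  obtain ⟨β, hβ⟩ : ∃ β : ℝ, β = c * (z.im - ρ.im) := ⟨_, rfl⟩
  have e3 : 2 * c * (z.re - ρ.re) = 2 * α := by rw [hα]; ring
  have e4 : 2 * c * (z.im - ρ.im) = 2 * β := by rw [hβ]; ring
  rw [e3, e4, ← hα, ← hβ]
  rw [e4] at h
  have hβ0 : β ≠ 0 := fun h0 => h (by rw [h0, mul_zero])
  have hs : 0 < Real.sinh β ^ 2 := by
    have := Real.sinh_ne_zero.2 hβ0
    positivity
  have f1 : Real.cosh (2 * β) = 2 * Real.sinh β ^ 2 + 1 := by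
    rw [Real.cosh_two_mul, Real.cosh_sq]; ring
  have f2 : Real.cos (2 * α) = 2 * Real.cos α ^ 2 - 1 := Real.cos_two_mul α
  have f3 : Real.sin α ^ 2 = 1 - Real.cos α ^ 2 := by
    have := Real.sin_sq_add_cos_sq α
    linarith
  have g1 : Real.cos α ^ 2 + Real.sinh β ^ 2 = (Real.cosh (2 * β) + Real.cos (2 * α)) / 2 := by
    rw [f1, f2]; ring
  have g2 : Real.sin α ^ 2 + Real.sinh β ^ 2 = (Real.cosh (2 * β) - Real.cos (2 * α)) / 2 := by
    rw [f1, f2, f3]; ring
  have h1 : 0 < Real.cosh (2 * β) + Real.cos (2 * α) := by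
    have : 0 < Real.cos α ^ 2 + Real.sinh β ^ 2 := by positivity
    linarith
  have h2 : 0 < Real.cosh (2 * β) - Real.cos (2 * α) := by
    have : 0 < Real.sin α ^ 2 + Real.sinh β ^ 2 := by positivity
    linarith
  rw [g1, g2, Real.log_div h1.ne' (by norm_num), Real.log_div h2.ne' (by norm_num)]
  ring

/-- the density -/
noncomputable def hh (u w : ℝ) : ℝ := Real.cos u * Real.sinh w / (Real.sin u ^ 2 + Real.sinh w ^ 2)

lemma cosh_gt_cos {u w : ℝ} (hw : w ≠ 0) : 0 < Real.cosh w + Real.cos u ∧ 0 < Real.cosh w - Real.cos u := by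
  have h1 : 1 < Real.cosh w := Real.one_lt_cosh.2 hw
  have h2 := Real.cos_le_one u
  have h3 := Real.neg_one_le_cos u
  constructor <;> linarith

lemma hasDerivAt_Phi {u w : ℝ} (hw : w ≠ 0) :
    HasDerivAt (fun w => -((Real.log (Real.cosh w + Real.cos u) - Real.log (Real.cosh w - Real.cos u)) / 2))
      (hh u w) w := by
  obtain ⟨h1, h2⟩ := cosh_gt_cos (u := u) hw
  have d1 : HasDerivAt (fun w => Real.cosh w + Real.cos u) (Real.sinh w) w :=
    (Real.hasDerivAt_cosh w).add_const _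
  have d2 : HasDerivAt (fun w => Real.cosh w - Real.cos u) (Real.sinh w) w :=
    (Real.hasDerivAt_cosh w).sub_const _
  have d3 := (((d1.log h1.ne').sub (d2.log h2.ne')).div_const 2).neg
  refine d3.congr_deriv ?_
  unfold hh
  have e : Real.sin u ^ 2 + Real.sinh w ^ 2 = (Real.cosh w + Real.cos u) * (Real.cosh w - Real.cos u) := by
    have h3 := Real.sin_sq_add_cos_sq u
    have h4 := Real.cosh_sq w
    nlinarith
  rw [e]
  field_simp
  ring

lemma tendsto_Phi (u : ℝ) :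
    Tendsto (fun w => -((Real.log (Real.cosh w + Real.cos u) - Real.log (Real.cosh w - Real.cos u)) / 2))
      atTop (𝓝 0) := by
  have hc : Tendsto Real.cosh atTop atTop :=
    tendsto_atTop_mono (fun x => (Real.sinh_lt_cosh x).le) tendsto_sinh
  have h1 : Tendsto (fun w => 2 * Real.cos u / (Real.cosh w - Real.cos u)) atTop (𝓝 0) :=
    (tendsto_atTop_add_const_right atTop (-Real.cos u) hc).const_div_atTop _
  have h2 : Tendsto (fun w => Real.log (1 + 2 * Real.cos u / (Real.cosh w - Real.cos u))) atTop (𝓝 0) := by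
    have := (h1.const_add 1).log (by norm_num)
    simpa using this
  have h3 : Tendsto (fun w => -(Real.log (1 + 2 * Real.cos u / (Real.cosh w - Real.cos u)) / 2)) atTop (𝓝 0) := by
    have := (h2.div_const 2).neg
    simpa using this
  refine h3.congr' ?_
  filter_upwards [eventually_gt_atTop 0] with w hw
  obtain ⟨k1, k2⟩ := cosh_gt_cos (u := u) hw.ne'
  rw [← Real.log_div k1.ne' k2.ne']
  congr 3
  field_simp
  ring

lemma hh_bound {u w v₀ : ℝ} (hv : 0 < v₀) (hw : v₀ ≤ w) :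
    |hh u w| ≤ 2 / (1 - Real.exp (-(2 * v₀))) * Real.exp (-w) := by
  have hw0 : 0 < w := by linarith
  have hs : 0 < Real.sinh w := Real.sinh_pos_iff.2 hw0
  have h1 : |hh u w| ≤ 1 / Real.sinh w := by
    unfold hh
    rw [abs_div, abs_mul, abs_of_pos hs, abs_of_nonneg (by positivity : 0 ≤ Real.sin u ^ 2 + Real.sinh w ^ 2),
      div_le_div_iff₀ (by positivity) hs]
    have h2 := Real.abs_cos_le_one u
    have h3 := sq_nonneg (Real.sin u)
    calc |Real.cos u| * Real.sinh w * Real.sinh w ≤ 1 * Real.sinh w * Real.sinh w := by gcongr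
      _ ≤ _ := by nlinarith
  refine h1.trans ?_
  have h4 : Real.exp (-(2 * v₀)) < 1 := by rw [Real.exp_lt_one_iff]; linarith
  have h5 : Real.exp w * (1 - Real.exp (-(2 * v₀))) / 2 ≤ Real.sinh w := by
    rw [Real.sinh_eq]
    have h6 : Real.exp (-w) ≤ Real.exp w * Real.exp (-(2 * v₀)) := by
      rw [← Real.exp_add]
      apply Real.exp_le_exp.2
      linarith
    linarith
  have h7 : 0 < 1 - Real.exp (-(2 * v₀)) := by linarith
  have h8 := Real.exp_pos w
  have h9 : Real.exp (-w) = (Real.exp w)⁻¹ := Real.exp_neg w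
  rw [h9, div_le_iff₀ hs]
  obtain ⟨E, hE⟩ : ∃ E : ℝ, E = 1 - Real.exp (-(2 * v₀)) := ⟨_, rfl⟩
  rw [← hE] at h5 h7 ⊢
  calc (1 : ℝ) = 2 / E * (Real.exp w)⁻¹ * (Real.exp w * E / 2) := by
        field_simp
    _ ≤ _ := by gcongr

lemma hh_meas : Measurable fun p : ℝ × ℝ => hh p.1 p.2 := by
  unfold hh
  fun_prop

lemma integrableOn_hh {u v₀ : ℝ} (hv : 0 < v₀) : IntegrableOn (hh u) (Ioi v₀) := by
  have h1 : IntegrableOn (fun w : ℝ => 2 / (1 - Real.exp (-(2 * v₀))) * Real.exp (-w)) (Ioi v₀) :=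
    (integrableOn_exp_neg_Ioi v₀).const_mul _
  refine Integrable.mono' h1 ?_ ?_
  · exact (hh_meas.comp (measurable_const.prodMk measurable_id)).aestronglyMeasurable
  · rw [ae_restrict_iff' measurableSet_Ioi]
    exact Eventually.of_forall fun w hw => hh_bound hv (le_of_lt hw)

lemma int_hh {u v₀ : ℝ} (hv : 0 < v₀) :
    ∫ w in Ioi v₀, hh u w = (Real.log (Real.cosh v₀ + Real.cos u) - Real.log (Real.cosh v₀ - Real.cos u)) / 2 := by
  have h := integral_Ioi_of_hasDerivAt_of_tendsto' (a := v₀)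
    (f := fun w => -((Real.log (Real.cosh w + Real.cos u) - Real.log (Real.cosh w - Real.cos u)) / 2))
    (f' := hh u) (fun w hw => hasDerivAt_Phi (by
      have : v₀ ≤ w := hw
      intro h0
      linarith)) (integrableOn_hh hv) (tendsto_Phi u)
  rw [h]
  ring

/-- the kernel is integrable -/
lemma arc_two {r : ℝ} (hr : 0 < r) : Real.arctan (1 / Real.sinh r) = 2 * Real.arctan (Real.exp (-r)) := by
  have h1 : Real.exp (-r) < 1 := by rw [Real.exp_lt_one_iff]; linarith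
  have h0 := Real.exp_pos (-r)
  rw [Real.two_mul_arctan (by linarith) h1]
  congr 1
  rw [Real.sinh_eq]
  have h2 : Real.exp (-r) * Real.exp r = 1 := by rw [← Real.exp_add]; simp
  have h3 := Real.exp_pos r
  have h4 : Real.exp (-r) < Real.exp r := Real.exp_lt_exp.2 (by linarith)
  have h5 : 1 - Real.exp (-r) ^ 2 ≠ 0 := by nlinarith
  have h6 : Real.exp r - Real.exp (-r) ≠ 0 := by linarith
  field_simp
  nlinarith

lemma arc_nonneg {r : ℝ} (hr : 0 < r) : 0 ≤ Real.arctan (1 / Real.sinh r) :=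
  Real.arctan_nonneg.2 (by have := Real.sinh_pos_iff.2 hr; positivity)

lemma arctan_le_self {x : ℝ} (hx : 0 ≤ x) : Real.arctan x ≤ x := by
  have h0 : 0 ≤ Real.arctan x := Real.arctan_nonneg.2 hx
  have h1 := Real.le_tan h0 (Real.arctan_lt_pi_div_two _)
  rwa [Real.tan_arctan] at h1

lemma arc_meas : Measurable fun r : ℝ => Real.arctan (1 / Real.sinh r) := by fun_prop

lemma integrableOn_arc : IntegrableOn (fun r : ℝ => Real.arctan (1 / Real.sinh r)) (Ioi 0) := by
  refine Integrable.mono' ((integrableOn_exp_neg_Ioi 0).const_mul 2) arc_meas.aestronglyMeasurable ?_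
  rw [ae_restrict_iff' measurableSet_Ioi]
  refine Eventually.of_forall fun r hr => ?_
  rw [Real.norm_of_nonneg (arc_nonneg hr), arc_two hr]
  have := arctan_le_self (Real.exp_pos (-r)).le
  linarith

lemma I2_nonneg : 0 ≤ I2 := by
  unfold I2
  exact setIntegral_nonneg measurableSet_Ioi fun r hr => arc_nonneg hr

lemma ind_shift (v₀ : ℝ) : (Ioi v₀).indicator (fun w => Real.arctan (1 / Real.sinh (w - v₀))) =
    fun w => (Ioi (0 : ℝ)).indicator (fun r => Real.arctan (1 / Real.sinh r)) (w - v₀) := by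
  funext w
  by_cases h : w ∈ Ioi v₀
  · rw [indicator_of_mem h, indicator_of_mem]
    exact sub_pos.2 (mem_Ioi.1 h)
  · rw [indicator_of_notMem h, indicator_of_notMem]
    intro h2
    exact h (mem_Ioi.2 (sub_pos.1 (mem_Ioi.1 h2)))

lemma int_arc_shift (v₀ : ℝ) : ∫ w in Ioi v₀, Real.arctan (1 / Real.sinh (w - v₀)) = I2 := by
  unfold I2
  rw [← integral_indicator measurableSet_Ioi, ← integral_indicator measurableSet_Ioi, ind_shift]
  exact integral_sub_right_eq_self _ v₀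

lemma integrableOn_arc_shift (v₀ : ℝ) :
    IntegrableOn (fun w => Real.arctan (1 / Real.sinh (w - v₀))) (Ioi v₀) := by
  rw [← integrable_indicator_iff measurableSet_Ioi, ind_shift]
  exact (integrableOn_arc.integrable_indicator measurableSet_Ioi).comp_sub_right v₀

lemma fubini0 {f : ℝ → ℝ → ℝ} (hm : Measurable (Function.uncurry f)) {α β v₀ E : ℝ}
    (hb : ∀ x w, v₀ < w → |f x w| ≤ E * Real.exp (-w)) :
    ∫ x in Ioc α β, (∫ w in Ioi v₀, f x w) = ∫ w in Ioi v₀, (∫ x in Ioc α β, f x w) := by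
  apply integral_integral_swap
  have h1 : Integrable (fun w : ℝ => E * Real.exp (-w)) (volume.restrict (Ioi v₀)) :=
    (integrableOn_exp_neg_Ioi v₀).const_mul _
  have h0 : Integrable (fun _ : ℝ => (1 : ℝ)) (volume.restrict (Ioc α β)) := integrable_const _
  have h2 : Integrable (fun z : ℝ × ℝ => (1 : ℝ) * (E * Real.exp (-z.2)))
    ((volume.restrict (Ioc α β)).prod (volume.restrict (Ioi v₀))) := h0.mul_prod h1
  refine Integrable.mono' h2 hm.aestronglyMeasurable ?_
  rw [Measure.prod_restrict]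
  refine (ae_restrict_iff' (measurableSet_Ioc.prod measurableSet_Ioi)).2 ?_
  refine Eventually.of_forall fun p hp => ?_
  have hp2 : v₀ < p.2 := (mem_prod.1 hp).2
  rw [one_mul]
  exact hb p.1 p.2 hp2

/-- Fubini -/
lemma fubini {c x₁ x₀ v₀ : ℝ} (hx : 0 ≤ x₁) (hv : 0 < v₀) :
    ∫ x in (-x₁)..x₁, (∫ w in Ioi v₀, hh (2 * c * (x - x₀)) w) =
      ∫ w in Ioi v₀, (∫ x in (-x₁)..x₁, hh (2 * c * (x - x₀)) w) := by
  have hle : -x₁ ≤ x₁ := by linarith
  simp only [intervalIntegral.integral_of_le hle]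
  refine fubini0 (f := fun x w => hh (2 * c * (x - x₀)) w) ?_ (E := 2 / (1 - Real.exp (-(2 * v₀)))) ?_
  · have hm : Measurable fun p : ℝ × ℝ => (2 * c * (p.1 - x₀), p.2) := by fun_prop
    have e : (Function.uncurry fun x w => hh (2 * c * (x - x₀)) w) =
        (fun p : ℝ × ℝ => hh p.1 p.2) ∘ (fun p : ℝ × ℝ => (2 * c * (p.1 - x₀), p.2)) := by
      funext p
      rfl
    rw [e]
    exact hh_meas.comp hm
  · intro x w hw
    exact hh_bound hv hw.le

lemma int_x_hh {c x₁ x₀ w : ℝ} (hc : 0 < c) (hw : w ≠ 0) :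
    ∫ x in (-x₁)..x₁, hh (2 * c * (x - x₀)) w = (Real.arctan (Real.sin (2 * c * (x₁ - x₀)) / Real.sinh w) +
      Real.arctan (Real.sin (2 * c * (x₁ + x₀)) / Real.sinh w)) / (2 * c) := by
  have e0 : ∀ x : ℝ, hh (2 * c * (x - x₀)) w = (2 * c)⁻¹ * (2 * c * (Real.cos (2 * c * (x - x₀)) * Real.sinh w) /
      (Real.sin (2 * c * (x - x₀)) ^ 2 + Real.sinh w ^ 2)) := by
    intro x
    unfold hh
    field_simp
  simp only [e0]
  rw [intervalIntegral.integral_const_mul, intervalIntegral.integral_eq_sub_of_hasDerivAt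
    (f := fun x => Real.arctan (Real.sin (2 * c * (x - x₀)) / Real.sinh w))
    (fun x _ => hasDerivAt_arcsin hw)]
  · have e : 2 * c * (-x₁ - x₀) = -(2 * c * (x₁ + x₀)) := by ring
    rw [e, Real.sin_neg, neg_div, Real.arctan_neg]
    field_simp
    ring
  · apply Continuous.intervalIntegrable
    have hs : Real.sinh w ≠ 0 := Real.sinh_ne_zero.2 hw
    refine Continuous.div (by fun_prop) (by fun_prop) fun x => ?_
    positivity

/-- **The mean of the logarithm of one factor.** -/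
theorem int_lt_le {c x₁ a : ℝ} {ρ : ℂ} (hc : 0 < c) (hρ : ρ.im ≠ 0) (hca : 2 * c * (2 * a) = Real.pi)
    (hx : |ρ.re| < x₁) (hx2 : x₁ + |ρ.re| < 2 * a) :
    ∫ x in (-x₁)..x₁, lt c ρ x ≤ I2 / (4 * c ^ 2) * ((Kc c ρ x₁).re - (Kc c ρ (-x₁ : ℝ)).re) := by
  have hx1 : 0 ≤ x₁ := (abs_nonneg _).trans hx.le
  obtain ⟨v₀, hv₀⟩ : ∃ v₀ : ℝ, v₀ = |2 * c * ρ.im| := ⟨_, rfl⟩
  have hv : 0 < v₀ := by rw [hv₀]; positivity
  have h1 := abs_lt.1 hx
  have hsp : ∀ u : ℝ, 0 < u → u < 2 * a → 0 < Real.sin (2 * c * u) ∧ Real.sin (2 * c * u) ≤ 1 := by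
    intro u hu0 hu1
    refine ⟨Real.sin_pos_of_pos_of_lt_pi (by positivity) ?_, Real.sin_le_one _⟩
    rw [← hca]
    gcongr
  have hA := hsp (x₁ - ρ.re) (by linarith) (by linarith [neg_abs_le ρ.re])
  have hB := hsp (x₁ + ρ.re) (by linarith) (by linarith [le_abs_self ρ.re])
  obtain ⟨p, hp⟩ : ∃ p : ℝ, p = Real.sin (2 * c * (x₁ - ρ.re)) := ⟨_, rfl⟩
  obtain ⟨q, hq⟩ : ∃ q : ℝ, q = Real.sin (2 * c * (x₁ + ρ.re)) := ⟨_, rfl⟩
  rw [← hp] at hA
  rw [← hq] at hB
  have e1 : ∀ x : ℝ, lt c ρ x = ∫ w in Ioi v₀, hh (2 * c * (x - ρ.re)) w := by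
    intro x
    have hne : 2 * c * ((x : ℂ).im - ρ.im) ≠ 0 := by
      simp only [Complex.ofReal_im, zero_sub]
      have : c * ρ.im ≠ 0 := mul_ne_zero hc.ne' hρ
      intro h
      apply this
      linarith
    rw [int_hh hv, lt_formula hne]
    simp only [Complex.ofReal_im, Complex.ofReal_re, zero_sub]
    have e2 : Real.cosh (2 * c * -ρ.im) = Real.cosh v₀ := by
      rw [hv₀, Real.cosh_abs, ← Real.cosh_neg]
      congr 1
      ring
    rw [e2]
  have e3 : ∫ x in (-x₁)..x₁, lt c ρ x =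
      ∫ w in Ioi v₀, (Real.arctan (p / Real.sinh w) + Real.arctan (q / Real.sinh w)) / (2 * c) := by
    simp only [e1]
    rw [fubini hx1 hv]
    refine setIntegral_congr_fun measurableSet_Ioi fun w hw => ?_
    have hw0 : w ≠ 0 := by
      have : v₀ < w := hw
      intro h
      linarith
    show ∫ x in (-x₁)..x₁, hh (2 * c * (x - ρ.re)) w = _
    rw [int_x_hh hc hw0, ← hp, ← hq]
  have hint : IntegrableOn (fun w => (Q p v₀ + Q q v₀) / (2 * c) * Real.arctan (1 / Real.sinh (w - v₀))) (Ioi v₀) :=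
    (integrableOn_arc_shift v₀).const_mul _
  have e4 : ∀ w ∈ Ioi v₀, 0 ≤ (Real.arctan (p / Real.sinh w) + Real.arctan (q / Real.sinh w)) / (2 * c) ∧
      (Real.arctan (p / Real.sinh w) + Real.arctan (q / Real.sinh w)) / (2 * c) ≤
      (Q p v₀ + Q q v₀) / (2 * c) * Real.arctan (1 / Real.sinh (w - v₀)) := by
    intro w hw
    have hw1 : v₀ < w := hw
    have hsw : 0 < Real.sinh w := Real.sinh_pos_iff.2 (by linarith)
    have h3 := arc_le hA.1 hA.2 hv.le (r := w - v₀) (by linarith)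
    have h4 := arc_le hB.1 hB.2 hv.le (r := w - v₀) (by linarith)
    rw [add_sub_cancel] at h3 h4
    have h5 : 0 ≤ Real.arctan (p / Real.sinh w) := Real.arctan_nonneg.2 (div_nonneg hA.1.le hsw.le)
    have h6 : 0 ≤ Real.arctan (q / Real.sinh w) := Real.arctan_nonneg.2 (div_nonneg hB.1.le hsw.le)
    refine ⟨by positivity, ?_⟩
    rw [div_mul_eq_mul_div]
    gcongr
    linarith
  have e5 : ∫ w in Ioi v₀, (Real.arctan (p / Real.sinh w) + Real.arctan (q / Real.sinh w)) / (2 * c) ≤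
      ∫ w in Ioi v₀, (Q p v₀ + Q q v₀) / (2 * c) * Real.arctan (1 / Real.sinh (w - v₀)) := by
    refine setIntegral_mono_on ?_ hint measurableSet_Ioi fun w hw => (e4 w hw).2
    refine Integrable.mono' hint ?_ ?_
    · exact Measurable.aestronglyMeasurable (by fun_prop)
    · rw [ae_restrict_iff' measurableSet_Ioi]
      refine Eventually.of_forall fun w hw => ?_
      rw [Real.norm_of_nonneg (e4 w hw).1]
      exact (e4 w hw).2
  rw [e3]
  refine e5.trans (le_of_eq ?_)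
  rw [integral_const_mul, int_arc_shift, Kc_re, Kc_re]
  have e : 2 * c * ((-x₁) - ρ.re) = -(2 * c * (x₁ + ρ.re)) := by ring
  have e2 : ∀ p v : ℝ, Q (-p) v = -Q p v := by
    intro p v
    unfold Q
    rw [neg_sq]; ring
  rw [e, Real.sin_neg, e2, ← hp, ← hq, hv₀, Q_abs, Q_abs]
  field_simp
  ring

end Pool.Agent.H572.ST
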