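import Pool.Agent.H572.ST.Ker3
import Pool.Agent.H572.OB.Strip

/-!
# The maximum principle in long rectangles and Harnack's inequality
-/

set_option autoImplicit false

open Filter Topology Set Metric

namespace Pool.Agent.H572.ST

lemma half_le_cos {x a : ℝ} (ha : a ≤ 1) (hx : |x| ≤ a) : 1 / 2 ≤ Real.cos x ∧ Real.cos a ≤ Real.cos x := by
  have ha0 : 0 ≤ a := (abs_nonneg x).trans hx
  have h1 : Real.cos a ≤ Real.cos x := by
    rw [← Real.cos_abs x]
    exact Real.cos_le_cos_of_nonneg_of_le_pi (abs_nonneg x) (by linarith [Real.pi_gt_three]) hx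
  have h2 : 1 / 2 ≤ Real.cos a := by
    rw [← Real.cos_pi_div_three]
    exact Real.cos_le_cos_of_nonneg_of_le_pi ha0 (by linarith [Real.pi_gt_three]) (by
      have := Real.pi_gt_three
      linarith)
  exact ⟨h2.trans h1, h1⟩

/-- **The maximum principle in a long rectangle.** -/
theorem rect_max {f : ℂ → ℂ} {a W M₁ M₂ : ℝ} (ha : 0 < a) (ha1 : a ≤ 1) (hW : 0 < W) (hM : 0 ≤ M₂)
    (hf : ∀ z : ℂ, |z.re| ≤ a → |z.im| ≤ W → AnalyticAt ℂ f z)
    (hv : ∀ z : ℂ, |z.re| = a → |z.im| ≤ W → ‖f z‖ ≤ Real.exp M₁)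
    (hh : ∀ z : ℂ, |z.re| ≤ a → |z.im| = W → ‖f z‖ ≤ Real.exp (M₁ + M₂)) {z : ℂ} (hz : |z.re| ≤ a)
    (hz2 : |z.im| ≤ W / 2) : ‖f z‖ ≤ Real.exp (M₁ + 4 * M₂ * Real.exp (-(W / 2))) := by
  have hca : 1 / 2 ≤ Real.cos a := (half_le_cos ha1 (x := a) (by rw [abs_of_pos ha])).1
  have hcW := Real.cosh_pos W
  obtain ⟨A, hA⟩ : ∃ A : ℝ, A = M₂ / (Real.cos a * Real.cosh W) := ⟨_, rfl⟩
  have hA0 : 0 ≤ A := by rw [hA]; positivity
  have hAe : A * (Real.cos a * Real.cosh W) = M₂ := by
    rw [hA]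
    field_simp
  obtain ⟨g, hg⟩ : ∃ g : ℂ → ℂ, g = fun z => f z * Complex.exp (-(A * Complex.cos z)) := ⟨_, rfl⟩
  have hgn : ∀ w : ℂ, ‖g w‖ = ‖f w‖ * Real.exp (-(A * (Real.cos w.re * Real.cosh w.im))) := by
    intro w
    rw [hg]
    simp only
    rw [norm_mul, Complex.norm_exp, Complex.neg_re, Complex.re_ofReal_mul, cos_re]
  have hU : Bornology.IsBounded (Ioo (-a) a ×ℂ Ioo (-W) W) := (isBounded_Ioo _ _).reProdIm (isBounded_Ioo _ _)
  have hopen : IsOpen (Ioo (-a) a ×ℂ Ioo (-W) W) := isOpen_Ioo.reProdIm isOpen_Ioo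
  have hcl : closure (Ioo (-a) a ×ℂ Ioo (-W) W) = Icc (-a) a ×ℂ Icc (-W) W := by
    rw [Complex.closure_reProdIm, closure_Ioo (by linarith), closure_Ioo (by linarith)]
  have key : ∀ w : ℂ, |w.re| ≤ a → |w.im| ≤ W → ‖g w‖ ≤ Real.exp M₁ := by
    intro w hw1 hw2
    refine Complex.norm_le_of_forall_mem_frontier_norm_le (U := Ioo (-a) a ×ℂ Ioo (-W) W) hU ?_ ?_ ?_
    · apply DifferentiableOn.diffContOnCl
      rw [hcl]
      intro u hu
      rw [Complex.mem_reProdIm] at hu
      have h1 : DifferentiableAt ℂ f u := (hf u (abs_le.2 hu.1) (abs_le.2 hu.2)).differentiableAt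
      rw [hg]
      refine (h1.mul ?_).differentiableWithinAt
      fun_prop
    · intro u hu
      rw [frontier, hcl, hopen.interior_eq] at hu
      obtain ⟨hu1, hu2⟩ := hu
      rw [Complex.mem_reProdIm] at hu1 hu2
      have hur : |u.re| ≤ a := abs_le.2 hu1.1
      have hui : |u.im| ≤ W := abs_le.2 hu1.2
      rw [hgn]
      have hc1 := (half_le_cos ha1 hur)
      have hc2 := Real.cosh_pos u.im
      by_cases h1 : |u.re| = a
      · have h2 := hv u h1 hui
        have h3 : Real.exp (-(A * (Real.cos u.re * Real.cosh u.im))) ≤ 1 := by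
          rw [Real.exp_le_one_iff]
          have : 0 ≤ Real.cos u.re := by linarith [hc1.1]
          have : 0 ≤ A * (Real.cos u.re * Real.cosh u.im) := by positivity
          linarith
        calc ‖f u‖ * Real.exp (-(A * (Real.cos u.re * Real.cosh u.im))) ≤ Real.exp M₁ * 1 := by gcongr
          _ = _ := mul_one _
      · have h2 : |u.im| = W := by
          by_contra h3
          apply hu2
          exact ⟨abs_lt.1 (lt_of_le_of_ne hur h1), abs_lt.1 (lt_of_le_of_ne hui h3)⟩
        have h3 := hh u hur h2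
        have h4 : Real.cosh u.im = Real.cosh W := by rw [← Real.cosh_abs, h2]
        rw [h4]
        calc ‖f u‖ * Real.exp (-(A * (Real.cos u.re * Real.cosh W)))
            ≤ Real.exp (M₁ + M₂) * Real.exp (-(A * (Real.cos a * Real.cosh W))) := by
              gcongr
              exact hc1.2
          _ = _ := by rw [hAe, ← Real.exp_add]; congr 1; ring
    · rw [hcl, Complex.mem_reProdIm]
      exact ⟨abs_le.1 hw1, abs_le.1 hw2⟩
  have h1 := key z hz (by linarith [abs_nonneg z.im])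
  rw [hgn] at h1
  have h2 : ‖f z‖ ≤ Real.exp (M₁ + A * (Real.cos z.re * Real.cosh z.im)) := by
    have h3 := Real.exp_pos (A * (Real.cos z.re * Real.cosh z.im))
    calc ‖f z‖ = ‖f z‖ * Real.exp (-(A * (Real.cos z.re * Real.cosh z.im))) *
          Real.exp (A * (Real.cos z.re * Real.cosh z.im)) := by
          rw [mul_assoc, ← Real.exp_add, neg_add_cancel, Real.exp_zero, mul_one]
      _ ≤ Real.exp M₁ * Real.exp (A * (Real.cos z.re * Real.cosh z.im)) := by gcongr
      _ = _ := by rw [Real.exp_add]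
  refine h2.trans (Real.exp_le_exp.2 ?_)
  have h4 : Real.cosh z.im ≤ Real.exp (W / 2) := by
    rw [← Real.cosh_abs]
    have h5 : Real.cosh |z.im| ≤ Real.cosh (W / 2) := by
      rw [Real.cosh_le_cosh, abs_abs, abs_of_pos (by linarith : 0 < W / 2)]
      exact hz2
    refine h5.trans ?_
    rw [Real.cosh_eq]
    have : Real.exp (-(W / 2)) ≤ Real.exp (W / 2) := Real.exp_le_exp.2 (by linarith)
    linarith
  have h5 : Real.exp W / 2 ≤ Real.cosh W := by
    rw [Real.cosh_eq]
    linarith [Real.exp_pos (-W)]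
  have h6 : A ≤ 4 * M₂ * Real.exp (-W) := by
    rw [hA, div_le_iff₀ (by positivity)]
    have h7 : Real.exp (-W) * Real.exp W = 1 := by rw [← Real.exp_add]; simp
    have h8 : (1 : ℝ) ≤ 4 * Real.exp (-W) * (Real.cos a * Real.cosh W) := by
      calc (1 : ℝ) = 4 * Real.exp (-W) * (1 / 2 * (Real.exp W / 2)) := by linarith
        _ ≤ _ := by gcongr
    calc M₂ = M₂ * 1 := (mul_one _).symm
      _ ≤ M₂ * (4 * Real.exp (-W) * (Real.cos a * Real.cosh W)) := by gcongr
      _ = _ := by ring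
  have h7 := Real.cos_le_one z.re
  have h8 := (half_le_cos ha1 hz).1
  have h9 := Real.cosh_pos z.im
  have h10 : A * (Real.cos z.re * Real.cosh z.im) ≤ 4 * M₂ * Real.exp (-W) * (1 * Real.exp (W / 2)) := by
    gcongr
  have h11 : Real.exp (-W) * Real.exp (W / 2) = Real.exp (-(W / 2)) := by
    rw [← Real.exp_add]; congr 1; ring
  have h12 : 4 * M₂ * Real.exp (-W) * (1 * Real.exp (W / 2)) = 4 * M₂ * Real.exp (-(W / 2)) := by
    rw [← h11]; ring
  linarith

/-- a logarithm in a disc -/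
lemma exists_log_ball {f : ℂ → ℂ} {c : ℂ} {r : ℝ} (hr : 0 < r) (hf : ∀ z ∈ closedBall c r, AnalyticAt ℂ f z)
    (hne : ∀ z ∈ closedBall c r, f z ≠ 0) :
    ∃ h : ℂ → ℂ, h c = 0 ∧ DifferentiableOn ℂ h (ball c r) ∧ ∀ w ∈ ball c r, f w = f c * Complex.exp (h w) := by
  have hcr : c ∈ ball c r := mem_ball_self hr
  have hd : DifferentiableOn ℂ (logDeriv f) (ball c r) := by
    intro w hw
    have hw' := ball_subset_closedBall hw
    have h1 : AnalyticAt ℂ (logDeriv f) w := (hf w hw').deriv.div (hf w hw') (hne w hw')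
    exact h1.differentiableAt.differentiableWithinAt
  obtain ⟨h, hhc, hh⟩ := hd.isExactOn_ball.with_val_at c 0
  refine ⟨h, hhc, fun w hw => (hh w hw).differentiableAt.differentiableWithinAt, ?_⟩
  intro w hw
  have hderiv : ∀ x ∈ ball c r, HasDerivAt (fun y => f y * Complex.exp (-h y)) 0 x := by
    intro x hx
    have hx' := ball_subset_closedBall hx
    have e1 : HasDerivAt f (deriv f x) x := (hf x hx').differentiableAt.hasDerivAt
    have e2 : HasDerivAt (fun y => Complex.exp (-h y)) (Complex.exp (-h x) * (-(logDeriv f x))) x :=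
      ((hh x hx).neg).cexp
    have e3 : HasDerivAt (fun y => f y * Complex.exp (-h y))
        (deriv f x * Complex.exp (-h x) + f x * (Complex.exp (-h x) * (-(logDeriv f x)))) x := e1.mul e2
    have e4 : deriv f x * Complex.exp (-h x) + f x * (Complex.exp (-h x) * (-(logDeriv f x))) = 0 := by
      have := hne x hx'
      rw [logDeriv_apply]
      field_simp
      ring
    rwa [e4] at e3
  have hcv : Convex ℝ (ball c r) := convex_ball c r
  have := hcv.is_const_of_fderivWithin_eq_zero (𝕜 := ℂ) (f := fun y => f y * Complex.exp (-h y))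
    (fun x hx => (hderiv x hx).differentiableAt.differentiableWithinAt)
    (fun x hx => by
      have h5 := (hderiv x hx).hasFDerivAt.hasFDerivWithinAt (s := ball c r)
      rw [h5.fderivWithin (isOpen_ball.uniqueDiffWithinAt hx)]
      ext; simp) hw hcr
  simp only [hhc, neg_zero, Complex.exp_zero, mul_one] at this
  rw [← this, mul_assoc, ← Complex.exp_add, neg_add_cancel, Complex.exp_zero, mul_one]

/-- **Harnack's inequality.** -/
theorem harnack {f : ℂ → ℂ} {c : ℂ} {r M : ℝ} (hr : 0 < r) (hf : ∀ z ∈ closedBall c r, AnalyticAt ℂ f z)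
    (hne : ∀ z ∈ closedBall c r, f z ≠ 0) (hM : ∀ z ∈ closedBall c r, Real.log ‖f z‖ ≤ M) {z : ℂ}
    (hz : ‖z - c‖ ≤ r / 2) : M - Real.log ‖f z‖ + 1 ≤ 3 * (M - Real.log ‖f c‖ + 1) := by
  obtain ⟨h, hhc, hd, hh⟩ := exists_log_ball hr hf hne
  have hcc : c ∈ closedBall c r := mem_closedBall_self hr.le
  have hv0 : 0 ≤ M - Real.log ‖f c‖ := by linarith [hM c hcc]
  have hlog : ∀ w ∈ ball c r, Real.log ‖f w‖ = Real.log ‖f c‖ + (h w).re := by
    intro w hw
    rw [hh w hw, norm_mul, Complex.norm_exp, Real.log_mul (norm_ne_zero_iff.2 (hne c hcc)) (Real.exp_pos _).ne',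
      Real.log_exp]
  have hmap : ∀ x : ℂ, x ∈ ball (0 : ℂ) r → c + x ∈ ball c r := by
    intro x hx
    rw [mem_ball_zero_iff] at hx
    rw [mem_ball, dist_eq_norm, add_sub_cancel_left]
    exact hx
  have hzb : z - c ∈ ball (0 : ℂ) r := by
    rw [mem_ball_zero_iff]
    linarith
  have hbc := Complex.borelCaratheodory_zero (f := fun x => h (c + x)) (M := M - Real.log ‖f c‖ + 1) (R := r)
    (z := z - c) (by linarith)
    (fun x hx => by
      have h1 := (hd (c + x) (hmap x hx)).differentiableAt (isOpen_ball.mem_nhds (hmap x hx))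
      have h2 : DifferentiableAt ℂ (fun y : ℂ => c + y) x := by fun_prop
      exact (DifferentiableAt.comp (g := h) (f := fun y : ℂ => c + y) x h1 h2).differentiableWithinAt)
    (fun x hx => by
      have h1 := hM (c + x) (ball_subset_closedBall (hmap x hx))
      have h2 := hlog (c + x) (hmap x hx)
      show (h (c + x)).re ≤ _
      linarith) hr hzb (by simp [hhc])
  simp only [add_sub_cancel] at hbc
  have hzb' : z ∈ ball c r := by
    rw [mem_ball, dist_eq_norm]
    linarith
  have h3 := hlog z hzb'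
  have h4 := (abs_le.1 (Complex.abs_re_le_norm (h z))).1
  have h5 : 2 * (M - Real.log ‖f c‖ + 1) * ‖z - c‖ / (r - ‖z - c‖) ≤ 2 * (M - Real.log ‖f c‖ + 1) := by
    rw [div_le_iff₀ (by linarith)]
    have : ‖z - c‖ ≤ r - ‖z - c‖ := by linarith
    gcongr
  linarith

end Pool.Agent.H572.ST
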