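import Pool.Agent.H572.ST.Core3
import Pool.Graph.R_seed8.H52R4.PZT1
import Pool.Graph.R_seed8.Y141.OJ.Rt
import Pool.Graph.R_seed8.Y815.OJ.AP

/-!
# The Riemann zeta function: the local data
-/

set_option autoImplicit false

open Filter Topology Set Metric Complex
open Pool.Agent.Y815.OJ (GR_conj Lam_conj Lam_symm Lam_eq Lam_an zeros_strip G_ne Lam_zero_iff)

namespace Pool.Agent.H572.ST

theorem log_zeta_right {η : ℝ} (hη : 0 < η) :
    ∃ K : ℝ, 0 ≤ K ∧ ∀ s : ℂ, 1 + η ≤ s.re → |Real.log ‖riemannZeta s‖| ≤ K := by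
  have hs1 : Summable fun n : ℕ => (1 : ℝ) / (n : ℝ) ^ (1 + η) :=
    Real.summable_one_div_nat_rpow.2 (by linarith)
  refine ⟨∑' n : ℕ, (1 : ℝ) / (n : ℝ) ^ (1 + η), tsum_nonneg fun n => by positivity, ?_⟩
  intro s hs
  have hs' : 1 < s.re := by linarith
  have hs0 : 0 < s.re := by linarith
  have hs2 : Summable fun n : ℕ => (1 : ℝ) / (n : ℝ) ^ s.re := Real.summable_one_div_nat_rpow.2 hs'
  have hle : ∑' n : ℕ, (1 : ℝ) / (n : ℝ) ^ s.re ≤ ∑' n : ℕ, (1 : ℝ) / (n : ℝ) ^ (1 + η) := by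
    refine hs2.tsum_le_tsum (fun n => ?_) hs1
    rcases Nat.eq_zero_or_pos n with h | h
    · rw [h, Nat.cast_zero, Real.zero_rpow (by linarith), Real.zero_rpow (by linarith)]
    · have h1 : (1 : ℝ) ≤ n := by exact_mod_cast h
      exact one_div_le_one_div_of_le (by positivity) (Real.rpow_le_rpow_of_exponent_le h1 hs)
  have hz : ‖riemannZeta s‖ ≤ ∑' n : ℕ, (1 : ℝ) / (n : ℝ) ^ s.re := by
    rw [← LSeries_one_eq_riemannZeta hs']
    exact Pool.Agent.Y141.OJ.norm_LS _ _ (fun n _ => by simp) hs0 hs2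
  have hzi : ‖riemannZeta s‖⁻¹ ≤ ∑' n : ℕ, (1 : ℝ) / (n : ℝ) ^ s.re := by
    have h1 : riemannZeta s * LSeries (fun n => ((ArithmeticFunction.moebius n : ℤ) : ℂ)) s = 1 := by
      have := ArithmeticFunction.LSeries_zeta_mul_Lseries_moebius hs'
      rwa [ArithmeticFunction.LSeries_zeta_eq_riemannZeta hs'] at this
    have h2 : ‖riemannZeta s‖⁻¹ = ‖LSeries (fun n => ((ArithmeticFunction.moebius n : ℤ) : ℂ)) s‖ := by
      rw [← norm_inv]
      congr 1
      exact inv_eq_of_mul_eq_one_right h1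
    rw [h2]
    refine Pool.Agent.Y141.OJ.norm_LS _ _ (fun n _ => ?_) hs0 hs2
    have h3 := ArithmeticFunction.abs_moebius_le_one (n := n)
    have h4 : ‖((ArithmeticFunction.moebius n : ℤ) : ℂ)‖ = ((|ArithmeticFunction.moebius n| : ℤ) : ℝ) := by
      rw [Complex.norm_intCast, Int.cast_abs]
    rw [h4]
    exact_mod_cast h3
  have hzpos : 0 < ‖riemannZeta s‖ := norm_pos_iff.2 (riemannZeta_ne_zero_of_one_lt_re hs')
  have c1 : Real.log ‖riemannZeta s‖ ≤ (∑' n : ℕ, (1 : ℝ) / (n : ℝ) ^ s.re) - 1 :=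
    (Real.log_le_sub_one_of_pos hzpos).trans (by linarith)
  have c2 : -Real.log ‖riemannZeta s‖ ≤ (∑' n : ℕ, (1 : ℝ) / (n : ℝ) ^ s.re) - 1 := by
    rw [← Real.log_inv]
    exact (Real.log_le_sub_one_of_pos (by positivity)).trans (by linarith)
  exact abs_le.2 ⟨by linarith, by linarith⟩

theorem zeta_half_plane : ∃ K : ℝ, 0 ≤ K ∧ ∀ s : ℂ, 1 / 4 ≤ s.re → 1 ≤ s.im →
    ‖riemannZeta s‖ ≤ Real.exp K * s.im := by
  obtain ⟨K, hK, h⟩ := log_zeta_right (η := 1) one_pos
  refine ⟨K + 80, by linarith, fun s hs hs2 => ?_⟩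
  have habs : |s.im| = s.im := abs_of_nonneg (by linarith)
  rcases le_total s.re 2 with h2 | h2
  · have h3 := Pool.Agent.H52R4.PZT1.zeta_right hs h2 (by rw [habs]; exact hs2)
    rw [habs] at h3
    have h4 : 80 ≤ Real.exp (K + 80) := by linarith [Real.add_one_le_exp (K + 80)]
    have : 80 * s.im ≤ Real.exp (K + 80) * s.im := by gcongr
    linarith
  · have h3 := h s (by linarith)
    have hzpos : 0 < ‖riemannZeta s‖ := norm_pos_iff.2 (riemannZeta_ne_zero_of_one_lt_re (by linarith))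
    have h4 : ‖riemannZeta s‖ ≤ Real.exp (K + 80) := by
      rw [← Real.log_le_iff_le_exp hzpos]
      linarith [(abs_le.1 h3).2]
    have h5 := Real.exp_pos (K + 80)
    nlinarith

/-- **Stirling's formula in a wide strip.** -/
theorem log_GammaR {B t σ τ : ℝ} (hB : 1 ≤ B) (ht : 2 * B + 4 ≤ t) (hσ : 1 / 2 ≤ σ) (hσB : σ ≤ B)
    (hτ : |τ - t| ≤ B) :
    |Real.log ‖Gammaℝ ⟨σ, τ⟩‖ - ((σ - 1) / 2 * Real.log t - Real.pi * t / 4)| ≤ 6 * B + 4 := by
  have hτ' := abs_le.1 hτ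
  have ht0 : 0 < t := by linarith
  obtain ⟨z, hz⟩ : ∃ z : ℂ, z = ⟨σ / 2, τ / 2⟩ := ⟨_, rfl⟩
  have hzre : z.re = σ / 2 := by rw [hz]
  have hzim : z.im = τ / 2 := by rw [hz]
  have hz0 : 0 < z.re := by rw [hzre]; linarith
  have hz1 : 1 ≤ z.im := by rw [hzim]; linarith
  have hs2 : (⟨σ, τ⟩ : ℂ) / 2 = z := by
    rw [hz]
    apply Complex.ext
    · simp
    · simp
  -- the norm of the Gamma factor
  have e1 : Real.log ‖Gammaℝ ⟨σ, τ⟩‖ = -(σ / 2) * Real.log Real.pi + Real.log ‖Gamma z‖ := by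
    rw [Gammaℝ_def, norm_mul, hs2, Real.log_mul]
    · congr 1
      rw [Complex.norm_cpow_eq_rpow_re_of_pos Real.pi_pos, Real.log_rpow Real.pi_pos]
      congr 1
      simp
      ring
    · rw [norm_ne_zero_iff]
      simp [Real.pi_ne_zero]
    · exact norm_ne_zero_iff.2 (Gamma_ne_zero_of_re_pos hz0)
  -- Stirling
  have h3 := H401R2.stirling hz0 hz1
  have h4 : ‖H401R2.sA z / ((√(2 * Real.pi) : ℝ) : ℂ) - 1‖ ≤ 1 / 2 := by
    refine h3.trans ?_
    rw [div_le_iff₀ (by linarith)]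
    have := Real.pi_lt_four
    nlinarith
  obtain ⟨q, hq⟩ : ∃ q : ℝ, q = √(2 * Real.pi) := ⟨_, rfl⟩
  have hq0 : 1 ≤ q := by
    rw [hq, Real.one_le_sqrt]
    linarith [Real.pi_gt_three]
  have hq3 : q ≤ 3 := by
    rw [hq, Real.sqrt_le_left (by norm_num)]
    linarith [Real.pi_lt_four]
  rw [← hq] at h4
  have hqn : ‖(q : ℂ)‖ = q := by rw [Complex.norm_real, Real.norm_eq_abs, abs_of_pos (by linarith)]
  have h5 : ‖H401R2.sA z‖ / q ≤ 3 / 2 := by
    have := norm_sub_norm_le (H401R2.sA z / (q : ℂ)) 1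
    rw [norm_div, hqn, norm_one] at this
    linarith
  have h6 : 1 / 2 ≤ ‖H401R2.sA z‖ / q := by
    have := norm_sub_norm_le (1 : ℂ) (H401R2.sA z / (q : ℂ))
    rw [norm_div, hqn, norm_one, norm_sub_rev] at this
    linarith
  have h7 : ‖H401R2.sA z‖ ≤ 9 / 2 := by
    rw [div_le_iff₀ (by linarith)] at h5
    nlinarith
  have h8 : 1 / 2 ≤ ‖H401R2.sA z‖ := by
    rw [le_div_iff₀ (by linarith)] at h6
    nlinarith
  have h9 : |Real.log ‖H401R2.sA z‖| ≤ 4 := by
    rw [abs_le]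
    constructor
    · rw [← Real.exp_le_exp, Real.exp_log (by linarith)]
      refine le_trans ?_ h8
      have : Real.exp (-4) ≤ Real.exp (-1) := Real.exp_le_exp.2 (by norm_num)
      have h10 : Real.exp (-1) ≤ 1 / 2 := by
        rw [Real.exp_neg, one_div]
        exact inv_anti₀ (by norm_num) (by linarith [Real.add_one_le_exp (1 : ℝ)])
      linarith
    · rw [Real.log_le_iff_le_exp (by linarith)]
      linarith [Real.add_one_le_exp (4 : ℝ)]
  have e2 : Real.log ‖H401R2.sA z‖ = Real.log ‖Gamma z‖ - ((z - 1 / 2) * log z - z).re := by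
    unfold H401R2.sA
    rw [norm_mul, Real.log_mul (norm_ne_zero_iff.2 (Gamma_ne_zero_of_re_pos hz0))
      (norm_ne_zero_iff.2 (Complex.exp_ne_zero _)), Complex.norm_exp, Real.log_exp, Complex.neg_re]
    ring
  -- the exponent
  have u1 := Pool.Agent.H52R4.PZT1.stir_re hz0 hz1
  have e3 : ((z - 1 / 2) * log z - z).re =
      (z.re - 1 / 2) * Real.log ‖z‖ - z.im * arg z - z.re := by
    rw [Complex.sub_re, Complex.mul_re, Complex.log_re, Complex.log_im]
    simp
  have u2 : arg z ≤ Real.pi / 2 := (abs_le.1 (Complex.abs_arg_le_pi_div_two_iff.2 hz0.le)).2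
  have u3 : z.im * arg z ≤ z.im * (Real.pi / 2) := by gcongr
  -- log ‖z‖
  have v1 : ‖z‖ ≤ t := by
    refine (Complex.norm_le_abs_re_add_abs_im z).trans ?_
    rw [abs_of_pos hz0, abs_of_pos (by linarith), hzre, hzim]
    linarith
  have v2 : t / 4 ≤ ‖z‖ := by
    refine le_trans ?_ (Complex.abs_im_le_norm z)
    rw [abs_of_pos (by linarith), hzim]
    linarith
  have v3 : Real.log ‖z‖ ≤ Real.log t := Real.log_le_log (by linarith) v1
  have v4 : Real.log t - 2 ≤ Real.log ‖z‖ := by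
    have := Real.log_le_log (by linarith) v2
    rw [Real.log_div ht0.ne' (by norm_num)] at this
    have h4 : Real.log 4 ≤ 2 := by
      have : (4 : ℝ) = 2 ^ 2 := by norm_num
      rw [this, Real.log_pow]
      have := Real.log_two_lt_d9
      push_cast
      linarith
    linarith
  have v5 : |(z.re - 1 / 2) * (Real.log ‖z‖ - Real.log t)| ≤ B * 2 := by
    rw [abs_mul]
    have : |z.re - 1 / 2| ≤ B := by
      rw [abs_le, hzre]
      constructor <;> linarith
    have : |Real.log ‖z‖ - Real.log t| ≤ 2 := by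
      rw [abs_le]
      constructor <;> linarith
    gcongr
  have v6 : |Real.pi * z.im / 2 - Real.pi * t / 4| ≤ B := by
    rw [hzim]
    have : Real.pi * (τ / 2) / 2 - Real.pi * t / 4 = Real.pi / 4 * (τ - t) := by ring
    rw [this, abs_mul, abs_of_pos (by positivity)]
    have := Real.pi_lt_four
    calc Real.pi / 4 * |τ - t| ≤ 1 * B := by gcongr; linarith
      _ = B := one_mul _
  have w1 : |σ / 2 * Real.log Real.pi| ≤ B := by
    have h1 : 0 ≤ Real.log Real.pi := Real.log_nonneg (by linarith [Real.pi_gt_three])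
    have h2 : Real.log Real.pi ≤ 2 := by
      rw [Real.log_le_iff_le_exp Real.pi_pos]
      have h5 := Real.add_one_le_exp (1 : ℝ)
      have h6 : Real.exp 2 = Real.exp 1 * Real.exp 1 := by rw [← Real.exp_add]; norm_num
      have := Real.pi_lt_four
      nlinarith
    rw [abs_of_nonneg (by positivity)]
    have : σ / 2 * Real.log Real.pi ≤ B / 2 * 2 := by gcongr
    linarith
  have h9' := abs_le.1 h9
  have v5' := abs_le.1 v5
  have v6' := abs_le.1 v6
  have w1' := abs_le.1 w1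
  have e4 : (z.re - 1 / 2) * (Real.log ‖z‖ - Real.log t) = (z.re - 1 / 2) * Real.log ‖z‖ - (σ - 1) / 2 * Real.log t := by
    rw [hzre]; ring
  rw [e4] at v5'
  rw [e1]
  have hx : z.re ≤ B := by rw [hzre]; linarith
  have e5 : z.im * (Real.pi / 2) = Real.pi * z.im / 2 := by ring
  rw [e5] at u3
  rw [abs_le]
  constructor
  · linarith
  · linarith

/-- the exponent of the normalization -/
noncomputable def gm (t : ℝ) : ℝ := -(1 / 4) * Real.log t - Real.pi * t / 4

/-- the normalized completed zeta function near `1/2 + it` -/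
noncomputable def Fz (t : ℝ) (z : ℂ) : ℂ :=
  completedRiemannZeta (1 / 2 + t * I + z) * ((Real.exp (-gm t) : ℝ) : ℂ)

lemma arg_re_im (t : ℝ) (z : ℂ) : (1 / 2 + t * I + z).re = 1 / 2 + z.re ∧ (1 / 2 + t * I + z).im = t + z.im := by
  constructor <;> simp

lemma Fz_rf (t : ℝ) (z : ℂ) : rf (Fz t) z = Fz t z := by
  unfold rf Fz
  rw [map_mul, Complex.conj_ofReal]
  congr 1
  have h1 := Lam_symm (1 / 2 + t * I + z)
  have h2 : 1 - (starRingEnd ℂ) (1 / 2 + t * I + z) = 1 / 2 + t * I + -(starRingEnd ℂ) z := by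
    apply Complex.ext
    · simp; ring
    · simp; ring
  rw [h2] at h1
  rw [h1, Complex.conj_conj]

lemma Fz_norm (t : ℝ) (z : ℂ) : ‖Fz t (-(starRingEnd ℂ) z)‖ = ‖Fz t z‖ := by
  rw [← rf_norm, Fz_rf]

lemma Fz_red (t : ℝ) (z : ℂ) : ‖Fz t z‖ = ‖Fz t ⟨|z.re|, z.im⟩‖ := by
  rcases le_total 0 z.re with h | h
  · rw [abs_of_nonneg h]
  · rw [abs_of_nonpos h, ← Fz_norm]
    congr 2
    apply Complex.ext
    · simp
    · simp

/-- the size on the right -/
lemma Fz_size {W t : ℝ} (hW : 1 ≤ W) (ht : 8 * W + 16 ≤ t) {z : ℂ} (h0 : 0 ≤ z.re) (h1 : z.re ≤ 2 * W + 2)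
    (h2 : |z.im| ≤ 2 * W + 2) : ∃ G : ℝ, |G - z.re / 2 * Real.log t| ≤ 6 * (2 * W + 3) + 4 ∧
      ‖Fz t z‖ = Real.exp G * ‖riemannZeta (1 / 2 + t * I + z)‖ := by
  obtain ⟨k1, k2⟩ := arg_re_im t z
  have h2' := abs_le.1 h2
  have him : (1 / 2 + t * I + z).im ≠ 0 := by
    rw [k2]
    linarith
  have e1 : (1 / 2 + t * I + z : ℂ) = ⟨1 / 2 + z.re, t + z.im⟩ := by
    apply Complex.ext
    · exact k1
    · exact k2
  have h3 := log_GammaR (B := 2 * W + 3) (t := t) (σ := 1 / 2 + z.re) (τ := t + z.im) (by linarith) (by linarith)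
    (by linarith) (by linarith) (by rw [add_sub_cancel_left]; linarith)
  refine ⟨Real.log ‖Gammaℝ ⟨1 / 2 + z.re, t + z.im⟩‖ - gm t, ?_, ?_⟩
  · unfold gm
    have e2 : Real.log ‖Gammaℝ ⟨1 / 2 + z.re, t + z.im⟩‖ - (-(1 / 4) * Real.log t - Real.pi * t / 4) -
        z.re / 2 * Real.log t = Real.log ‖Gammaℝ ⟨1 / 2 + z.re, t + z.im⟩‖ -
          ((1 / 2 + z.re - 1) / 2 * Real.log t - Real.pi * t / 4) := by ring
    rw [e2]
    exact h3
  · unfold Fz
    have hG : 0 < ‖Gammaℝ ⟨1 / 2 + z.re, t + z.im⟩‖ := by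
      rw [norm_pos_iff, ← e1]
      exact G_ne him
    rw [Lam_eq him, sub_eq_add_neg, Real.exp_add, Real.exp_log hG, norm_mul, norm_mul, Complex.norm_real,
      Real.norm_eq_abs, abs_of_pos (Real.exp_pos _), ← e1]
    ring

/-- **The local data of the Riemann zeta function.** -/
theorem zeta_loc {δ W : ℝ} (hδ : 0 < δ) (hW : 16 ≤ W) : ∃ C₁ T0 : ℝ, 1 ≤ C₁ ∧ 3 ≤ T0 ∧ ∀ t : ℝ, T0 ≤ t →
    Loc δ 2 C₁ W (Real.log t) (Fz t) := by
  obtain ⟨K, hK, hK2⟩ := log_zeta_right (η := δ / 4) (by positivity)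
  obtain ⟨K', hK', hK2'⟩ := zeta_half_plane
  refine ⟨6 * (2 * W + 3) + 4 + K + K' + 2, 8 * W + 16, by linarith, by linarith, fun t ht => ?_⟩
  have ht0 : 0 < t := by linarith
  have hlog : 1 ≤ Real.log t := by
    rw [Real.le_log_iff_exp_le ht0]
    linarith [Real.exp_one_lt_d9]
  have hball : ∀ z ∈ closedBall (2 : ℂ) (2 * W), |z.re| ≤ 2 * W + 2 ∧ |z.im| ≤ 2 * W := by
    intro z hz
    rw [mem_closedBall, dist_eq_norm] at hz
    have h1 := (Complex.abs_re_le_norm (z - 2)).trans hz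
    have h2 := (Complex.abs_im_le_norm (z - 2)).trans hz
    simp only [Complex.sub_re, Complex.re_ofNat, Complex.sub_im, Complex.im_ofNat, sub_zero] at h1 h2
    have h1' := abs_le.1 h1
    refine ⟨abs_le.2 ⟨by linarith, by linarith⟩, h2⟩
  -- the general upper bound
  have hup : ∀ z : ℂ, |z.re| ≤ 2 * W + 2 → |z.im| ≤ 2 * W →
      ‖Fz t z‖ ≤ Real.exp (|z.re| / 2 * Real.log t + Real.log t + (6 * (2 * W + 3) + 4 + K + K' + 2)) := by
    intro z h1 h2
    rw [Fz_red]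
    obtain ⟨G, hG1, hG2⟩ := Fz_size (W := W) (t := t) (by linarith) ht (z := ⟨|z.re|, z.im⟩) (abs_nonneg _) h1
      (by show |z.im| ≤ _; linarith)
    obtain ⟨k1, k2⟩ := arg_re_im t ⟨|z.re|, z.im⟩
    simp only at k1 k2 hG1
    have h2' := abs_le.1 h2
    rw [hG2]
    have h3 := hK2' (1 / 2 + t * I + ⟨|z.re|, z.im⟩) (by rw [k1]; linarith [abs_nonneg z.re]) (by rw [k2]; linarith)
    rw [k2] at h3
    have h4 : t + z.im ≤ Real.exp (Real.log t + 1) := by
      rw [Real.exp_add, Real.exp_log ht0]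
      have := Real.add_one_le_exp (1 : ℝ)
      nlinarith
    calc Real.exp G * ‖riemannZeta (1 / 2 + t * I + ⟨|z.re|, z.im⟩)‖
        ≤ Real.exp G * (Real.exp K' * Real.exp (Real.log t + 1)) := by
          gcongr
          exact h3.trans (by gcongr)
      _ = Real.exp (G + (K' + (Real.log t + 1))) := by rw [Real.exp_add G, Real.exp_add K']
      _ ≤ _ := by
          apply Real.exp_le_exp.2
          linarith [(abs_le.1 hG1).2]
  refine ⟨hlog, by linarith, by norm_num, ?_, ?_, ?_, ?_, ?_, ?_⟩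
  · intro z hz
    obtain ⟨h1, h2⟩ := hball z hz
    have h2' := abs_le.1 h2
    have him : (1 / 2 + t * I + z).im ≠ 0 := by
      rw [(arg_re_im t z).2]
      linarith
    have h3 := Lam_an him
    have h4 : AnalyticAt ℂ (fun w : ℂ => (1 / 2 + t * I + w : ℂ)) z := by fun_prop
    have h5 : AnalyticAt ℂ (fun w : ℂ => completedRiemannZeta (1 / 2 + t * I + w)) z :=
      AnalyticAt.comp (g := completedRiemannZeta) (f := fun w : ℂ => (1 / 2 + t * I + w : ℂ)) h3 h4
    exact h5.mul analyticAt_const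
  · refine ⟨1, norm_one, fun z _ _ => ?_⟩
    rw [Fz_rf, one_mul]
  · intro z hz h0
    obtain ⟨h1, h2⟩ := hball z hz
    have h2' := abs_le.1 h2
    have him : (1 / 2 + t * I + z).im ≠ 0 := by
      rw [(arg_re_im t z).2]
      linarith
    have h3 : completedRiemannZeta (1 / 2 + t * I + z) = 0 := by
      unfold Fz at h0
      rcases mul_eq_zero.1 h0 with h | h
      · exact h
      · exact absurd h (by exact_mod_cast (Real.exp_pos _).ne')
    have h4 := zeros_strip him h3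
    rw [(arg_re_im t z).1] at h4
    rw [abs_le]
    constructor <;> linarith [h4.1, h4.2]
  · intro z h0 h1 h2
    rw [Fz_red]
    obtain ⟨G, hG1, hG2⟩ := Fz_size (W := W) (t := t) (by linarith) ht (z := ⟨|z.re|, z.im⟩) (abs_nonneg _)
      (by show |z.re| ≤ _; linarith) (by show |z.im| ≤ _; linarith)
    obtain ⟨k1, k2⟩ := arg_re_im t ⟨|z.re|, z.im⟩
    simp only at k1 k2 hG1
    have h3 := hK2 (1 / 2 + t * I + ⟨|z.re|, z.im⟩) (by rw [k1]; linarith)
    have hne : riemannZeta (1 / 2 + t * I + ⟨|z.re|, z.im⟩) ≠ 0 :=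
      riemannZeta_ne_zero_of_one_lt_re (by rw [k1]; linarith)
    rw [hG2, Real.log_mul (Real.exp_pos _).ne' (norm_ne_zero_iff.2 hne), Real.log_exp]
    have h5 := abs_le.1 hG1
    have h6 := abs_le.1 h3
    rw [abs_le]
    constructor <;> linarith [h5.1, h5.2, h6.1, h6.2]
  · intro z h1 h2
    refine (hup z (by linarith) (by linarith)).trans (Real.exp_le_exp.2 ?_)
    have : |z.re| / 2 * Real.log t ≤ 1 / 2 * Real.log t := by gcongr
    linarith
  · intro z hz
    obtain ⟨h1, h2⟩ := hball z hz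
    refine (hup z h1 h2).trans (Real.exp_le_exp.2 ?_)
    have : |z.re| / 2 * Real.log t ≤ (2 * W + 2) / 2 * Real.log t := by gcongr
    nlinarith

end Pool.Agent.H572.ST
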