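import Pool.Agent.H572.ST.Zeta
import Pool.Graph.R_seed8.Y746.OJ.RV
import Pool.Graph.R_seed8.Y37.OJ.GA
import Pool.Graph.R_seed8.Y141.OJ.JP
import Pool.Graph.R_seed8.Y153.OJ.LI

/-!
# The Riemann zeta function: bounds for the argument and for the integral of the logarithm
-/

set_option autoImplicit false

open Filter Topology Set Metric Complex
open Pool.Agent.Y815.OJ (GR_conj Lam_conj Lam_symm Lam_eq Lam_an zeros_strip G_ne Lam_zero_iff)
open Pool.Agent.Y746.OJ (LD pt J0 S0 J S NZ pt_re pt_im LC LC_eq dG GD_cont LD_cont pt_ne_one NZ_two hor_LD hor_GD)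

namespace Pool.Agent.H572.ST

lemma pt_eq (t x : ℝ) : (1 / 2 + t * I + (x : ℂ)) = pt (1 / 2 + x) t := by
  unfold pt
  push_cast
  ring

lemma Fz_ne {t : ℝ} (ht : 1 ≤ t) (h : NZ t) (x : ℝ) : Fz t x ≠ 0 := by
  rw [← norm_ne_zero_iff, Fz_red]
  have e : (⟨|(x : ℂ).re|, (x : ℂ).im⟩ : ℂ) = ((|x| : ℝ) : ℂ) := by
    apply Complex.ext <;> simp
  rw [e, norm_ne_zero_iff]
  unfold Fz
  rw [pt_eq]
  refine mul_ne_zero ?_ (by exact_mod_cast (Real.exp_pos _).ne')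
  have him : (pt (1 / 2 + |x|) t).im ≠ 0 := by rw [pt_im]; linarith
  rw [Lam_eq him]
  exact mul_ne_zero (G_ne him) (NZ_two h (by linarith [abs_nonneg x]))

lemma Fz_logDeriv {t x : ℝ} (ht : 1 ≤ t) (h : NZ t) (hx : 0 ≤ x) :
    logDeriv (Fz t) x = logDeriv Gammaℝ (pt (1 / 2 + x) t) + LD (pt (1 / 2 + x) t) := by
  have him : (pt (1 / 2 + x) t).im ≠ 0 := by rw [pt_im]; linarith
  rw [← LC_eq (by rw [pt_re]; linarith) him (NZ_two h (by linarith))]
  unfold LC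
  have hd : DifferentiableAt ℂ completedRiemannZeta (pt (1 / 2 + x) t) := (Lam_an him).differentiableAt
  have h1 : HasDerivAt (fun z : ℂ => 1 / 2 + t * I + z) 1 (x : ℂ) := by
    have := (hasDerivAt_id (x : ℂ)).const_add (1 / 2 + t * I)
    simpa using this
  have h2 : HasDerivAt completedRiemannZeta (deriv completedRiemannZeta (pt (1 / 2 + x) t))
      (1 / 2 + t * I + (x : ℂ)) := by
    rw [pt_eq]
    exact hd.hasDerivAt
  have h3 : HasDerivAt (fun z : ℂ => completedRiemannZeta (1 / 2 + t * I + z))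
      (deriv completedRiemannZeta (pt (1 / 2 + x) t) * 1) (x : ℂ) := HasDerivAt.comp (x : ℂ) h2 h1
  have h4 : HasDerivAt (Fz t) (deriv completedRiemannZeta (pt (1 / 2 + x) t) * 1 * ((Real.exp (-gm t) : ℝ) : ℂ))
      (x : ℂ) := h3.mul_const _
  rw [logDeriv_apply, logDeriv_apply, h4.deriv]
  unfold Fz
  rw [pt_eq, mul_one]
  have h5 : ((Real.exp (-gm t) : ℝ) : ℂ) ≠ 0 := by exact_mod_cast (Real.exp_pos _).ne'
  rw [mul_div_mul_right _ _ h5]

/-- the argument -/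
theorem arg_link : ∃ C : ℝ, 0 < C ∧ ∀ t : ℝ, 1 ≤ t → NZ t →
    |∫ σ in (1 / 2 : ℝ)..(3 / 2), (LD (pt σ t)).im| ≤ |∫ x in (0 : ℝ)..1, (logDeriv (Fz t) x).im| + C := by
  obtain ⟨C, hC, h⟩ := Pool.Agent.Y37.OJ.t_GA
  refine ⟨C, hC, fun t ht hNZ => ?_⟩
  have h1 : ∫ x in (0 : ℝ)..1, (logDeriv (Fz t) x).im =
      (∫ σ in (1 / 2 : ℝ)..(3 / 2), (logDeriv Gammaℝ (pt σ t)).im) + ∫ σ in (1 / 2 : ℝ)..(3 / 2), (LD (pt σ t)).im := by
    rw [← intervalIntegral.integral_add (hor_GD le_rfl (by norm_num)) (hor_LD ht hNZ le_rfl (by norm_num))]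
    have e : ∫ x in (0 : ℝ)..1, (logDeriv (Fz t) x).im = ∫ x in (0 : ℝ)..1,
        ((logDeriv Gammaℝ (pt (1 / 2 + x) t)).im + (LD (pt (1 / 2 + x) t)).im) := by
      apply intervalIntegral.integral_congr
      intro x hx
      rw [uIcc_of_le zero_le_one] at hx
      simp only
      rw [Fz_logDeriv ht hNZ hx.1, Complex.add_im]
    rw [e, intervalIntegral.integral_comp_add_left (fun σ => (logDeriv Gammaℝ (pt σ t)).im + (LD (pt σ t)).im) (1 / 2)]
    norm_num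
  have h2 : |∫ σ in (1 / 2 : ℝ)..(3 / 2), (logDeriv Gammaℝ (pt σ t)).im| ≤ C * |3 / 2 - 1 / 2| := by
    rw [← Real.norm_eq_abs (∫ σ in (1 / 2 : ℝ)..(3 / 2), _)]
    apply intervalIntegral.norm_integral_le_of_norm_le_const
    intro σ hσ
    rw [uIoc_of_le (by norm_num)] at hσ
    rw [Real.norm_eq_abs]
    exact (h t ht).2 σ hσ.1.le (by linarith [hσ.2])
  have e2 : |(3 / 2 - 1 / 2 : ℝ)| = 1 := by norm_num
  rw [e2, mul_one] at h2
  have h3 : ∫ σ in (1 / 2 : ℝ)..(3 / 2), (LD (pt σ t)).im = (∫ x in (0 : ℝ)..1, (logDeriv (Fz t) x).im) -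
      ∫ σ in (1 / 2 : ℝ)..(3 / 2), (logDeriv Gammaℝ (pt σ t)).im := by linarith
  rw [h3]
  exact (abs_sub _ _).trans (by linarith)

/-- the logarithm -/
theorem log_link {t : ℝ} (ht : 24 ≤ t) (h : NZ t) :
    |(∫ x in (0 : ℝ)..1, Real.log ‖Fz t x‖) - (J0 t + 1 / 4 * Real.log t)| ≤ 34 := by
  have ht1 : 1 ≤ t := by linarith
  have ht0 : t ≠ 0 := by linarith
  -- continuity
  have hc1 : ContinuousOn (fun x : ℝ => Real.log ‖Fz t x‖) (uIcc 0 1) := by
    intro x hx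
    have h1 := Fz_ne ht1 h x
    have him : (1 / 2 + t * I + (x : ℂ)).im ≠ 0 := by rw [pt_eq, pt_im]; linarith
    have h2 : AnalyticAt ℂ (Fz t) x := by
      have h3 := Lam_an him
      have h4 : AnalyticAt ℂ (fun w : ℂ => (1 / 2 + t * I + w : ℂ)) x := by fun_prop
      have h5 : AnalyticAt ℂ (fun w : ℂ => completedRiemannZeta (1 / 2 + t * I + w)) x :=
        AnalyticAt.comp (g := completedRiemannZeta) (f := fun w : ℂ => (1 / 2 + t * I + w : ℂ)) h3 h4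
      exact h5.mul analyticAt_const
    exact (((h2.continuousAt.comp (f := fun y : ℝ => (y : ℂ)) (x := x)
      Complex.continuous_ofReal.continuousAt).norm).log (norm_ne_zero_iff.2 h1)).continuousWithinAt
  have hc2 : ContinuousOn (fun x : ℝ => Real.log ‖riemannZeta (pt (1 / 2 + x) t)‖) (uIcc 0 1) := by
    intro x hx
    rw [uIcc_of_le zero_le_one] at hx
    have h1 := NZ_two h (σ := 1 / 2 + x) (by linarith [hx.1])
    have h2 : ContinuousAt riemannZeta (pt (1 / 2 + x) t) := (differentiableAt_riemannZeta (pt_ne_one ht0)).continuousAt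
    have h3 : ContinuousAt (fun x : ℝ => pt (1 / 2 + x) t) x := by unfold pt; fun_prop
    exact (((ContinuousAt.comp (f := fun x : ℝ => pt (1 / 2 + x) t) h2 h3).norm).log
      (norm_ne_zero_iff.2 h1)).continuousWithinAt
  have i1 : IntervalIntegrable (fun x : ℝ => Real.log ‖Fz t x‖) MeasureTheory.volume 0 1 := hc1.intervalIntegrable
  have i2 : IntervalIntegrable (fun x : ℝ => Real.log ‖riemannZeta (pt (1 / 2 + x) t)‖) MeasureTheory.volume 0 1 :=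
    hc2.intervalIntegrable
  have i3 : IntervalIntegrable (fun x : ℝ => x / 2 * Real.log t) MeasureTheory.volume 0 1 := by
    apply Continuous.intervalIntegrable
    fun_prop
  have e1 : J0 t = ∫ x in (0 : ℝ)..1, Real.log ‖riemannZeta (pt (1 / 2 + x) t)‖ := by
    unfold J0
    rw [intervalIntegral.integral_comp_add_left (fun σ => Real.log ‖riemannZeta (pt σ t)‖) (1 / 2)]
    norm_num
  have e2 : 1 / 4 * Real.log t = ∫ x in (0 : ℝ)..1, x / 2 * Real.log t := by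
    rw [intervalIntegral.integral_mul_const, intervalIntegral.integral_div, integral_id]
    ring
  rw [e1, e2, ← intervalIntegral.integral_add i2 i3, ← intervalIntegral.integral_sub i1 (i2.add i3)]
  have h3 : |∫ x in (0 : ℝ)..1, (Real.log ‖Fz t x‖ - (Real.log ‖riemannZeta (pt (1 / 2 + x) t)‖ +
      x / 2 * Real.log t))| ≤ 34 * |1 - 0| := by
    rw [← Real.norm_eq_abs (∫ x in (0 : ℝ)..1, _)]
    apply intervalIntegral.norm_integral_le_of_norm_le_const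
    intro x hx
    rw [uIoc_of_le zero_le_one] at hx
    rw [Real.norm_eq_abs]
    obtain ⟨G, hG1, hG2⟩ := Fz_size (W := 1) (t := t) le_rfl (by linarith) (z := (x : ℂ)) (by simpa using hx.1.le)
      (by simp; linarith [hx.2]) (by simp)
    rw [pt_eq] at hG2
    have h1 := NZ_two h (σ := 1 / 2 + x) (by linarith [hx.1])
    rw [hG2, Real.log_mul (Real.exp_pos _).ne' (norm_ne_zero_iff.2 h1), Real.log_exp]
    simp only [Complex.ofReal_re] at hG1
    have e3 : G + Real.log ‖riemannZeta (pt (1 / 2 + x) t)‖ - (Real.log ‖riemannZeta (pt (1 / 2 + x) t)‖ +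
      x / 2 * Real.log t) = G - x / 2 * Real.log t := by ring
    rw [e3]
    linarith
  have e4 : |(1 - 0 : ℝ)| = 1 := by norm_num
  rw [e4, mul_one] at h3
  exact h3

/-- the structure exists -/
lemma exists_str {δ W L C₁ : ℝ} {F : ℂ → ℂ} (h : Loc δ 2 C₁ W L F) (hδ : 0 < δ) (hδ1 : δ ≤ 1 / 8) (hW : 16 ≤ W) :
    ∃ (s : Multiset ℂ) (g : ℂ → ℂ), Str δ 2 C₁ W L (Real.pi / (4 * (1 / 2 + δ))) (1 / 2 + δ)
      (2 * 2 * (1 + W) * L + 4 * C₁) F s g := by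
  obtain ⟨s, g, hz⟩ := h.exists_zer hδ hδ1 hW
  refine ⟨s, g, ⟨h, hz, hδ, hδ1, hW, rfl, ?_, ?_⟩⟩
  · rw [le_div_iff₀ (by positivity)]
    linarith [Real.pi_gt_three]
  · field_simp
    ring

theorem absorb {κ C ε : ℝ} (hε : 0 < ε) : ∃ T0 : ℝ, 24 ≤ T0 ∧ ∀ t : ℝ, T0 ≤ t →
    κ * Real.log t + C ≤ (κ + ε) * Real.log t := by
  have h1 := Real.tendsto_log_atTop.eventually_ge_atTop (C / ε)
  obtain ⟨T, hT⟩ := (h1.and (eventually_ge_atTop (24 : ℝ))).exists_forall_of_atTop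
  refine ⟨max T 24, le_max_right _ _, fun t ht => ?_⟩
  have h2 := (hT t ((le_max_left _ _).trans ht)).1
  rw [div_le_iff₀ hε] at h2
  linarith

/-- **The argument.** -/
theorem S0_bound {ε : ℝ} (hε : 0 < ε) : ∃ T0 : ℝ, 24 ≤ T0 ∧ ∀ t : ℝ, T0 ≤ t → NZ t →
    |S0 t| ≤ (1 / (4 * Real.pi) + ε) * Real.log t := by
  obtain ⟨δ, hδ⟩ : ∃ δ : ℝ, δ = min (1 / 8) ε := ⟨_, rfl⟩
  have hδ0 : 0 < δ := by rw [hδ]; exact lt_min (by norm_num) hε
  have hδ1 : δ ≤ 1 / 8 := by rw [hδ]; exact min_le_left _ _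
  have hδ2 : δ ≤ ε := by rw [hδ]; exact min_le_right _ _
  have he0 : 0 < δ ^ 2 / 64 := by positivity
  obtain ⟨W, hW, hb⟩ := exists_big δ 2 he0 (by nlinarith)
  obtain ⟨C₁, T1, hC1, hT1, hloc⟩ := zeta_loc hδ0 hW
  obtain ⟨C, hC, hlink⟩ := arg_link
  obtain ⟨T2, hT2, habs⟩ := absorb (κ := 1 / 4 + δ) (C := 368 * C₁ / δ + C) hε
  refine ⟨max T1 T2, le_max_of_le_right hT2, fun t ht hNZ => ?_⟩
  have ht1 : T1 ≤ t := (le_max_left _ _).trans ht
  have ht2 : T2 ≤ t := (le_max_right _ _).trans ht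
  have ht0 : 1 ≤ t := by linarith
  obtain ⟨s, g, hs⟩ := exists_str (hloc t ht1) hδ0 hδ1 hW
  have h1 := hs.arg rfl hb (fun x _ => Fz_ne ht0 hNZ x)
  have h2 := hlink t ht0 hNZ
  have h3 : (1 / 4 + δ / 2 + 32 * (δ ^ 2 / 64) / δ) = 1 / 4 + δ := by
    field_simp
    ring
  rw [h3] at h1
  have h4 := habs t ht2
  have h5 : |∫ σ in (1 / 2 : ℝ)..(3 / 2), (LD (pt σ t)).im| ≤ (1 / 4 + δ + ε) * Real.log t := by linarith
  have hlog : 0 ≤ Real.log t := Real.log_nonneg ht0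
  unfold S0
  rw [abs_mul, abs_neg, abs_of_pos (by positivity)]
  calc 1 / Real.pi * |∫ σ in (1 / 2 : ℝ)..(3 / 2), (LD (pt σ t)).im| ≤
      1 / Real.pi * ((1 / 4 + δ + ε) * Real.log t) := by gcongr
    _ = (1 / (4 * Real.pi) + (δ + ε) / Real.pi) * Real.log t := by ring
    _ ≤ _ := by
      apply mul_le_mul_of_nonneg_right _ hlog
      have : (δ + ε) / Real.pi ≤ ε := by
        rw [div_le_iff₀ Real.pi_pos]
        nlinarith [Real.pi_gt_three]
      linarith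

/-- **The integral of the logarithm.** -/
theorem J0_bound {ε : ℝ} (hε : 0 < ε) : ∃ T0 : ℝ, 24 ≤ T0 ∧ ∀ t : ℝ, T0 ≤ t → NZ t →
    (1 / 16 - I2 / (2 * Real.pi ^ 2) - ε) * Real.log t ≤ J0 t ∧ J0 t ≤ (1 / 16 + ε) * Real.log t := by
  have hI := I2_nonneg
  obtain ⟨δ, hδ⟩ : ∃ δ : ℝ, δ = min (1 / 8) (ε / (16 * (1 + I2))) := ⟨_, rfl⟩
  have hδ0 : 0 < δ := by rw [hδ]; exact lt_min (by norm_num) (by positivity)
  have hδ1 : δ ≤ 1 / 8 := by rw [hδ]; exact min_le_left _ _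
  have hδ2 : δ * (16 * (1 + I2)) ≤ ε := by
    rw [← le_div_iff₀ (by positivity), hδ]
    exact min_le_right _ _
  have he0 : 0 < δ ^ 2 / 64 := by positivity
  obtain ⟨W, hW, hb⟩ := exists_big δ 2 he0 (by nlinarith)
  obtain ⟨C₁, T1, hC1, hT1, hloc⟩ := zeta_loc hδ0 hW
  obtain ⟨T2, hT2, habs⟩ := absorb (κ := 1 / 16 + 2 * δ) (C := 4 * C₁ + 34) (half_pos hε)
  obtain ⟨T3, hT3, habs3⟩ := absorb (κ := 0) (C := (1 + I2) * (400 * C₁ / δ) + 34) (half_pos hε)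
  refine ⟨max T1 (max T2 T3), le_max_of_le_right (le_max_of_le_left hT2), fun t ht hNZ => ?_⟩
  have ht1 : T1 ≤ t := (le_max_left _ _).trans ht
  have ht2 : T2 ≤ t := ((le_max_left _ _).trans (le_max_right _ _)).trans ht
  have ht3 : T3 ≤ t := ((le_max_right _ _).trans (le_max_right _ _)).trans ht
  have ht0 : 1 ≤ t := by linarith
  have hlog : 0 ≤ Real.log t := Real.log_nonneg ht0
  obtain ⟨s, g, hs⟩ := exists_str (hloc t ht1) hδ0 hδ1 hW
  have h1 := hs.log_upper rfl hb (fun x _ => Fz_ne ht0 hNZ x)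
  have h2 := hs.log_lower rfl hb (fun x _ => Fz_ne ht0 hNZ x)
  have h3 := abs_le.1 (log_link (by linarith) hNZ)
  have h4 := habs t ht2
  have h5 := habs3 t ht3
  have f0 : I2 / (2 * Real.pi ^ 2) ≤ I2 := by
    rw [div_le_iff₀ (by positivity)]
    have : 1 ≤ 2 * Real.pi ^ 2 := by nlinarith [Real.pi_gt_three]
    nlinarith
  have f1 : I2 / (2 * Real.pi ^ 2) * (2 * (1 / 2 + δ)) ^ 2 ≤ I2 / (2 * Real.pi ^ 2) + I2 * (5 * δ) := by
    have g1 : (2 * (1 / 2 + δ)) ^ 2 ≤ 1 + 5 * δ := by nlinarith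
    have g2 : 0 ≤ I2 / (2 * Real.pi ^ 2) := by positivity
    calc I2 / (2 * Real.pi ^ 2) * (2 * (1 / 2 + δ)) ^ 2 ≤ I2 / (2 * Real.pi ^ 2) * (1 + 5 * δ) := by gcongr
      _ = I2 / (2 * Real.pi ^ 2) + I2 / (2 * Real.pi ^ 2) * (5 * δ) := by ring
      _ ≤ _ := by gcongr
  have f2 : (64 * (δ ^ 2 / 64) / δ) = δ := by
    field_simp
  rw [f2] at h2
  constructor
  · have f3 : (1 / 16 - I2 / (2 * Real.pi ^ 2) - ε) * Real.log t + 1 / 4 * Real.log t + ε / 2 * Real.log t ≤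
        (5 / 16 - I2 / (2 * Real.pi ^ 2) * (2 * (1 / 2 + δ)) ^ 2 - δ - (1 + I2) * δ) * Real.log t := by
      have : (1 / 16 - I2 / (2 * Real.pi ^ 2) - ε) + 1 / 4 + ε / 2 ≤
        (5 / 16 - I2 / (2 * Real.pi ^ 2) * (2 * (1 / 2 + δ)) ^ 2 - δ - (1 + I2) * δ) := by nlinarith
      nlinarith
    linarith [h3.2]
  · have f3 : (5 / 16 + δ + δ ^ 2 / 64) * Real.log t ≤ (1 / 16 + 2 * δ) * Real.log t + 1 / 4 * Real.log t := by
      have : (5 / 16 + δ + δ ^ 2 / 64) ≤ (1 / 16 + 2 * δ) + 1 / 4 := by nlinarith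
      nlinarith
    have f4 : (1 / 16 + 2 * δ + ε / 2) * Real.log t ≤ (1 / 16 + ε) * Real.log t := by
      apply mul_le_mul_of_nonneg_right _ hlog
      nlinarith
    linarith [h3.1]

end Pool.Agent.H572.ST
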