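import Pool.Agent.H572.ST.Zeta2

/-!
# The integral of `S`, and Catalan's constant
-/

set_option autoImplicit false

open Filter Topology Set Metric Complex MeasureTheory
open Pool.Agent.Y746.OJ (LD pt J0 S0 J S NZ pt_re pt_im LC LC_eq dG GD_cont LD_cont pt_ne_one NZ_two hor_LD hor_GD
  pt_hasDeriv NZ_null)

namespace Pool.Agent.H572.ST

/-- Catalan's constant -/
noncomputable def Cat : ℝ := ∑' k : ℕ, (-1 : ℝ) ^ k / (2 * k + 1) ^ 2

lemma integral_exp_neg_mul {b : ℝ} (hb : 0 < b) : IntegrableOn (fun r : ℝ => Real.exp (-(b * r))) (Ioi 0) ∧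
    ∫ r in Ioi (0 : ℝ), Real.exp (-(b * r)) = 1 / b := by
  have hd : ∀ x ∈ Ici (0 : ℝ), HasDerivAt (fun r => -(1 / b) * Real.exp (-(b * r))) (Real.exp (-(b * x))) x := by
    intro x _
    have h0 : HasDerivAt (fun r : ℝ => b * r) b x := by simpa using (hasDerivAt_id x).const_mul b
    have h1 : HasDerivAt (fun r : ℝ => -(b * r)) (-b) x := h0.neg
    have e : Real.exp (-(b * x)) = -(1 / b) * (Real.exp (-(b * x)) * -b) := by field_simp
    rw [e]
    exact h1.exp.const_mul (-(1 / b))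
  have h3 : Tendsto (fun r : ℝ => -(1 / b) * Real.exp (-(b * r))) atTop (𝓝 0) := by
    have h3 : Tendsto (fun r : ℝ => Real.exp (-(b * r))) atTop (𝓝 0) :=
        Real.tendsto_exp_neg_atTop_nhds_zero.comp (tendsto_id.const_mul_atTop hb)
    simpa using h3.const_mul (-(1 / b))
  refine ⟨integrableOn_Ioi_deriv_of_nonneg' hd (fun r _ => (Real.exp_pos _).le) h3, ?_⟩
  rw [integral_Ioi_of_hasDerivAt_of_nonneg' hd (fun r _ => (Real.exp_pos _).le) h3]
  simp

theorem I2_eq : I2 = 2 * Cat := by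
  unfold I2
  have e1 : ∫ r in Ioi (0 : ℝ), Real.arctan (1 / Real.sinh r) = ∫ r in Ioi (0 : ℝ), 2 * Real.arctan (Real.exp (-r)) :=
    setIntegral_congr_fun measurableSet_Ioi fun r hr => arc_two hr
  rw [e1, integral_const_mul]
  congr 1
  have hF : ∀ k : ℕ, IntegrableOn (fun r : ℝ => (-1 : ℝ) ^ k / (2 * k + 1) * Real.exp (-((2 * k + 1) * r))) (Ioi 0) ∧
      ∫ r in Ioi (0 : ℝ), (-1 : ℝ) ^ k / (2 * k + 1) * Real.exp (-((2 * k + 1) * r)) =
        (-1 : ℝ) ^ k / (2 * k + 1) ^ 2 ∧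
      ∫ r in Ioi (0 : ℝ), ‖(-1 : ℝ) ^ k / (2 * k + 1) * Real.exp (-((2 * k + 1) * r))‖ = 1 / (2 * k + 1) ^ 2 := by
    intro k
    have hk : (0 : ℝ) < 2 * k + 1 := by positivity
    obtain ⟨h1, h2⟩ := integral_exp_neg_mul hk
    refine ⟨h1.const_mul _, ?_, ?_⟩
    · rw [integral_const_mul, h2]
      field_simp
    · have e : ∀ r : ℝ, ‖(-1 : ℝ) ^ k / (2 * k + 1) * Real.exp (-((2 * k + 1) * r))‖ =
          1 / (2 * k + 1) * Real.exp (-((2 * k + 1) * r)) := by
        intro r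
        rw [norm_mul, norm_div, norm_pow, norm_neg, norm_one, one_pow, Real.norm_of_nonneg hk.le,
          Real.norm_of_nonneg (Real.exp_pos _).le]
      simp only [e]
      rw [integral_const_mul, h2]
      field_simp
  have hs : Summable fun k : ℕ => (1 : ℝ) / (2 * k + 1) ^ 2 := by
    have h1 : Summable fun n : ℕ => (1 : ℝ) / (n : ℝ) ^ 2 := Real.summable_one_div_nat_pow.2 (by norm_num)
    have h2 := h1.comp_injective (i := fun k : ℕ => 2 * k + 1) (fun a b h => by simpa using h)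
    refine h2.congr fun k => ?_
    simp
  have key := hasSum_integral_of_summable_integral_norm (μ := volume.restrict (Ioi (0 : ℝ)))
    (F := fun (k : ℕ) (r : ℝ) => (-1 : ℝ) ^ k / (2 * k + 1) * Real.exp (-((2 * k + 1) * r)))
    (fun k => (hF k).1) (by
      refine hs.congr fun k => ?_
      exact (hF k).2.2.symm)
  have e2 : ∀ r ∈ Ioi (0 : ℝ), Real.arctan (Real.exp (-r)) =
      ∑' k : ℕ, (-1 : ℝ) ^ k / (2 * k + 1) * Real.exp (-((2 * k + 1) * r)) := by
    intro r hr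
    have h1 : ‖Real.exp (-r)‖ < 1 := by
      rw [Real.norm_of_nonneg (Real.exp_pos _).le, Real.exp_lt_one_iff]
      have : 0 < r := hr
      linarith
    have h2 := Real.hasSum_arctan h1
    rw [← h2.tsum_eq]
    apply tsum_congr
    intro k
    have e : Real.exp (-((2 * k + 1) * r)) = Real.exp (-r) ^ (2 * k + 1) := by
      rw [← Real.exp_nat_mul]
      congr 1
      push_cast
      ring
    rw [e]
    push_cast
    ring
  rw [setIntegral_congr_fun measurableSet_Ioi e2, ← key.tsum_eq]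
  unfold Cat
  apply tsum_congr
  intro k
  exact (hF k).2.1

lemma arctan_ge {x : ℝ} (hx : 0 ≤ x) : x - x ^ 3 / 3 ≤ Real.arctan x := by
  have hd : ∀ y : ℝ, HasDerivAt (fun y => Real.arctan y - y + y ^ 3 / 3) (1 / (1 + y ^ 2) - 1 + 3 * y ^ 2 / 3) y := by
    intro y
    have h1 := Real.hasDerivAt_arctan y
    have h2 : HasDerivAt (fun y : ℝ => y ^ 3 / 3) (3 * y ^ 2 / 3) y := by
      have := (hasDerivAt_pow 3 y).div_const 3
      simpa using this
    exact (h1.sub (hasDerivAt_id y)).add h2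
  have hm : Monotone (fun y => Real.arctan y - y + y ^ 3 / 3) := by
    apply monotone_of_deriv_nonneg (fun y => (hd y).differentiableAt)
    intro y
    rw [(hd y).deriv]
    have h1 : 1 / (1 + y ^ 2) - 1 + 3 * y ^ 2 / 3 = y ^ 4 / (1 + y ^ 2) := by
      field_simp
      ring
    rw [h1]
    positivity
  have := hm hx
  simp only [Real.arctan_zero] at this
  linarith

lemma I2_ge : 16 / 9 ≤ I2 := by
  unfold I2
  obtain ⟨h1, h2⟩ := integral_exp_neg_mul one_pos
  obtain ⟨h1', h2'⟩ := integral_exp_neg_mul (b := 3) (by norm_num)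
  have h3 : ∫ r in Ioi (0 : ℝ), (2 * Real.exp (-(1 * r)) - 2 / 3 * Real.exp (-(3 * r))) ≤
      ∫ r in Ioi (0 : ℝ), Real.arctan (1 / Real.sinh r) := by
    apply setIntegral_mono_on ((h1.const_mul _).sub (h1'.const_mul _)) integrableOn_arc measurableSet_Ioi
    intro r hr
    have hr0 : 0 < r := hr
    show 2 * Real.exp (-(1 * r)) - 2 / 3 * Real.exp (-(3 * r)) ≤ _
    rw [arc_two hr0, one_mul]
    have h4 := arctan_ge (Real.exp_pos (-r)).le
    have h5 : Real.exp (-(3 * r)) = Real.exp (-r) ^ 3 := by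
      rw [← Real.exp_nat_mul]
      congr 1
      push_cast
      ring
    rw [h5]
    linarith
  rw [integral_sub (h1.const_mul _) (h1'.const_mul _), integral_const_mul, integral_const_mul, h2, h2'] at h3
  linarith

/-- vertical derivative -/
theorem vert_deriv {σ y : ℝ} (hy : y ≠ 0) (hz : riemannZeta (pt σ y) ≠ 0) :
    HasDerivAt (fun u : ℝ => Real.log ‖riemannZeta (pt σ u)‖) (-(LD (pt σ y)).im) y := by
  have h0 : HasDerivAt riemannZeta (deriv riemannZeta (pt σ y)) (pt σ y) :=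
    (differentiableAt_riemannZeta (pt_ne_one hy)).hasDerivAt
  have h1 : HasDerivAt (fun u : ℝ => riemannZeta (pt σ u)) (deriv riemannZeta (pt σ y) * I) y :=
    h0.comp_of_eq y (pt_hasDeriv σ y) rfl
  have h2 := h1.norm_sq
  have h3 : ‖riemannZeta (pt σ y)‖ ^ 2 ≠ 0 := pow_ne_zero 2 (norm_ne_zero_iff.2 hz)
  have h4 := (h2.log h3).const_mul (1 / 2 : ℝ)
  have e : (fun u : ℝ => Real.log ‖riemannZeta (pt σ u)‖) =
      fun u : ℝ => 1 / 2 * Real.log (‖riemannZeta (pt σ u)‖ ^ 2) := by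
    funext u
    rw [Real.log_pow]
    push_cast
    ring
  have h5 : -(LD (pt σ y)).im = 1 / 2 * (2 * inner ℝ (riemannZeta (pt σ y))
        (deriv riemannZeta (pt σ y) * I) / ‖riemannZeta (pt σ y)‖ ^ 2) := by
    have h6 : Complex.normSq (riemannZeta (pt σ y)) ≠ 0 := by
      rw [Complex.normSq_eq_norm_sq]; exact h3
    unfold LD
    rw [Complex.inner, ← Complex.normSq_eq_norm_sq, Complex.div_im]
    simp only [Complex.mul_re, Complex.mul_im, Complex.I_re, Complex.I_im, Complex.conj_re, Complex.conj_im]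
    field_simp
    ring
  rw [e, h5]
  exact h4

lemma pt_cont_right (σ y : ℝ) : ContinuousAt (fun u : ℝ => pt σ u) y := by unfold pt; fun_prop

/-- the vertical segments without zeros -/
lemma good_sigma {t1 t2 : ℝ} (h1 : 2 ≤ t1) : ∀ᵐ σ ∂(volume.restrict (Ioi (1 / 2 : ℝ))), ∀ y ∈ Icc t1 t2,
    riemannZeta (pt σ y) ≠ 0 := by
  rw [ae_restrict_iff' measurableSet_Ioi]
  have hfin : ((H370.Zf riemannZeta 1 t2 : Set ℂ)).Finite := Finset.finite_toSet _
  have hnull : volume (Complex.re '' (H370.Zf riemannZeta 1 t2 : Set ℂ)) = 0 := (hfin.image _).measure_zero _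
  have hae : ∀ᵐ σ : ℝ, σ ∉ Complex.re '' (H370.Zf riemannZeta 1 t2 : Set ℂ) := compl_mem_ae_iff.2 hnull
  filter_upwards [hae] with σ hσ hσ2 y hy h0
  have hσ3 : 1 / 2 < σ := hσ2
  apply hσ
  refine ⟨pt σ y, ?_, pt_re σ y⟩
  rw [Finset.mem_coe, H370.mem_Zf H370.good_zeta (by norm_num)]
  refine ⟨by rw [pt_re]; linarith, ?_, by rw [pt_im]; linarith [hy.1], by rw [pt_im]; exact hy.2, h0⟩
  by_contra hc
  push Not at hc
  exact riemannZeta_ne_zero_of_one_le_re hc h0

lemma int_rpow {C : ℝ} : IntegrableOn (fun σ : ℝ => C * (2 : ℝ) ^ (-σ)) (Ioi (3 / 2)) := by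
  have h1 : IntegrableOn (fun σ : ℝ => C * Real.exp (-Real.log 2 * σ)) (Ioi (3 / 2)) :=
    (exp_neg_integrableOn_Ioi (3 / 2) (Real.log_pos one_lt_two)).const_mul C
  have e : (fun σ : ℝ => C * (2 : ℝ) ^ (-σ)) = fun σ : ℝ => C * Real.exp (-Real.log 2 * σ) := by
    funext σ
    rw [Real.rpow_def_of_pos two_pos]
    congr 2
    ring
  rw [e]
  exact h1

/-- integrability over strips -/
lemma LD_strip {t1 t2 : ℝ} (h1 : 1 ≤ t1) : Integrable (fun p : ℝ × ℝ => (LD (pt p.1 p.2)).im)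
    ((volume.restrict (Ioi (1 / 2 : ℝ))).prod (volume.restrict (Ioc t1 t2))) := by
  obtain ⟨C, hC, hb⟩ := Pool.Agent.Y141.OJ.right_bd
  rw [Measure.prod_restrict, ← Measure.volume_eq_prod]
  have hmeas : Measurable fun p : ℝ × ℝ => (LD (pt p.1 p.2)).im :=
    Complex.measurable_im.comp Pool.Agent.Y153.OJ.LD_meas
  have e : Ioi (1 / 2 : ℝ) ×ˢ Ioc t1 t2 = (Ioc (1 / 2 : ℝ) (3 / 2) ×ˢ Ioc t1 t2) ∪ (Ioi (3 / 2 : ℝ) ×ˢ Ioc t1 t2) := by
    rw [← Set.union_prod, Ioc_union_Ioi_eq_Ioi (by norm_num)]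
  rw [e]
  refine IntegrableOn.union ?_ ?_
  · have h2 : IntegrableOn (fun p : ℝ × ℝ => (LD (pt p.1 p.2)).im) (Icc (1 / 2 : ℝ) (3 / 2) ×ˢ Icc t1 t2) :=
      (Pool.Agent.Y153.OJ.t_LI t1 t2 h1).im
    exact h2.mono_set (Set.prod_mono Ioc_subset_Icc_self Ioc_subset_Icc_self)
  · have h3 : IntegrableOn (fun p : ℝ × ℝ => (C * (2 : ℝ) ^ (-p.1)) * 1) (Ioi (3 / 2 : ℝ) ×ˢ Ioc t1 t2) := by
      have h4 : IntegrableOn (fun _ : ℝ => (1 : ℝ)) (Ioc t1 t2) := integrableOn_const (by simp)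
      have h5 := (int_rpow (C := C)).mul_prod h4
      rw [Measure.prod_restrict] at h5
      exact h5
    refine Integrable.mono' h3 hmeas.aestronglyMeasurable ?_
    rw [ae_restrict_iff' (measurableSet_Ioi.prod measurableSet_Ioc)]
    refine Eventually.of_forall fun p hp => ?_
    have h6 := (hb (pt p.1 p.2) (by rw [pt_re]; exact le_of_lt hp.1)).2
    rw [pt_re] at h6
    rw [mul_one]
    exact (Complex.abs_im_le_norm _).trans h6

/-- `S` is integrable -/
lemma S_int {t1 t2 : ℝ} (h1 : 1 ≤ t1) (h12 : t1 ≤ t2) : IntervalIntegrable S volume t1 t2 := by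
  rw [intervalIntegrable_iff_integrableOn_Ioc_of_le h12]
  have h2 := (LD_strip (t2 := t2) h1).integral_prod_right
  exact h2.const_mul _

lemma log_int {t : ℝ} (h1 : 1 ≤ t) (h : NZ t) :
    IntegrableOn (fun σ : ℝ => Real.log ‖riemannZeta (pt σ t)‖) (Ioi (1 / 2)) := by
  obtain ⟨C, hC, hb⟩ := Pool.Agent.Y141.OJ.right_bd
  have hc : ContinuousOn (fun σ : ℝ => Real.log ‖riemannZeta (pt σ t)‖) (Ici (1 / 2)) := fun σ hσ =>
    (Pool.Agent.Y141.OJ.hasDeriv_log (by linarith) (NZ_two h hσ)).continuousAt.continuousWithinAt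
  rw [← Ioc_union_Ioi_eq_Ioi (show (1 / 2 : ℝ) ≤ 3 / 2 by norm_num)]
  refine IntegrableOn.union ?_ ?_
  · exact ((hc.mono Icc_subset_Ici_self).integrableOn_Icc).mono_set Ioc_subset_Icc_self
  · refine Integrable.mono' (int_rpow (C := C)) ?_ ?_
    · exact (hc.mono fun σ hσ => by
        have : (3 / 2 : ℝ) < σ := hσ
        exact le_of_lt (lt_trans (by norm_num) this)).aestronglyMeasurable measurableSet_Ioi
    · rw [ae_restrict_iff' measurableSet_Ioi]
      refine Eventually.of_forall fun σ hσ => ?_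
      have := (hb (pt σ t) (by rw [pt_re]; exact le_of_lt hσ)).1
      rw [pt_re] at this
      exact this

/-- **Littlewood's formula.** -/
theorem S_integral {t1 t2 : ℝ} (h1 : 2 ≤ t1) (h12 : t1 ≤ t2) (hN1 : NZ t1) (hN2 : NZ t2) :
    ∫ y in t1..t2, S y = 1 / Real.pi * (J t2 - J t1) := by
  have hsw := integral_integral_swap (μ := volume.restrict (Ioi (1 / 2 : ℝ))) (ν := volume.restrict (Ioc t1 t2))
    (f := fun σ y => (LD (pt σ y)).im) (LD_strip (by linarith))
  have e1 : ∫ y in t1..t2, S y = -(1 / Real.pi) * ∫ y in Ioc t1 t2, ∫ σ in Ioi (1 / 2 : ℝ), (LD (pt σ y)).im := by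
    rw [intervalIntegral.integral_of_le h12, ← integral_const_mul]
    rfl
  have e2 : ∫ σ in Ioi (1 / 2 : ℝ), ∫ y in Ioc t1 t2, (LD (pt σ y)).im =
      ∫ σ in Ioi (1 / 2 : ℝ), (Real.log ‖riemannZeta (pt σ t1)‖ - Real.log ‖riemannZeta (pt σ t2)‖) := by
    apply integral_congr_ae
    filter_upwards [good_sigma (t2 := t2) h1] with σ hσ
    have hcont : ContinuousOn (fun y : ℝ => -(LD (pt σ y)).im) (uIcc t1 t2) := by
      intro y hy
      rw [uIcc_of_le h12] at hy
      have hy0 : y ≠ 0 := by linarith [hy.1]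
      exact ((Complex.continuous_im.continuousAt.comp (ContinuousAt.comp (f := fun u : ℝ => pt σ u)
        (LD_cont (pt_ne_one hy0) (hσ y hy)) (pt_cont_right σ y))).neg).continuousWithinAt
    have h3 := intervalIntegral.integral_eq_sub_of_hasDerivAt (a := t1) (b := t2)
      (f := fun y => Real.log ‖riemannZeta (pt σ y)‖) (f' := fun y => -(LD (pt σ y)).im) (fun y hy => by
        rw [uIcc_of_le h12] at hy
        exact vert_deriv (by linarith [hy.1]) (hσ y hy)) hcont.intervalIntegrable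
    rw [intervalIntegral.integral_neg, intervalIntegral.integral_of_le h12] at h3
    linarith
  rw [e1, ← hsw, e2, integral_sub (log_int (by linarith) hN1) (log_int (by linarith) hN2)]
  unfold J
  ring

end Pool.Agent.H572.ST
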